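import Pool.Agent.Helper58.N4.Vec

set_option autoImplicit false

/-!
# Moving frames along a surface in four-space and their structure equations
-/

namespace N4

variable {A : Type*} [CommRing A] [Algebra ℝ A]

/-- a moving frame along a surface in `E ^ 4`, over a differential ring -/
structure Fr (D1 D2 : Derivation ℝ A A) (f X1 X2 N3 N4 : Fin 4 → A) (p q : A) : Prop where
  on : ON X1 X2 N3 N4
  x1 : vd D1 f = X1
  x2 : vd D2 f = X2
  comm : ∀ u, D1 (D2 u) - D2 (D1 u) = -p * D1 u + q * D2 u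

/-- the structure equations of a surface in `E ^ 4` with `Lap H = c H` in an orthonormal frame
with third vector `H / |H|`; `h = |H|`, second fundamental form `a` in direction of the third,
`b` in direction of the fourth vector, `w` the normal connection form -/
structure SE (D1 D2 : Derivation ℝ A A) (p q h w1 w2 a11 a12 a22 b11 b12 b22 : A) (c : ℝ) :
    Prop where
  comm : ∀ u, D1 (D2 u) - D2 (D1 u) = -p * D1 u + q * D2 u
  tr3 : a11 + a22 = 2 * h
  tr4 : b11 + b22 = 0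
  gauss : D1 q + D2 p = a11 * a22 - a12 ^ 2 + b11 * b22 - b12 ^ 2 + p ^ 2 + q ^ 2
  cod31 : D1 a12 - D2 a11 = 2 * q * a12 + p * (a22 - a11) + b12 * w1 - b11 * w2
  cod32 : D1 a22 - D2 a12 = q * (a22 - a11) - 2 * p * a12 + b22 * w1 - b12 * w2
  cod41 : D1 b12 - D2 b11 = 2 * q * b12 + p * (b22 - b11) - a12 * w1 + a11 * w2
  cod42 : D1 b22 - D2 b12 = q * (b22 - b11) - 2 * p * b12 - a22 * w1 + a12 * w2
  ricci : D1 w2 - D2 w1 = -p * w1 + q * w2 + a12 * (b11 - b22) - b12 * (a11 - a22)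
  tan1 : a11 * D1 h + a12 * D2 h + h * (D1 h + b11 * w1 + b12 * w2) = 0
  tan2 : a12 * D1 h + a22 * D2 h + h * (D2 h + b12 * w1 + b22 * w2) = 0
  lap3 : D1 (D1 h) + D2 (D2 h) - p * D2 h - q * D1 h - h * (w1 ^ 2 + w2 ^ 2) -
    h * (a11 ^ 2 + 2 * a12 ^ 2 + a22 ^ 2) = algebraMap ℝ A c * h
  lap4 : h * (D1 w1 + D2 w2 - q * w1 - p * w2) + 2 * w1 * D1 h + 2 * w2 * D2 h -
    h * (a11 * b11 + 2 * a12 * b12 + a22 * b22) = 0

section
variable {D1 D2 : Derivation ℝ A A} {f X1 X2 N3 N4 : Fin 4 → A} {p q : A}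

theorem dt_swap (D : Derivation ℝ A A) {u v : Fin 4 → A} (h : D (dt u v) = 0) :
    dt (vd D v) u = -dt (vd D u) v := by
  have h1 := D_dt D u v
  rw [h, dt_comm u] at h1
  linear_combination -h1

theorem dt_self (D : Derivation ℝ A A) {u : Fin 4 → A} (h : dt u u = 1) :
    dt (vd D u) u = 0 := by
  apply two_cancel
  have h1 := D_dt D u u
  rw [h, Derivation.map_one_eq_zero, dt_comm u] at h1
  exact h1.symm

theorem Fr.vcomm (F : Fr D1 D2 f X1 X2 N3 N4 p q) (v : Fin 4 → A) :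
    vd D1 (vd D2 v) - vd D2 (vd D1 v) = (-p) • vd D1 v + q • vd D2 v := by
  funext i
  exact F.comm (v i)

theorem Fr.cartan (F : Fr D1 D2 f X1 X2 N3 N4 p q) (v E : Fin 4 → A) :
    D1 (dt (vd D2 v) E) - D2 (dt (vd D1 v) E) =
      dt (vd D2 v) (vd D1 E) - dt (vd D1 v) (vd D2 E) - p * dt (vd D1 v) E +
      q * dt (vd D2 v) E := by
  have h := F.vcomm v
  have h2 : dt (vd D1 (vd D2 v) - vd D2 (vd D1 v)) E =
      dt ((-p) • vd D1 v + q • vd D2 v) E := by rw [h]
  rw [dt_sub_left, dt_add_left, dt_smul_left, dt_smul_left] at h2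
  rw [D_dt, D_dt]
  linear_combination h2

theorem Fr.mixed (F : Fr D1 D2 f X1 X2 N3 N4 p q) :
    vd D1 X2 - vd D2 X1 = (-p) • X1 + q • X2 := by
  have h := F.vcomm f
  rw [F.x1, F.x2] at h
  exact h

theorem Fr.coef_p (F : Fr D1 D2 f X1 X2 N3 N4 p q) : dt (vd D1 X1) X2 = p := by
  have h2 : dt (vd D1 X2 - vd D2 X1) X1 = dt ((-p) • X1 + q • X2) X1 := by rw [F.mixed]
  rw [dt_sub_left, dt_add_left, dt_smul_left, dt_smul_left, F.on.h00, dt_comm X2,
    F.on.h01, dt_self D2 F.on.h00] at h2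
  have h3 := dt_swap D1 (u := X1) (v := X2) (by rw [F.on.h01, map_zero])
  linear_combination (-h2) + h3

theorem Fr.coef_q (F : Fr D1 D2 f X1 X2 N3 N4 p q) : dt (vd D2 X2) X1 = q := by
  have h2 : dt (vd D1 X2 - vd D2 X1) X2 = dt ((-p) • X1 + q • X2) X2 := by rw [F.mixed]
  rw [dt_sub_left, dt_add_left, dt_smul_left, dt_smul_left, F.on.h11,
    F.on.h01, dt_self D1 F.on.h11] at h2
  have h3 := dt_swap D2 (u := X1) (v := X2) (by rw [F.on.h01, map_zero])
  linear_combination h2 + h3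

theorem Fr.mixed3 (F : Fr D1 D2 f X1 X2 N3 N4 p q) : dt (vd D2 X1) N3 = dt (vd D1 X2) N3 := by
  have h2 : dt (vd D1 X2 - vd D2 X1) N3 = dt ((-p) • X1 + q • X2) N3 := by rw [F.mixed]
  rw [dt_sub_left, dt_add_left, dt_smul_left, dt_smul_left, F.on.h02, F.on.h12] at h2
  linear_combination -h2

theorem Fr.mixed4 (F : Fr D1 D2 f X1 X2 N3 N4 p q) : dt (vd D2 X1) N4 = dt (vd D1 X2) N4 := by
  have h2 : dt (vd D1 X2 - vd D2 X1) N4 = dt ((-p) • X1 + q • X2) N4 := by rw [F.mixed]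
  rw [dt_sub_left, dt_add_left, dt_smul_left, dt_smul_left, F.on.h03, F.on.h13] at h2
  linear_combination -h2

/-- the structure equations -/
theorem Fr.structure_equations (F : Fr D1 D2 f X1 X2 N3 N4 p q) {h a11 a12 a22 b11 b12 b22
    w1 w2 : A} (c : ℝ)
    (ha11 : dt (vd D1 X1) N3 = a11) (ha12 : dt (vd D1 X2) N3 = a12)
    (ha22 : dt (vd D2 X2) N3 = a22)
    (hb11 : dt (vd D1 X1) N4 = b11) (hb12 : dt (vd D1 X2) N4 = b12)
    (hb22 : dt (vd D2 X2) N4 = b22)
    (hw1 : dt (vd D1 N3) N4 = w1) (hw2 : dt (vd D2 N3) N4 = w2)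
    (tr3 : a11 + a22 = 2 * h) (tr4 : b11 + b22 = 0)
    (hlap : vd D1 (vd D1 (h • N3)) + vd D2 (vd D2 (h • N3)) - p • vd D2 (h • N3) -
      q • vd D1 (h • N3) = (algebraMap ℝ A c * h) • N3) :
    SE D1 D2 p q h w1 w2 a11 a12 a22 b11 b12 b22 c := by
  have P := parseval F.on
  have o := F.on
  -- the connection coefficients
  have x11 : dt (vd D1 X1) X1 = 0 := dt_self D1 o.h00
  have x12 : dt (vd D1 X1) X2 = p := F.coef_p
  have x21 : dt (vd D2 X1) X1 = 0 := dt_self D2 o.h00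
  have y12 : dt (vd D2 X2) X2 = 0 := dt_self D2 o.h11
  have y11 : dt (vd D2 X2) X1 = q := F.coef_q
  have x22 : dt (vd D2 X1) X2 = -q := by
    have h3 := dt_swap D2 (u := X2) (v := X1) (by rw [dt_comm, o.h01, map_zero])
    rw [h3, y11]
  have z11 : dt (vd D1 X2) X1 = -p := by
    have h3 := dt_swap D1 (u := X1) (v := X2) (by rw [o.h01, map_zero])
    rw [h3, x12]
  have z12 : dt (vd D1 X2) X2 = 0 := dt_self D1 o.h11
  have m3 : dt (vd D2 X1) N3 = a12 := by rw [F.mixed3, ha12]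
  have m4 : dt (vd D2 X1) N4 = b12 := by rw [F.mixed4, hb12]
  have n311 : dt (vd D1 N3) X1 = -a11 := by
    rw [dt_swap D1 (u := X1) (v := N3) (by rw [o.h02, map_zero]), ha11]
  have n312 : dt (vd D1 N3) X2 = -a12 := by
    rw [dt_swap D1 (u := X2) (v := N3) (by rw [o.h12, map_zero]), ha12]
  have n313 : dt (vd D1 N3) N3 = 0 := dt_self D1 o.h22
  have n321 : dt (vd D2 N3) X1 = -a12 := by
    rw [dt_swap D2 (u := X1) (v := N3) (by rw [o.h02, map_zero]), m3]
  have n322 : dt (vd D2 N3) X2 = -a22 := by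
    rw [dt_swap D2 (u := X2) (v := N3) (by rw [o.h12, map_zero]), ha22]
  have n323 : dt (vd D2 N3) N3 = 0 := dt_self D2 o.h22
  have n411 : dt (vd D1 N4) X1 = -b11 := by
    rw [dt_swap D1 (u := X1) (v := N4) (by rw [o.h03, map_zero]), hb11]
  have n412 : dt (vd D1 N4) X2 = -b12 := by
    rw [dt_swap D1 (u := X2) (v := N4) (by rw [o.h13, map_zero]), hb12]
  have n413 : dt (vd D1 N4) N3 = -w1 := by
    rw [dt_swap D1 (u := N3) (v := N4) (by rw [o.h23, map_zero]), hw1]
  have n414 : dt (vd D1 N4) N4 = 0 := dt_self D1 o.h33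
  have n421 : dt (vd D2 N4) X1 = -b12 := by
    rw [dt_swap D2 (u := X1) (v := N4) (by rw [o.h03, map_zero]), m4]
  have n422 : dt (vd D2 N4) X2 = -b22 := by
    rw [dt_swap D2 (u := X2) (v := N4) (by rw [o.h13, map_zero]), hb22]
  have n423 : dt (vd D2 N4) N3 = -w2 := by
    rw [dt_swap D2 (u := N3) (v := N4) (by rw [o.h23, map_zero]), hw2]
  have n424 : dt (vd D2 N4) N4 = 0 := dt_self D2 o.h33
  -- Cartan equations
  have c12 := F.cartan X1 X2
  rw [P (vd D2 X1) (vd D1 X2), P (vd D1 X1) (vd D2 X2), x22, x12, x21, x11, m3, m4, z11, z12,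
    ha12, hb12, ha11, hb11, y11, y12, ha22, hb22, map_neg] at c12
  have c13 := F.cartan X1 N3
  rw [P (vd D2 X1) (vd D1 N3), P (vd D1 X1) (vd D2 N3), x22, x12, x21, x11, m3, m4, ha11, hb11,
    n311, n312, n313, hw1, n321, n322, n323, hw2] at c13
  have c14 := F.cartan X1 N4
  rw [P (vd D2 X1) (vd D1 N4), P (vd D1 X1) (vd D2 N4), x22, x12, x21, x11, m3, m4, ha11, hb11,
    n411, n412, n413, n414, n421, n422, n423, n424] at c14
  have c23 := F.cartan X2 N3
  rw [P (vd D2 X2) (vd D1 N3), P (vd D1 X2) (vd D2 N3), y11, y12, z11, z12, ha12, hb12, ha22,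
    hb22, n311, n312, n313, hw1, n321, n322, n323, hw2] at c23
  have c24 := F.cartan X2 N4
  rw [P (vd D2 X2) (vd D1 N4), P (vd D1 X2) (vd D2 N4), y11, y12, z11, z12, ha12, hb12, ha22,
    hb22, n411, n412, n413, n414, n421, n422, n423, n424] at c24
  have c34 := F.cartan N3 N4
  rw [P (vd D2 N3) (vd D1 N4), P (vd D1 N3) (vd D2 N4), n321, n322, n323, hw2, n411, n412, n413,
    n414, n311, n312, n313, hw1, n421, n422, n423, n424] at c34
  -- the Laplace equation
  have L : ∀ E : Fin 4 → A,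
      (D1 (D1 h) + D2 (D2 h) - p * D2 h - q * D1 h) * dt N3 E + 2 * D1 h * dt (vd D1 N3) E +
      2 * D2 h * dt (vd D2 N3) E +
      h * (D1 (dt (vd D1 N3) E) - dt (vd D1 N3) (vd D1 E) + D2 (dt (vd D2 N3) E) -
        dt (vd D2 N3) (vd D2 E) - p * dt (vd D2 N3) E - q * dt (vd D1 N3) E) =
      algebraMap ℝ A c * h * dt N3 E := by
    intro E
    have h2 : dt (vd D1 (vd D1 (h • N3)) + vd D2 (vd D2 (h • N3)) - p • vd D2 (h • N3) -
      q • vd D1 (h • N3)) E = dt ((algebraMap ℝ A c * h) • N3) E := by rw [hlap]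
    simp only [vd_smul, vd_add, dt_sub_left, dt_add_left, dt_smul_left] at h2
    rw [D_dt, D_dt]
    linear_combination h2
  have l1 := L X1
  rw [P (vd D1 N3) (vd D1 X1), P (vd D2 N3) (vd D2 X1), dt_comm N3 X1, o.h02, x11, x12, ha11,
    hb11, x21, x22, m3, m4, n311, n312, n313, hw1, n321, n322, n323, hw2, map_neg, map_neg] at l1
  have l2 := L X2
  rw [P (vd D1 N3) (vd D1 X2), P (vd D2 N3) (vd D2 X2), dt_comm N3 X2, o.h12, z11, z12, ha12,
    hb12, y11, y12, ha22, hb22, n311, n312, n313, hw1, n321, n322, n323, hw2, map_neg,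
    map_neg] at l2
  have l3 := L N3
  rw [P (vd D1 N3) (vd D1 N3), P (vd D2 N3) (vd D2 N3), o.h22, n311, n312, n313, hw1, n321, n322,
    n323, hw2, map_zero, map_zero] at l3
  have l4 := L N4
  rw [P (vd D1 N3) (vd D1 N4), P (vd D2 N3) (vd D2 N4), o.h23, n311, n312, n313, hw1, n321, n322,
    n323, hw2, n411, n412, n413, n414, n421, n422, n423, n424] at l4
  have t31 : D1 a11 + D1 a22 = 2 * D1 h := by
    have := congrArg D1 tr3
    rw [map_add, Derivation.leibniz] at this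
    simp only [smul_eq_mul] at this
    have h2 : D1 (2 : A) = 0 := by
      have := D1.map_natCast 2
      exact_mod_cast this
    rw [h2] at this
    linear_combination this
  have t32 : D2 a11 + D2 a22 = 2 * D2 h := by
    have := congrArg D2 tr3
    rw [map_add, Derivation.leibniz] at this
    simp only [smul_eq_mul] at this
    have h2 : D2 (2 : A) = 0 := by
      have := D2.map_natCast 2
      exact_mod_cast this
    rw [h2] at this
    linear_combination this
  have hb : b22 = -b11 := by linear_combination tr4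
  have cod31 : D1 a12 - D2 a11 = 2 * q * a12 + p * (a22 - a11) + b12 * w1 - b11 * w2 := by
    linear_combination c13
  have cod32 : D1 a22 - D2 a12 = q * (a22 - a11) - 2 * p * a12 + b22 * w1 - b12 * w2 := by
    linear_combination c23
  refine ⟨F.comm, tr3, tr4, ?_, cod31, cod32, ?_, ?_, ?_, ?_, ?_, ?_, ?_⟩
  · linear_combination -c12
  · linear_combination c14
  · linear_combination c24
  · linear_combination c34
  · apply two_cancel
    subst hb
    linear_combination (-l1) + h * cod32 - h * t31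
  · apply two_cancel
    subst hb
    linear_combination (-l2) - h * cod31 - h * t32
  · linear_combination l3
  · linear_combination l4

end

end N4
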