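import Pool.Agent.Helper58.N4.Data

set_option autoImplicit false

/-!
# Principal frames on small open sets
-/

namespace N4

open scoped ContDiff Topology

/-- first coordinate derivation -/
noncomputable def Pu (V : TopologicalSpace.Opens (ℝ × ℝ)) : Derivation ℝ (SF V) (SF V) :=
  pd V (1, 0)

/-- second coordinate derivation -/
noncomputable def Pv (V : TopologicalSpace.Opens (ℝ × ℝ)) : Derivation ℝ (SF V) (SF V) :=
  pd V (0, 1)

theorem P_comm (V : TopologicalSpace.Opens (ℝ × ℝ)) (u : SF V) :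
    Pu V (Pv V u) = Pv V (Pu V u) := pd_comm V _ _ u

section
variable {V W : TopologicalSpace.Opens (ℝ × ℝ)}

theorem res_Pu (hW : W ≤ V) (u : SF V) : res hW (Pu V u) = Pu W (res hW u) := res_pd hW _ u

theorem res_Pv (hW : W ≤ V) (u : SF V) : res hW (Pv V u) = Pv W (res hW u) := res_pd hW _ u

theorem val_mul (a b : SF V) (x : V) : (a * b).1 x = a.1 x * b.1 x := rfl

theorem val_add (a b : SF V) (x : V) : (a + b).1 x = a.1 x + b.1 x := rfl

theorem val_sub (a b : SF V) (x : V) : (a - b).1 x = a.1 x - b.1 x := rfl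

theorem val_neg (a : SF V) (x : V) : (-a).1 x = -a.1 x := rfl

theorem val_pow (a : SF V) (n : ℕ) (x : V) : (a ^ n).1 x = a.1 x ^ n := rfl

theorem val_one (x : V) : (1 : SF V).1 x = 1 := rfl

theorem val_zero (x : V) : (0 : SF V).1 x = 0 := rfl

theorem val_const (r : ℝ) (x : V) : (algebraMap ℝ (SF V) r).1 x = r := rfl

theorem val_two (x : V) : (2 : SF V).1 x = 2 := by
  have h : (2 : SF V) = algebraMap ℝ (SF V) 2 := (map_ofNat (algebraMap ℝ (SF V)) 2).symm
  rw [h, val_const]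

/-- the constant one half -/
noncomputable def hf (V : TopologicalSpace.Opens (ℝ × ℝ)) : SF V := algebraMap ℝ (SF V) (1 / 2)

theorem hf_two : 2 * hf V = 1 := by
  apply sf_ext
  intro x
  rw [val_mul, val_two, hf, val_const, val_one]
  norm_num

theorem res_hf (hW : W ≤ V) : res hW (hf V) = hf W := (res hW).commutes _

theorem inv_val {a b : SF V} (h : a * b = 1) (x : V) : a.1 x * b.1 x = 1 := by
  rw [← val_mul, h, val_one]

theorem unit_ne {a : SF V} (h : IsUnit a) (x : V) : a.1 x ≠ 0 := by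
  obtain ⟨b, hb⟩ := h.exists_right_inv
  intro h0
  have := inv_val hb x
  rw [h0, zero_mul] at this
  exact zero_ne_one this

theorem unit_of_pos {a : SF V} (h : ∀ x : V, 0 < a.1 x) : IsUnit a :=
  isUnit_of_ne V a (fun x => (h x).ne')

/-- shrinking to the set where a function is positive -/
theorem shrink_pos (a : SF V) (x : V) (h : 0 < a.1 x) :
    ∃ (W : TopologicalSpace.Opens (ℝ × ℝ)) (hW : W ≤ V), (x : ℝ × ℝ) ∈ W ∧
      ∀ q : W, 0 < (res hW a).1 q := by
  have hc : ContinuousOn (ext V a.1) V := (sf_smooth a).continuousOn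
  have hopen : IsOpen ((V : Set (ℝ × ℝ)) ∩ (ext V a.1) ⁻¹' (Set.Ioi 0)) :=
    hc.isOpen_inter_preimage V.isOpen isOpen_Ioi
  refine ⟨⟨_, hopen⟩, fun y hy => hy.1, ⟨x.2, ?_⟩, ?_⟩
  · show 0 < ext V a.1 x
    rw [ext_of_mem V _ x x.2]
    exact h
  · intro q
    exact q.2.2

theorem half_angle_pos (C S : SF V) (h : C ^ 2 + S ^ 2 = 1) (hp : ∀ x : V, 0 < (1 + C).1 x) :
    ∃ x y : SF V, x ^ 2 + y ^ 2 = 1 ∧ x ^ 2 - y ^ 2 = C ∧ 2 * x * y = S := by
  have h2 := hf_two (V := V)
  obtain ⟨x, hx, hxp⟩ := exists_sqrt V (hf V * (1 + C)) (by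
    intro q
    rw [val_mul, hf, val_const]
    have := hp q
    positivity)
  obtain ⟨xi, hxi⟩ := (unit_of_pos hxp).exists_right_inv
  refine ⟨x, hf V * S * xi, ?_, ?_, ?_⟩
  · have e : x ^ 2 * (x ^ 2 + (hf V * S * xi) ^ 2 - 1) = 0 := by
      linear_combination (x ^ 2 + hf V * (1 + C) - 1) * hx + (hf V ^ 2 * S ^ 2) * (x * xi + 1) * hxi +
        hf V ^ 2 * h + (hf V * (1 + C)) * h2
    linear_combination xi ^ 2 * e - (x ^ 2 + (hf V * S * xi) ^ 2 - 1) * (x * xi + 1) * hxi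
  · have e : x ^ 2 * (x ^ 2 - (hf V * S * xi) ^ 2 - C) = 0 := by
      linear_combination (x ^ 2 + hf V * (1 + C) - C) * hx -
        (hf V ^ 2 * S ^ 2) * (x * xi + 1) * hxi -
        hf V ^ 2 * h + (hf V * C * (1 + C)) * h2
    linear_combination xi ^ 2 * e - (x ^ 2 - (hf V * S * xi) ^ 2 - C) * (x * xi + 1) * hxi
  · linear_combination (2 * hf V * S) * hxi + S * h2

theorem half_angle (hV : (V : Set (ℝ × ℝ)).Nonempty) (C S : SF V) (h : C ^ 2 + S ^ 2 = 1) :
    ∃ (W : TopologicalSpace.Opens (ℝ × ℝ)) (hW : W ≤ V), (W : Set (ℝ × ℝ)).Nonempty ∧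
      ∃ x y : SF W, x ^ 2 + y ^ 2 = 1 ∧
        ((x ^ 2 - y ^ 2 = res hW C ∧ 2 * x * y = res hW S) ∨
          (x ^ 2 - y ^ 2 = -res hW C ∧ 2 * x * y = -res hW S)) := by
  obtain ⟨q, hq⟩ := hV
  rcases le_or_gt 0 (C.1 ⟨q, hq⟩) with h0 | h0
  · obtain ⟨W, hW, hqW, hp⟩ := shrink_pos (1 + C) ⟨q, hq⟩ (by
      rw [val_add, val_one]
      linarith)
    refine ⟨W, hW, ⟨q, hqW⟩, ?_⟩
    obtain ⟨x, y, h1, h2, h3⟩ := half_angle_pos (res hW C) (res hW S)
      (by rw [← map_pow, ← map_pow, ← map_add, h, map_one])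
      (by
        intro z
        have := hp z
        rw [map_add, map_one] at this
        exact this)
    exact ⟨x, y, h1, Or.inl ⟨h2, h3⟩⟩
  · obtain ⟨W, hW, hqW, hp⟩ := shrink_pos (1 - C) ⟨q, hq⟩ (by
      rw [val_sub, val_one]
      linarith)
    refine ⟨W, hW, ⟨q, hqW⟩, ?_⟩
    obtain ⟨x, y, h1, h2, h3⟩ := half_angle_pos (-res hW C) (-res hW S)
      (by
        have e := congrArg (res hW) h
        rw [map_add, map_pow, map_pow, map_one] at e
        linear_combination e)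
      (by
        intro z
        have := hp z
        rw [map_sub, map_one] at this
        rw [← sub_eq_add_neg]
        exact this)
    exact ⟨x, y, h1, Or.inr ⟨h2, h3⟩⟩

/-- rotation which diagonalises two parallel symmetric forms, one of them without zeros -/
theorem principal_aux (hV : (V : Set (ℝ × ℝ)).Nonempty) (u v u' v' : SF V)
    (hK : v * u' - v' * u = 0) (hn : ∀ x : V, (u ^ 2 + 4 * v ^ 2).1 x ≠ 0) :
    ∃ (W : TopologicalSpace.Opens (ℝ × ℝ)) (hW : W ≤ V), (W : Set (ℝ × ℝ)).Nonempty ∧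
      ∃ C S : SF W, C ^ 2 + S ^ 2 = 1 ∧
        (C ^ 2 - S ^ 2) * res hW v - C * S * res hW u = 0 ∧
        (C ^ 2 - S ^ 2) * res hW v' - C * S * res hW u' = 0 := by
  have hpos : ∀ x : V, 0 < (u ^ 2 + (2 * v) ^ 2).1 x := by
    intro x
    have h1 : (u ^ 2 + (2 * v) ^ 2).1 x = u.1 x ^ 2 + (2 * v.1 x) ^ 2 := by
      rw [val_add, val_pow, val_pow, val_mul, val_two]
    have h2 : (u ^ 2 + 4 * v ^ 2) = u ^ 2 + (2 * v) ^ 2 := by ring
    have h3 := hn x
    rw [h2, h1] at h3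
    rw [h1]
    positivity
  obtain ⟨n, hn1, hnp⟩ := exists_sqrt V _ hpos
  obtain ⟨ni, hni⟩ := (unit_of_pos hnp).exists_right_inv
  obtain ⟨W, hW, hWn, x, y, h1, h2⟩ := half_angle hV (u * ni) (2 * v * ni) (by
    have h4 : n ^ 2 * ((u * ni) ^ 2 + (2 * v * ni) ^ 2 - 1) = 0 := by
      linear_combination ((u ^ 2 + (2 * v) ^ 2) * (n * ni + 1)) * hni - hn1
    linear_combination ni ^ 2 * h4 - ((u * ni) ^ 2 + (2 * v * ni) ^ 2 - 1) * (n * ni + 1) * hni)
  refine ⟨W, hW, hWn, x, y, h1, ?_, ?_⟩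
  · apply two_cancel
    rcases h2 with ⟨h3, h4⟩ | ⟨h3, h4⟩
    · rw [map_mul] at h3
      rw [map_mul, map_mul, map_ofNat] at h4
      linear_combination (2 * res hW v) * h3 - res hW u * h4
    · rw [map_mul] at h3
      rw [map_mul, map_mul, map_ofNat] at h4
      linear_combination (2 * res hW v) * h3 - res hW u * h4
  · have hK2 := congrArg (res hW) hK
    rw [map_sub, map_mul, map_mul, map_zero] at hK2
    apply two_cancel
    rcases h2 with ⟨h3, h4⟩ | ⟨h3, h4⟩
    · rw [map_mul] at h3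
      rw [map_mul, map_mul, map_ofNat] at h4
      linear_combination (2 * res hW v') * h3 - res hW u' * h4 - 2 * res hW ni * hK2
    · rw [map_mul] at h3
      rw [map_mul, map_mul, map_ofNat] at h4
      linear_combination (2 * res hW v') * h3 - res hW u' * h4 + 2 * res hW ni * hK2

theorem res_comp {Z : TopologicalSpace.Opens (ℝ × ℝ)} (hW : W ≤ V) (hZ : Z ≤ W) (a : SF V) :
    res hZ (res hW a) = res (hZ.trans hW) a := by
  apply sf_ext
  intro x
  rw [res_val, res_val, res_val]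

theorem sum_sq_zero {u v : SF V} (h : u ^ 2 + 4 * v ^ 2 = 0) : u = 0 ∧ v = 0 := by
  have h4 : (4 : SF V) = algebraMap ℝ (SF V) 4 := (map_ofNat (algebraMap ℝ (SF V)) 4).symm
  have h1 : ∀ x : V, u.1 x ^ 2 + 4 * v.1 x ^ 2 = 0 := by
    intro x
    have h2 : (u ^ 2 + 4 * v ^ 2).1 x = 0 := by rw [h, val_zero]
    rw [h4, val_add, val_pow, val_mul, val_const, val_pow] at h2
    exact h2
  constructor
  · apply sf_ext
    intro x
    have := h1 x
    have h3 : u.1 x ^ 2 = 0 := by nlinarith [sq_nonneg (u.1 x), sq_nonneg (v.1 x)]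
    rw [val_zero]
    exact pow_eq_zero_iff (two_ne_zero) |>.mp h3
  · apply sf_ext
    intro x
    have := h1 x
    have h3 : v.1 x ^ 2 = 0 := by nlinarith [sq_nonneg (u.1 x), sq_nonneg (v.1 x)]
    rw [val_zero]
    exact pow_eq_zero_iff (two_ne_zero) |>.mp h3

/-- rotation which diagonalises two parallel symmetric forms -/
theorem principal (hV : (V : Set (ℝ × ℝ)).Nonempty) (u v u' v' : SF V)
    (hK : v * u' - v' * u = 0) :
    ∃ (W : TopologicalSpace.Opens (ℝ × ℝ)) (hW : W ≤ V), (W : Set (ℝ × ℝ)).Nonempty ∧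
      ∃ C S : SF W, C ^ 2 + S ^ 2 = 1 ∧
        (C ^ 2 - S ^ 2) * res hW v - C * S * res hW u = 0 ∧
        (C ^ 2 - S ^ 2) * res hW v' - C * S * res hW u' = 0 := by
  by_cases h1 : u ^ 2 + 4 * v ^ 2 = 0
  · obtain ⟨hu, hv⟩ := sum_sq_zero h1
    by_cases h2 : u' ^ 2 + 4 * v' ^ 2 = 0
    · obtain ⟨hu', hv'⟩ := sum_sq_zero h2
      refine ⟨V, le_rfl, hV, 1, 0, by ring, ?_, ?_⟩
      · rw [hu, hv, map_zero]
        ring
      · rw [hu', hv', map_zero]
        ring
    · obtain ⟨W, hW, hWn, hun, hne⟩ := zero_or_unit V _ h2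
      have hne2 : ∀ x : W, ((res hW u') ^ 2 + 4 * (res hW v') ^ 2).1 x ≠ 0 := by
        intro x
        have := hne x
        rw [map_add, map_pow, map_mul, map_pow, map_ofNat] at this
        exact this
      obtain ⟨Z, hZ, hZn, C, S, e1, e2, e3⟩ := principal_aux hWn (res hW u') (res hW v')
        (res hW u) (res hW v) (by rw [hu, hv, map_zero]; ring) hne2
      rw [res_comp, res_comp] at e2 e3
      exact ⟨Z, hZ.trans hW, hZn, C, S, e1, e3, e2⟩
  · obtain ⟨W, hW, hWn, hun, hne⟩ := zero_or_unit V _ h1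
    have hne2 : ∀ x : W, ((res hW u) ^ 2 + 4 * (res hW v) ^ 2).1 x ≠ 0 := by
      intro x
      have := hne x
      rw [map_add, map_pow, map_mul, map_pow, map_ofNat] at this
      exact this
    have hK2 : res hW v * res hW u' - res hW v' * res hW u = 0 := by
      rw [← map_mul, ← map_mul, ← map_sub, hK, map_zero]
    obtain ⟨Z, hZ, hZn, C, S, e1, e2, e3⟩ := principal_aux hWn (res hW u) (res hW v)
      (res hW u') (res hW v') hK2 hne2
    rw [res_comp, res_comp] at e2 e3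
    exact ⟨Z, hZ.trans hW, hZn, C, S, e1, e2, e3⟩

end

/-- geometric data of a surface patch with `Lap H = c H` on an open set `V`: coefficients of an
orthonormal frame in the coordinates and the structure equations -/
structure GD (V : TopologicalSpace.Opens (ℝ × ℝ)) (c : ℝ)
    (a1 a2 b1 b2 p q h w1 w2 a11 a12 a22 b11 b12 b22 : SF V) : Prop where
  du : IsUnit (a1 * b2 - a2 * b1)
  br1 : (a1 • Pu V + a2 • Pv V) b1 - (b1 • Pu V + b2 • Pv V) a1 = -p * a1 + q * b1
  br2 : (a1 • Pu V + a2 • Pv V) b2 - (b1 • Pu V + b2 • Pv V) a2 = -p * a2 + q * b2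
  se : SE (a1 • Pu V + a2 • Pv V) (b1 • Pu V + b2 • Pv V) p q h w1 w2 a11 a12 a22 b11 b12 b22 c
  hpos : ∀ x : V, 0 < h.1 x
  hne : ∀ x : V, ¬ ((Pu V h).1 x = 0 ∧ (Pv V h).1 x = 0)

section
variable {V W : TopologicalSpace.Opens (ℝ × ℝ)} {c : ℝ}
  {a1 a2 b1 b2 p q h w1 w2 a11 a12 a22 b11 b12 b22 : SF V}

/-- geometric data can be restricted -/
theorem GD.restrict (G : GD V c a1 a2 b1 b2 p q h w1 w2 a11 a12 a22 b11 b12 b22) (hW : W ≤ V) :
    GD W c (res hW a1) (res hW a2) (res hW b1) (res hW b2) (res hW p) (res hW q) (res hW h)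
      (res hW w1) (res hW w2) (res hW a11) (res hW a12) (res hW a22) (res hW b11) (res hW b12)
      (res hW b22) := by
  have hu := comb_map (res hW) (P1 := Pu V) (P2 := Pv V) (Q1 := Pu W) (Q2 := Pv W)
    (res_Pu hW) (res_Pv hW)
  have k1 : (res hW a1 • Pu W + res hW a2 • Pv W) (res hW b1) -
      (res hW b1 • Pu W + res hW b2 • Pv W) (res hW a1) =
      -res hW p * res hW a1 + res hW q * res hW b1 := by
    rw [← hu, ← hu, ← map_sub, G.br1]
    simp only [map_add, map_mul, map_neg]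
  have k2 : (res hW a1 • Pu W + res hW a2 • Pv W) (res hW b2) -
      (res hW b1 • Pu W + res hW b2 • Pv W) (res hW a2) =
      -res hW p * res hW a2 + res hW q * res hW b2 := by
    rw [← hu, ← hu, ← map_sub, G.br2]
    simp only [map_add, map_mul, map_neg]
  refine ⟨?_, k1, k2, ?_, ?_, ?_⟩
  · have := G.du.map (res hW)
    rw [map_sub, map_mul, map_mul] at this
    exact this
  · exact SE.map (res hW) (fun u => hu a1 a2 u) (fun u => hu b1 b2 u) G.se
      (comm_of_bracket (P_comm W) k1 k2)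
  · intro x
    rw [res_val]
    exact G.hpos _
  · intro x
    rw [← res_Pu, ← res_Pv, res_val, res_val]
    exact G.hne _

/-- the gradient of the mean curvature in the frame -/
theorem GD.grad_ne (G : GD V c a1 a2 b1 b2 p q h w1 w2 a11 a12 a22 b11 b12 b22) (x : V) :
    ¬ (((a1 • Pu V + a2 • Pv V) h).1 x = 0 ∧ ((b1 • Pu V + b2 • Pv V) h).1 x = 0) := by
  rintro ⟨h1, h2⟩
  rw [comb_apply, val_add, val_mul, val_mul] at h1 h2
  have hd := unit_ne G.du x
  rw [val_sub, val_mul, val_mul] at hd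
  apply G.hne x
  constructor
  · have : (a1.1 x * b2.1 x - a2.1 x * b1.1 x) * (Pu V h).1 x = 0 := by
      linear_combination b2.1 x * h1 - a2.1 x * h2
    exact (mul_eq_zero.mp this).resolve_left hd
  · have : (a1.1 x * b2.1 x - a2.1 x * b1.1 x) * (Pv V h).1 x = 0 := by
      linear_combination a1.1 x * h2 - b1.1 x * h1
    exact (mul_eq_zero.mp this).resolve_left hd

end

end N4
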