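import Pool.Agent.Helper58.N4.Loc

set_option autoImplicit false

/-!
# Integral curves of derivations of the ring of smooth functions
-/

namespace N4

open scoped ContDiff Topology

/-- a derivation `al ∂₁ + be ∂₂` has an integral curve through every point -/
theorem exists_curve (V : TopologicalSpace.Opens (ℝ × ℝ)) (al be : SF V) (q0 : V) :
    ∃ ε : ℝ, 0 < ε ∧ ∃ γ : ℝ → ℝ × ℝ, γ 0 = (q0 : ℝ × ℝ) ∧ ∀ t ∈ Set.Ioo (-ε) ε, γ t ∈ V ∧
      ∀ u : SF V, HasDerivAt (fun s => ext V u.1 (γ s))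
        (ext V ((al • Pu V + be • Pv V) u).1 (γ t)) t := by
  have hal : ContDiffAt ℝ ∞ (ext V al.1) (q0 : ℝ × ℝ) :=
    (sf_smooth al).contDiffAt (V.isOpen.mem_nhds q0.2)
  have hbe : ContDiffAt ℝ ∞ (ext V be.1) (q0 : ℝ × ℝ) :=
    (sf_smooth be).contDiffAt (V.isOpen.mem_nhds q0.2)
  have hF : ContDiffAt ℝ ∞ (fun x => (ext V al.1 x, ext V be.1 x)) (q0 : ℝ × ℝ) :=
    hal.prodMk hbe
  have hF1 : ContDiffAt ℝ 1 (fun x => (ext V al.1 x, ext V be.1 x)) (q0 : ℝ × ℝ) :=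
    hF.of_le (le_trans (by norm_num) two_le_inf)
  obtain ⟨γ, h0, ε, hε, hγ⟩ :=
    hF1.exists_forall_mem_closedBall_exists_eq_forall_mem_Ioo_hasDerivAt₀ 0
  have hc : ContinuousAt γ 0 := (hγ 0 ⟨by linarith, by linarith⟩).continuousAt
  have hV : γ ⁻¹' (V : Set (ℝ × ℝ)) ∈ 𝓝 (0 : ℝ) := by
    apply hc
    rw [h0]
    exact V.isOpen.mem_nhds q0.2
  obtain ⟨δ, hδ, hball⟩ := Metric.mem_nhds_iff.mp hV
  refine ⟨min ε δ, lt_min hε hδ, γ, h0, ?_⟩
  intro t ht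
  have ht1 : t ∈ Set.Ioo (0 - ε) (0 + ε) :=
    ⟨by have := ht.1; have := min_le_left ε δ; linarith,
      by have := ht.2; have := min_le_left ε δ; linarith⟩
  have htV : γ t ∈ V := by
    apply hball
    rw [Metric.mem_ball, Real.dist_eq, sub_zero, abs_lt]
    exact ⟨by have := ht.1; have := min_le_right ε δ; linarith,
      by have := ht.2; have := min_le_right ε δ; linarith⟩
  refine ⟨htV, ?_⟩
  intro u
  have hd : HasFDerivAt (ext V u.1) (fderiv ℝ (ext V u.1) (γ t)) (γ t) :=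
    (diff_at V _ (sf_smooth u) (γ t) htV).hasFDerivAt
  have hcomp := hd.comp_hasDerivAt t (hγ t ht1)
  have hval : (fderiv ℝ (ext V u.1) (γ t)) (ext V al.1 (γ t), ext V be.1 (γ t)) =
      ext V ((al • Pu V + be • Pv V) u).1 (γ t) := by
    rw [ext_of_mem V ((al • Pu V + be • Pv V) u).1 (γ t) htV, comb_apply, val_add, val_mul,
      val_mul, ← ext_of_mem V al.1 (γ t) htV, ← ext_of_mem V be.1 (γ t) htV]
    have h1 : (Pu V u).1 ⟨γ t, htV⟩ = fderiv ℝ (ext V u.1) (γ t) (1, 0) := rfl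
    have h2 : (Pv V u).1 ⟨γ t, htV⟩ = fderiv ℝ (ext V u.1) (γ t) (0, 1) := rfl
    rw [h1, h2]
    have h3 : (ext V al.1 (γ t), ext V be.1 (γ t)) =
        ext V al.1 (γ t) • ((1, 0) : ℝ × ℝ) + ext V be.1 (γ t) • ((0, 1) : ℝ × ℝ) := by
      simp
    rw [h3, map_add, map_smul, map_smul]
    rfl
  rw [hval] at hcomp
  exact hcomp

end N4
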