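import Pool.Agent.Helper58.N4.Frame

set_option autoImplicit false

/-!
# Orthonormal frames given by coordinates; the Laplacian; Gram-Schmidt; rotations
-/

namespace N4

variable {A : Type*} [CommRing A] [Algebra ℝ A]

/-- an orthonormal frame along a surface given in coordinates -/
structure CF (P1 P2 : Derivation ℝ A A) (f : Fin 4 → A) (a1 a2 b1 b2 : A)
    (X1 X2 N3 N4 : Fin 4 → A) : Prop where
  pc : ∀ u, P1 (P2 u) = P2 (P1 u)
  x1 : X1 = a1 • vd P1 f + a2 • vd P2 f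
  x2 : X2 = b1 • vd P1 f + b2 • vd P2 f
  on : ON X1 X2 N3 N4

section
variable {P1 P2 : Derivation ℝ A A} {f : Fin 4 → A} {a1 a2 b1 b2 : A}
  {X1 X2 N3 N4 : Fin 4 → A}

theorem comb_apply (a b : A) (u : A) : (a • P1 + b • P2) u = a * P1 u + b * P2 u := by
  simp

theorem CF.e11 (F : CF P1 P2 f a1 a2 b1 b2 X1 X2 N3 N4) :
    a1 ^ 2 * dt (vd P1 f) (vd P1 f) + 2 * a1 * a2 * dt (vd P1 f) (vd P2 f) +
      a2 ^ 2 * dt (vd P2 f) (vd P2 f) = 1 := by
  have h := F.on.h00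
  rw [F.x1, dt_add_left, dt_add_right, dt_add_right, dt_smul_left, dt_smul_left, dt_smul_left,
    dt_smul_left, dt_smul_right, dt_smul_right, dt_smul_right, dt_smul_right,
    dt_comm (vd P2 f) (vd P1 f)] at h
  linear_combination h

theorem CF.e22 (F : CF P1 P2 f a1 a2 b1 b2 X1 X2 N3 N4) :
    b1 ^ 2 * dt (vd P1 f) (vd P1 f) + 2 * b1 * b2 * dt (vd P1 f) (vd P2 f) +
      b2 ^ 2 * dt (vd P2 f) (vd P2 f) = 1 := by
  have h := F.on.h11
  rw [F.x2, dt_add_left, dt_add_right, dt_add_right, dt_smul_left, dt_smul_left, dt_smul_left,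
    dt_smul_left, dt_smul_right, dt_smul_right, dt_smul_right, dt_smul_right,
    dt_comm (vd P2 f) (vd P1 f)] at h
  linear_combination h

theorem CF.e12 (F : CF P1 P2 f a1 a2 b1 b2 X1 X2 N3 N4) :
    a1 * b1 * dt (vd P1 f) (vd P1 f) + (a1 * b2 + a2 * b1) * dt (vd P1 f) (vd P2 f) +
      a2 * b2 * dt (vd P2 f) (vd P2 f) = 0 := by
  have h := F.on.h01
  rw [F.x1, F.x2, dt_add_left, dt_add_right, dt_add_right, dt_smul_left, dt_smul_left,
    dt_smul_left, dt_smul_left, dt_smul_right, dt_smul_right, dt_smul_right, dt_smul_right,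
    dt_comm (vd P2 f) (vd P1 f)] at h
  linear_combination h

theorem CF.gram (F : CF P1 P2 f a1 a2 b1 b2 X1 X2 N3 N4) :
    (a1 * b2 - a2 * b1) ^ 2 * (dt (vd P1 f) (vd P1 f) * dt (vd P2 f) (vd P2 f) -
      dt (vd P1 f) (vd P2 f) ^ 2) = 1 := by
  have h1 := F.e11
  have h2 := F.e22
  have h3 := F.e12
  linear_combination (b1 ^ 2 * dt (vd P1 f) (vd P1 f) + 2 * b1 * b2 * dt (vd P1 f) (vd P2 f) +
      b2 ^ 2 * dt (vd P2 f) (vd P2 f)) * h1 + h2 -
    (a1 * b1 * dt (vd P1 f) (vd P1 f) + (a1 * b2 + a2 * b1) * dt (vd P1 f) (vd P2 f) +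
      a2 * b2 * dt (vd P2 f) (vd P2 f)) * h3

/-- the coordinate frame is a moving frame -/
theorem CF.fr (F : CF P1 P2 f a1 a2 b1 b2 X1 X2 N3 N4) :
    Fr (a1 • P1 + a2 • P2) (b1 • P1 + b2 • P2) f X1 X2 N3 N4
      (dt (vd (a1 • P1 + a2 • P2) X1) X2) (dt (vd (b1 • P1 + b2 • P2) X2) X1) := by
  set D1 := a1 • P1 + a2 • P2 with hD1
  set D2 := b1 • P1 + b2 • P2 with hD2
  have x1 : vd D1 f = X1 := by rw [hD1, vd_comb, F.x1]
  have x2 : vd D2 f = X2 := by rw [hD2, vd_comb, F.x2]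
  have hbr : ∀ u, D1 (D2 u) - D2 (D1 u) = (D1 b1 - D2 a1) * P1 u + (D1 b2 - D2 a2) * P2 u := by
    intro u
    have h1 : D2 u = b1 * P1 u + b2 * P2 u := comb_apply b1 b2 u
    have h2 : D1 u = a1 * P1 u + a2 * P2 u := comb_apply a1 a2 u
    rw [h1, h2, map_add, map_add, Derivation.leibniz, Derivation.leibniz, Derivation.leibniz,
      Derivation.leibniz]
    simp only [smul_eq_mul]
    have h3 : ∀ v, D2 v = b1 * P1 v + b2 * P2 v := fun v => comb_apply b1 b2 v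
    have h4 : ∀ v, D1 v = a1 * P1 v + a2 * P2 v := fun v => comb_apply a1 a2 v
    rw [h4 (P1 u), h4 (P2 u), h3 (P1 u), h3 (P2 u)]
    have h5 := F.pc u
    rw [h5]
    ring
  set δ := a1 * b2 - a2 * b1 with hδ
  set s := δ * (dt (vd P1 f) (vd P1 f) * dt (vd P2 f) (vd P2 f) -
      dt (vd P1 f) (vd P2 f) ^ 2) with hs
  have hsd : s * δ = 1 := by
    rw [hs]
    linear_combination F.gram
  set l := s * ((D1 b1 - D2 a1) * b2 - (D1 b2 - D2 a2) * b1) with hl
  set m := s * (-(D1 b1 - D2 a1) * a2 + (D1 b2 - D2 a2) * a1) with hm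
  have hbr2 : ∀ u, D1 (D2 u) - D2 (D1 u) = l * D1 u + m * D2 u := by
    intro u
    rw [hbr]
    have h3 : D2 u = b1 * P1 u + b2 * P2 u := comb_apply b1 b2 u
    have h4 : D1 u = a1 * P1 u + a2 * P2 u := comb_apply a1 a2 u
    rw [h3, h4, hl, hm]
    linear_combination (-((D1 b1 - D2 a1) * P1 u + (D1 b2 - D2 a2) * P2 u)) * hsd
  have hmix : vd D1 X2 - vd D2 X1 = l • X1 + m • X2 := by
    rw [← x1, ← x2]
    funext i
    exact hbr2 (f i)
  have hl1 : l = -dt (vd D1 X1) X2 := by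
    have h2 : dt (vd D1 X2 - vd D2 X1) X1 = dt (l • X1 + m • X2) X1 := by rw [hmix]
    rw [dt_sub_left, dt_add_left, dt_smul_left, dt_smul_left, F.on.h00, dt_comm X2,
      F.on.h01, dt_self D2 F.on.h00] at h2
    have h3 := dt_swap D1 (u := X1) (v := X2) (by rw [F.on.h01, map_zero])
    linear_combination (-h2) + h3
  have hm1 : m = dt (vd D2 X2) X1 := by
    have h2 : dt (vd D1 X2 - vd D2 X1) X2 = dt (l • X1 + m • X2) X2 := by rw [hmix]
    rw [dt_sub_left, dt_add_left, dt_smul_left, dt_smul_left, F.on.h11,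
      F.on.h01, dt_self D1 F.on.h11] at h2
    have h3 := dt_swap D2 (u := X1) (v := X2) (by rw [F.on.h01, map_zero])
    linear_combination (-h2) - h3
  refine ⟨F.on, x1, x2, ?_⟩
  intro u
  rw [hbr2, hl1, hm1]

/-- the coefficients of the bracket -/
theorem CF.bracket (F : CF P1 P2 f a1 a2 b1 b2 X1 X2 N3 N4) {p q : A}
    (hF : Fr (a1 • P1 + a2 • P2) (b1 • P1 + b2 • P2) f X1 X2 N3 N4 p q) :
    (a1 • P1 + a2 • P2) b1 - (b1 • P1 + b2 • P2) a1 = -p * a1 + q * b1 ∧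
    (a1 • P1 + a2 • P2) b2 - (b1 • P1 + b2 • P2) a2 = -p * a2 + q * b2 := by
  set D1 := a1 • P1 + a2 • P2 with hD1
  set D2 := b1 • P1 + b2 • P2 with hD2
  have hbr : ∀ u, D1 (D2 u) - D2 (D1 u) = (D1 b1 - D2 a1) * P1 u + (D1 b2 - D2 a2) * P2 u := by
    intro u
    have h1 : D2 u = b1 * P1 u + b2 * P2 u := comb_apply b1 b2 u
    have h2 : D1 u = a1 * P1 u + a2 * P2 u := comb_apply a1 a2 u
    rw [h1, h2, map_add, map_add, Derivation.leibniz, Derivation.leibniz, Derivation.leibniz,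
      Derivation.leibniz]
    simp only [smul_eq_mul]
    have h3 : ∀ v, D2 v = b1 * P1 v + b2 * P2 v := fun v => comb_apply b1 b2 v
    have h4 : ∀ v, D1 v = a1 * P1 v + a2 * P2 v := fun v => comb_apply a1 a2 v
    rw [h4 (P1 u), h4 (P2 u), h3 (P1 u), h3 (P2 u)]
    have h5 := F.pc u
    rw [h5]
    ring
  set δ := a1 * b2 - a2 * b1 with hδ
  set Δ := dt (vd P1 f) (vd P1 f) * dt (vd P2 f) (vd P2 f) - dt (vd P1 f) (vd P2 f) ^ 2 with hΔ
  have hg : δ ^ 2 * Δ = 1 := F.gram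
  -- the difference vector is a null combination of the coordinate vectors
  set c1 := D1 b1 - D2 a1 - (-p * a1 + q * b1) with hc1
  set c2 := D1 b2 - D2 a2 - (-p * a2 + q * b2) with hc2
  have hz : c1 • vd P1 f + c2 • vd P2 f = 0 := by
    funext i
    have h1 := hbr (f i)
    have h2 := hF.comm (f i)
    have h3 : D2 (f i) = b1 * P1 (f i) + b2 * P2 (f i) := comb_apply b1 b2 (f i)
    have h4 : D1 (f i) = a1 * P1 (f i) + a2 * P2 (f i) := comb_apply a1 a2 (f i)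
    rw [h1, h3, h4] at h2
    show c1 * P1 (f i) + c2 * P2 (f i) = 0
    rw [hc1, hc2]
    linear_combination h2
  have d1 : dt (c1 • vd P1 f + c2 • vd P2 f) (vd P1 f) = 0 := by
    rw [hz]
    simp [dt]
  have d2 : dt (c1 • vd P1 f + c2 • vd P2 f) (vd P2 f) = 0 := by
    rw [hz]
    simp [dt]
  rw [dt_add_left, dt_smul_left, dt_smul_left] at d1 d2
  rw [dt_comm (vd P2 f) (vd P1 f)] at d1
  have e1 : c1 * Δ = 0 := by
    rw [hΔ]
    linear_combination dt (vd P2 f) (vd P2 f) * d1 - dt (vd P1 f) (vd P2 f) * d2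
  have e2 : c2 * Δ = 0 := by
    rw [hΔ]
    linear_combination dt (vd P1 f) (vd P1 f) * d2 - dt (vd P1 f) (vd P2 f) * d1
  constructor
  · have : c1 = 0 := by linear_combination δ ^ 2 * e1 - c1 * hg
    rw [hc1] at this
    linear_combination this
  · have : c2 = 0 := by linear_combination δ ^ 2 * e2 - c2 * hg
    rw [hc2] at this
    linear_combination this

/-- the Laplacian in coordinates and in the frame -/
theorem CF.lap (F : CF P1 P2 f a1 a2 b1 b2 X1 X2 N3 N4) {p q : A}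
    (hF : Fr (a1 • P1 + a2 • P2) (b1 • P1 + b2 • P2) f X1 X2 N3 N4 p q) (u : A) :
    (a1 * b2 - a2 * b1) *
      (P1 ((a1 * b2 - a2 * b1) * (dt (vd P2 f) (vd P2 f) * P1 u -
          dt (vd P1 f) (vd P2 f) * P2 u)) +
       P2 ((a1 * b2 - a2 * b1) * (dt (vd P1 f) (vd P1 f) * P2 u -
          dt (vd P1 f) (vd P2 f) * P1 u))) =
      (a1 • P1 + a2 • P2) ((a1 • P1 + a2 • P2) u) + (b1 • P1 + b2 • P2) ((b1 • P1 + b2 • P2) u) -
      p * (b1 • P1 + b2 • P2) u - q * (a1 • P1 + a2 • P2) u := by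
  obtain ⟨k1, k2⟩ := F.bracket hF
  have g1 := F.e11
  have g2 := F.e22
  have g3 := F.e12
  have hg := F.gram
  simp only [comb_apply] at k1 k2 ⊢
  set g11 := dt (vd P1 f) (vd P1 f) with hg11
  set g12 := dt (vd P1 f) (vd P2 f) with hg12
  set g22 := dt (vd P2 f) (vd P2 f) with hg22
  set δ := a1 * b2 - a2 * b1 with hδ
  set s := δ * (g11 * g22 - g12 ^ 2) with hs
  have hsd : s * δ = 1 := by
    rw [hs]
    linear_combination hg
  -- inverse metric
  have i22 : δ * g22 = s * (a1 ^ 2 + b1 ^ 2) := by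
    have h : g22 * δ ^ 2 = a1 ^ 2 + b1 ^ 2 := by
      rw [hδ]
      linear_combination b1 ^ 2 * g1 - 2 * a1 * b1 * g3 + a1 ^ 2 * g2
    linear_combination s * h - (δ * g22) * hsd
  have i12 : δ * g12 = -(s * (a1 * a2 + b1 * b2)) := by
    have h : g12 * δ ^ 2 = -(a1 * a2 + b1 * b2) := by
      rw [hδ]
      linear_combination (-(b1 * b2)) * g1 + (a1 * b2 + a2 * b1) * g3 - a1 * a2 * g2
    linear_combination s * h - (δ * g12) * hsd
  have i11 : δ * g11 = s * (a2 ^ 2 + b2 ^ 2) := by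
    have h : g11 * δ ^ 2 = a2 ^ 2 + b2 ^ 2 := by
      rw [hδ]
      linear_combination b2 ^ 2 * g1 - 2 * a2 * b2 * g3 + a2 ^ 2 * g2
    linear_combination s * h - (δ * g11) * hsd
  have j1 : δ * (g22 * P1 u - g12 * P2 u) =
      s * (a1 * (a1 * P1 u + a2 * P2 u) + b1 * (b1 * P1 u + b2 * P2 u)) := by
    linear_combination P1 u * i22 - P2 u * i12
  have j2 : δ * (g11 * P2 u - g12 * P1 u) =
      s * (a2 * (a1 * P1 u + a2 * P2 u) + b2 * (b1 * P1 u + b2 * P2 u)) := by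
    linear_combination P2 u * i11 - P1 u * i12
  rw [j1, j2]
  set U1 := a1 * P1 u + a2 * P2 u with hU1
  set U2 := b1 * P1 u + b2 * P2 u with hU2
  -- derivatives of s
  have ds : ∀ P : Derivation ℝ A A, δ * P s = -(s * P δ) := by
    intro P
    have h := congrArg P hsd
    rw [Derivation.leibniz, Derivation.map_one_eq_zero] at h
    simp only [smul_eq_mul] at h
    linear_combination h
  have dd : ∀ P : Derivation ℝ A A, P δ = P a1 * b2 + a1 * P b2 - P a2 * b1 - a2 * P b1 := by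
    intro P
    rw [hδ, map_sub, Derivation.leibniz, Derivation.leibniz]
    simp only [smul_eq_mul]
    ring
  have L1 : P1 (s * (a1 * U1 + b1 * U2)) = s * (P1 a1 * U1 + a1 * P1 U1 + P1 b1 * U2 +
      b1 * P1 U2) + (a1 * U1 + b1 * U2) * P1 s := by
    simp only [Derivation.leibniz, map_add, smul_eq_mul]
    ring
  have L2 : P2 (s * (a2 * U1 + b2 * U2)) = s * (P2 a2 * U1 + a2 * P2 U1 + P2 b2 * U2 +
      b2 * P2 U2) + (a2 * U1 + b2 * U2) * P2 s := by
    simp only [Derivation.leibniz, map_add, smul_eq_mul]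
    ring
  rw [L1, L2]
  have d1 := ds P1
  have d2 := ds P2
  have f1 := dd P1
  have f2 := dd P2
  -- divergence of the two fields
  have v1 : P1 a1 + P2 a2 - s * (a1 * P1 δ + a2 * P2 δ) = -q := by
    have h : a1 * P1 δ + a2 * P2 δ = δ * (P1 a1 + P2 a2 + q) := by
      rw [f1, f2, hδ]
      linear_combination a1 * k2 - a2 * k1
    rw [h]
    linear_combination (-(P1 a1 + P2 a2 + q)) * hsd
  have v2 : P1 b1 + P2 b2 - s * (b1 * P1 δ + b2 * P2 δ) = -p := by
    have h : b1 * P1 δ + b2 * P2 δ = δ * (P1 b1 + P2 b2 + p) := by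
      rw [f1, f2, hδ]
      linear_combination b1 * k2 - b2 * k1
    rw [h]
    linear_combination (-(P1 b1 + P2 b2 + p)) * hsd
  linear_combination (P1 a1 * U1 + a1 * P1 U1 + P1 b1 * U2 + b1 * P1 U2 + P2 a2 * U1 +
    a2 * P2 U1 + P2 b2 * U2 + b2 * P2 U2) * hsd + (a1 * U1 + b1 * U2) * d1 +
    (a2 * U1 + b2 * U2) * d2 + U1 * v1 + U2 * v2

end

end N4
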