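import Pool.Agent.Helper58.N4.Rot

set_option autoImplicit false

/-!
# Geometric data on an open set of the plane
-/

namespace N4

section map

variable {A B : Type*} [CommRing A] [CommRing B] [Algebra ℝ A] [Algebra ℝ B]

/-- image of a vector under an algebra map -/
def vm (φ : A →ₐ[ℝ] B) (u : Fin 4 → A) : Fin 4 → B := fun i => φ (u i)

theorem dt_map (φ : A →ₐ[ℝ] B) (u v : Fin 4 → A) : φ (dt u v) = dt (vm φ u) (vm φ v) := by
  simp only [dt, vm, map_add, map_mul]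

theorem vd_map (φ : A →ₐ[ℝ] B) {P : Derivation ℝ A A} {Q : Derivation ℝ B B}
    (h : ∀ u, φ (P u) = Q (φ u)) (u : Fin 4 → A) : vm φ (vd P u) = vd Q (vm φ u) := by
  funext i
  exact h (u i)

theorem vm_add (φ : A →ₐ[ℝ] B) (u v : Fin 4 → A) : vm φ (u + v) = vm φ u + vm φ v := by
  funext i
  simp [vm]

theorem vm_smul (φ : A →ₐ[ℝ] B) (a : A) (u : Fin 4 → A) : vm φ (a • u) = φ a • vm φ u := by
  funext i
  simp [vm]

theorem comb_map (φ : A →ₐ[ℝ] B) {P1 P2 : Derivation ℝ A A} {Q1 Q2 : Derivation ℝ B B}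
    (h1 : ∀ u, φ (P1 u) = Q1 (φ u)) (h2 : ∀ u, φ (P2 u) = Q2 (φ u)) (a b u : A) :
    φ ((a • P1 + b • P2) u) = (φ a • Q1 + φ b • Q2) (φ u) := by
  rw [comb_apply, comb_apply, map_add, map_mul, map_mul, h1, h2]

theorem ON.map (φ : A →ₐ[ℝ] B) {E0 E1 E2 E3 : Fin 4 → A} (h : ON E0 E1 E2 E3) :
    ON (vm φ E0) (vm φ E1) (vm φ E2) (vm φ E3) := by
  refine ⟨?_, ?_, ?_, ?_, ?_, ?_, ?_, ?_, ?_, ?_⟩
  · rw [← dt_map, h.h00, map_one]
  · rw [← dt_map, h.h11, map_one]
  · rw [← dt_map, h.h22, map_one]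
  · rw [← dt_map, h.h33, map_one]
  · rw [← dt_map, h.h01, map_zero]
  · rw [← dt_map, h.h02, map_zero]
  · rw [← dt_map, h.h03, map_zero]
  · rw [← dt_map, h.h12, map_zero]
  · rw [← dt_map, h.h13, map_zero]
  · rw [← dt_map, h.h23, map_zero]

theorem CF.map (φ : A →ₐ[ℝ] B) {P1 P2 : Derivation ℝ A A} {Q1 Q2 : Derivation ℝ B B}
    (h1 : ∀ u, φ (P1 u) = Q1 (φ u)) (h2 : ∀ u, φ (P2 u) = Q2 (φ u))
    (qc : ∀ u, Q1 (Q2 u) = Q2 (Q1 u)) {f : Fin 4 → A} {a1 a2 b1 b2 : A}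
    {X1 X2 N3 N4 : Fin 4 → A} (F : CF P1 P2 f a1 a2 b1 b2 X1 X2 N3 N4) :
    CF Q1 Q2 (vm φ f) (φ a1) (φ a2) (φ b1) (φ b2) (vm φ X1) (vm φ X2) (vm φ N3) (vm φ N4) := by
  refine ⟨qc, ?_, ?_, F.on.map φ⟩
  · rw [F.x1, vm_add, vm_smul, vm_smul, vd_map φ h1, vd_map φ h2]
  · rw [F.x2, vm_add, vm_smul, vm_smul, vd_map φ h1, vd_map φ h2]

theorem SE.map (φ : A →ₐ[ℝ] B) {D1 D2 : Derivation ℝ A A} {E1 E2 : Derivation ℝ B B}
    (h1 : ∀ u, φ (D1 u) = E1 (φ u)) (h2 : ∀ u, φ (D2 u) = E2 (φ u))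
    {p q h w1 w2 a11 a12 a22 b11 b12 b22 : A} {c : ℝ}
    (S : SE D1 D2 p q h w1 w2 a11 a12 a22 b11 b12 b22 c)
    (ec : ∀ u, E1 (E2 u) - E2 (E1 u) = -φ p * E1 u + φ q * E2 u) :
    SE E1 E2 (φ p) (φ q) (φ h) (φ w1) (φ w2) (φ a11) (φ a12) (φ a22) (φ b11) (φ b12) (φ b22)
      c := by
  have two : φ 2 = 2 := map_ofNat φ 2
  refine ⟨ec, ?_, ?_, ?_, ?_, ?_, ?_, ?_, ?_, ?_, ?_, ?_, ?_⟩
  · have := congrArg φ S.tr3
    simpa only [map_add, map_mul, two] using this
  · have := congrArg φ S.tr4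
    simpa only [map_add, map_zero] using this
  · have := congrArg φ S.gauss
    simpa only [map_add, map_sub, map_mul, map_pow, h1, h2] using this
  · have := congrArg φ S.cod31
    simpa only [map_add, map_sub, map_mul, map_pow, h1, h2, two] using this
  · have := congrArg φ S.cod32
    simpa only [map_add, map_sub, map_mul, map_pow, h1, h2, two] using this
  · have := congrArg φ S.cod41
    simpa only [map_add, map_sub, map_mul, map_pow, h1, h2, two] using this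
  · have := congrArg φ S.cod42
    simpa only [map_add, map_sub, map_mul, map_pow, h1, h2, two] using this
  · have := congrArg φ S.ricci
    simpa only [map_add, map_sub, map_mul, map_neg, map_pow, h1, h2] using this
  · have := congrArg φ S.tan1
    simpa only [map_add, map_sub, map_mul, map_zero, map_pow, h1, h2] using this
  · have := congrArg φ S.tan2
    simpa only [map_add, map_sub, map_mul, map_zero, map_pow, h1, h2] using this
  · have := congrArg φ S.lap3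
    simpa only [map_add, map_sub, map_mul, map_zero, map_pow, h1, h2, two,
      AlgHom.commutes] using this
  · have := congrArg φ S.lap4
    simpa only [map_add, map_sub, map_mul, map_zero, map_pow, h1, h2, two] using this

/-- the commutator rule follows from the bracket of the coefficients -/
theorem comm_of_bracket {P1 P2 : Derivation ℝ A A} (pc : ∀ u, P1 (P2 u) = P2 (P1 u))
    {a1 a2 b1 b2 p q : A}
    (k1 : (a1 • P1 + a2 • P2) b1 - (b1 • P1 + b2 • P2) a1 = -p * a1 + q * b1)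
    (k2 : (a1 • P1 + a2 • P2) b2 - (b1 • P1 + b2 • P2) a2 = -p * a2 + q * b2) (u : A) :
    (a1 • P1 + a2 • P2) ((b1 • P1 + b2 • P2) u) - (b1 • P1 + b2 • P2) ((a1 • P1 + a2 • P2) u) =
      -p * (a1 • P1 + a2 • P2) u + q * (b1 • P1 + b2 • P2) u := by
  simp only [comb_apply, Derivation.leibniz, map_add, smul_eq_mul] at k1 k2 ⊢
  have h5 := pc u
  linear_combination P1 u * k1 + P2 u * k2 + (a1 * b2 - a2 * b1) * h5

/-- the coordinate Laplacian -/
def lapc (P1 P2 : Derivation ℝ A A) (f : Fin 4 → A) (si u : A) : A :=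
  si * (P1 (si * (dt (vd P2 f) (vd P2 f) * P1 u - dt (vd P1 f) (vd P2 f) * P2 u)) +
    P2 (si * (dt (vd P1 f) (vd P1 f) * P2 u - dt (vd P1 f) (vd P2 f) * P1 u)))

theorem lapc_map (φ : A →ₐ[ℝ] B) {P1 P2 : Derivation ℝ A A} {Q1 Q2 : Derivation ℝ B B}
    (h1 : ∀ u, φ (P1 u) = Q1 (φ u)) (h2 : ∀ u, φ (P2 u) = Q2 (φ u)) (f : Fin 4 → A)
    (si u : A) : φ (lapc P1 P2 f si u) = lapc Q1 Q2 (vm φ f) (φ si) (φ u) := by
  unfold lapc
  simp only [map_mul, map_add, map_sub, h1, h2, dt_map, vd_map φ h1, vd_map φ h2]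

theorem two_mul_cancel' {u : A} (h : 2 * u = 0) : u = 0 := by
  apply two_cancel
  linear_combination h

theorem lapc_normal_one {P1 P2 : Derivation ℝ A A} (pc : ∀ u, P1 (P2 u) = P2 (P1 u))
    (f : Fin 4 → A) (s si : A)
    (hs : s * s = dt (vd P1 f) (vd P1 f) * dt (vd P2 f) (vd P2 f) - dt (vd P1 f) (vd P2 f) ^ 2)
    (hsi : s * si = 1) :
    dt (fun i => lapc P1 P2 f si (f i)) (vd P1 f) = 0 := by
  have hc := vd_comm_coord pc f
  set F1 := vd P1 f with hF1
  set F2 := vd P2 f with hF2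
  set g11 := dt F1 F1 with hg11
  set g12 := dt F1 F2 with hg12
  set g22 := dt F2 F2 with hg22
  have hv : (fun i => lapc P1 P2 f si (f i)) =
      si • (vd P1 ((si * g22) • F1 + (-(si * g12)) • F2) +
        vd P2 ((si * g11) • F2 + (-(si * g12)) • F1)) := by
    funext i
    simp only [lapc, vd, Pi.add_apply, Pi.smul_apply, smul_eq_mul, hg11, hg12, hg22, hF1, hF2]
    congr 1
    congr 1
    · congr 1
      ring
    · congr 1
      ring
  rw [hv, dt_smul_left, dt_add_left]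
  -- integrate by parts
  have i1 : dt (vd P1 ((si * g22) • F1 + (-(si * g12)) • F2)) F1 =
      P1 (dt ((si * g22) • F1 + (-(si * g12)) • F2) F1) -
      dt ((si * g22) • F1 + (-(si * g12)) • F2) (vd P1 F1) := by
    rw [D_dt]
    ring
  have i2 : dt (vd P2 ((si * g11) • F2 + (-(si * g12)) • F1)) F1 =
      P2 (dt ((si * g11) • F2 + (-(si * g12)) • F1) F1) -
      dt ((si * g11) • F2 + (-(si * g12)) • F1) (vd P2 F1) := by
    rw [D_dt]
    ring
  have j1 : dt ((si * g22) • F1 + (-(si * g12)) • F2) F1 = s := by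
    rw [dt_add_left, dt_smul_left, dt_smul_left, dt_comm F2 F1, ← hg11, ← hg12]
    linear_combination (-si) * hs + s * hsi
  have j2 : dt ((si * g11) • F2 + (-(si * g12)) • F1) F1 = 0 := by
    rw [dt_add_left, dt_smul_left, dt_smul_left, dt_comm F2 F1, ← hg11, ← hg12]
    ring
  rw [i1, i2, j1, j2, map_zero, dt_add_left, dt_add_left, dt_smul_left, dt_smul_left,
    dt_smul_left, dt_smul_left, hc]
  -- derivatives of the metric
  have k11 : P1 g11 = 2 * dt F1 (vd P1 F1) := by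
    rw [hg11, D_dt, dt_comm (vd P1 F1) F1]
    ring
  have k22 : P1 g22 = 2 * dt F2 (vd P1 F2) := by
    rw [hg22, D_dt, dt_comm (vd P1 F2) F2]
    ring
  have k12 : P1 g12 = dt F2 (vd P1 F1) + dt F1 (vd P1 F2) := by
    rw [hg12, D_dt, dt_comm (vd P1 F1) F2]
  have ks : 2 * (s * P1 s) = g11 * P1 g22 + g22 * P1 g11 - 2 * g12 * P1 g12 := by
    have h := congrArg P1 hs
    rw [Derivation.leibniz, map_sub, Derivation.leibniz, pow_two, Derivation.leibniz] at h
    simp only [smul_eq_mul] at h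
    linear_combination h
  apply two_mul_cancel'
  linear_combination (-(2 * si * P1 s)) * hsi + si ^ 2 * ks + si ^ 2 * g22 * k11 +
    si ^ 2 * g11 * k22 - 2 * si ^ 2 * g12 * k12

theorem lapc_swap (P1 P2 : Derivation ℝ A A) (f : Fin 4 → A) (si u : A) :
    lapc P1 P2 f si u = lapc P2 P1 f si u := by
  unfold lapc
  rw [dt_comm (vd P2 f) (vd P1 f)]
  ring

theorem lapc_normal_two {P1 P2 : Derivation ℝ A A} (pc : ∀ u, P1 (P2 u) = P2 (P1 u))
    (f : Fin 4 → A) (s si : A)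
    (hs : s * s = dt (vd P1 f) (vd P1 f) * dt (vd P2 f) (vd P2 f) - dt (vd P1 f) (vd P2 f) ^ 2)
    (hsi : s * si = 1) :
    dt (fun i => lapc P1 P2 f si (f i)) (vd P2 f) = 0 := by
  have h := lapc_normal_one (P1 := P2) (P2 := P1) (fun u => (pc u).symm) f s si
    (by rw [hs, dt_comm (vd P2 f) (vd P1 f)]; ring) hsi
  have e : (fun i => lapc P1 P2 f si (f i)) = (fun i => lapc P2 P1 f si (f i)) := by
    funext i
    exact lapc_swap P1 P2 f si (f i)
  rw [e]
  exact h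

/-- the structure equations for a coordinate frame -/
theorem CF.se {P1 P2 : Derivation ℝ A A} {f : Fin 4 → A} {a1 a2 b1 b2 : A}
    {X1 X2 N3 N4 : Fin 4 → A} (F : CF P1 P2 f a1 a2 b1 b2 X1 X2 N3 N4) (h : A) (c : ℝ)
    (hl1 : ∀ i, lapc P1 P2 f (a1 * b2 - a2 * b1) (f i) = 2 * h * N3 i)
    (hl2 : ∀ i, lapc P1 P2 f (a1 * b2 - a2 * b1) (h * N3 i) =
      algebraMap ℝ A c * (h * N3 i)) :
    SE (a1 • P1 + a2 • P2) (b1 • P1 + b2 • P2) (dt (vd (a1 • P1 + a2 • P2) X1) X2)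
      (dt (vd (b1 • P1 + b2 • P2) X2) X1) h
      (dt (vd (a1 • P1 + a2 • P2) N3) N4) (dt (vd (b1 • P1 + b2 • P2) N3) N4)
      (dt (vd (a1 • P1 + a2 • P2) X1) N3) (dt (vd (a1 • P1 + a2 • P2) X2) N3)
      (dt (vd (b1 • P1 + b2 • P2) X2) N3)
      (dt (vd (a1 • P1 + a2 • P2) X1) N4) (dt (vd (a1 • P1 + a2 • P2) X2) N4)
      (dt (vd (b1 • P1 + b2 • P2) X2) N4) c := by
  have G := F.fr
  have L := F.lap G
  set D1 := a1 • P1 + a2 • P2 with hD1
  set D2 := b1 • P1 + b2 • P2 with hD2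
  set p := dt (vd D1 X1) X2 with hp
  set q := dt (vd D2 X2) X1 with hq
  have hH : vd D1 X1 + vd D2 X2 - p • X2 - q • X1 = (2 * h) • N3 := by
    funext i
    have e := L (f i)
    have e2 : lapc P1 P2 f (a1 * b2 - a2 * b1) (f i) = D1 (D1 (f i)) + D2 (D2 (f i)) -
      p * D2 (f i) - q * D1 (f i) := e
    rw [hl1] at e2
    have x1 : D1 (f i) = X1 i := congrFun G.x1 i
    have x2 : D2 (f i) = X2 i := congrFun G.x2 i
    rw [x1, x2] at e2
    show D1 (X1 i) + D2 (X2 i) - p * X2 i - q * X1 i = 2 * h * N3 i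
    exact e2.symm
  refine G.structure_equations c rfl rfl rfl rfl rfl rfl rfl rfl ?_ ?_ ?_
  · have h2 : dt (vd D1 X1 + vd D2 X2 - p • X2 - q • X1) N3 = dt ((2 * h) • N3) N3 := by
      rw [hH]
    rw [dt_sub_left, dt_sub_left, dt_add_left, dt_smul_left, dt_smul_left, dt_smul_left,
      F.on.h22, F.on.h02, F.on.h12] at h2
    linear_combination h2
  · have h2 : dt (vd D1 X1 + vd D2 X2 - p • X2 - q • X1) N4 = dt ((2 * h) • N3) N4 := by
      rw [hH]
    rw [dt_sub_left, dt_sub_left, dt_add_left, dt_smul_left, dt_smul_left, dt_smul_left,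
      F.on.h23, F.on.h03, F.on.h13] at h2
    linear_combination h2
  · funext i
    have e := L (h * N3 i)
    have e2 : lapc P1 P2 f (a1 * b2 - a2 * b1) (h * N3 i) = D1 (D1 (h * N3 i)) +
      D2 (D2 (h * N3 i)) - p * D2 (h * N3 i) - q * D1 (h * N3 i) := e
    rw [hl2] at e2
    show D1 (D1 (h * N3 i)) + D2 (D2 (h * N3 i)) - p * D2 (h * N3 i) - q * D1 (h * N3 i) =
      algebraMap ℝ A c * h * N3 i
    rw [← e2]
    ring

end map

end N4
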