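import Pool.Agent.Helper58.N4.Geo

set_option autoImplicit false

/-!
# The two classes: commuting shape operators, and `-|H|` an eigenvalue of the shape operator
-/

namespace N4

open scoped ContDiff Topology

section swap
variable {A : Type*} [CommRing A] [Algebra ℝ A]

/-- exchange of the two tangent vectors -/
theorem SE.exchange {D1 D2 : Derivation ℝ A A} {p q h w1 w2 a11 a12 a22 b11 b12 b22 : A} {c : ℝ}
    (S : SE D1 D2 p q h w1 w2 a11 a12 a22 b11 b12 b22 c) :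
    SE D2 D1 q p h w2 w1 a22 a12 a11 b22 b12 b11 c := by
  refine ⟨?_, ?_, ?_, ?_, ?_, ?_, ?_, ?_, ?_, ?_, ?_, ?_, ?_⟩
  · intro u
    linear_combination -(S.comm u)
  · linear_combination S.tr3
  · linear_combination S.tr4
  · linear_combination S.gauss
  · linear_combination -S.cod32
  · linear_combination -S.cod31
  · linear_combination -S.cod42
  · linear_combination -S.cod41
  · linear_combination -S.ricci
  · linear_combination S.tan2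
  · linear_combination S.tan1
  · linear_combination S.lap3
  · linear_combination S.lap4

omit [Algebra ℝ A] in
/-- the determinant of the shifted shape operator in a rotated frame -/
theorem det_rot {C S x y z h : A} (hCS : C ^ 2 + S ^ 2 = 1)
    (hd : (x + h) * (z + h) - y ^ 2 = 0) :
    (r11 C S x y z + h) * (r22 C S x y z + h) - r12 C S x y z ^ 2 = 0 := by
  unfold r11 r12 r22
  linear_combination (C ^ 2 + S ^ 2) ^ 2 * hd +
    (-(C ^ 2 + S ^ 2) * h ^ 2 - h ^ 2 - h * (x + z) * (C ^ 2 + S ^ 2)) * hCS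

theorem sf_map {A B : Type*} [CommRing A] [CommRing B] [Algebra ℝ A] [Algebra ℝ B]
    (φ : A →ₐ[ℝ] B) {P1 P2 : Derivation ℝ A A} {Q1 Q2 : Derivation ℝ B B}
    (h1 : ∀ u, φ (P1 u) = Q1 (φ u)) (h2 : ∀ u, φ (P2 u) = Q2 (φ u)) (a b : A)
    (X N : Fin 4 → A) : φ (sf P1 P2 a b X N) = sf Q1 Q2 (φ a) (φ b) (vm φ X) (vm φ N) := by
  rw [sf, sf, dt_map, vd_map φ (comb_map φ h1 h2 a b)]

/-- restriction of a frame with its Laplace equations, abstract form -/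
theorem restrict_abs {A B : Type*} [CommRing A] [CommRing B] [Algebra ℝ A] [Algebra ℝ B]
    (φ : A →ₐ[ℝ] B) {P1 P2 : Derivation ℝ A A} {Q1 Q2 : Derivation ℝ B B}
    (h1 : ∀ u, φ (P1 u) = Q1 (φ u)) (h2 : ∀ u, φ (P2 u) = Q2 (φ u))
    (qc : ∀ u, Q1 (Q2 u) = Q2 (Q1 u)) {f X1 X2 N3 N4 : Fin 4 → A} {a1 a2 b1 b2 h : A} {c : ℝ}
    (F : CF P1 P2 f a1 a2 b1 b2 X1 X2 N3 N4)
    (hl1 : ∀ i, lapc P1 P2 f (a1 * b2 - a2 * b1) (f i) = 2 * h * N3 i)
    (hl2 : ∀ i, lapc P1 P2 f (a1 * b2 - a2 * b1) (h * N3 i) =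
      algebraMap ℝ A c * (h * N3 i))
    (hE : φ ((sf P1 P2 a1 a2 X1 N3 + h) * (sf P1 P2 b1 b2 X2 N3 + h) -
      sf P1 P2 a1 a2 X2 N3 ^ 2) = 0) :
    CF Q1 Q2 (vm φ f) (φ a1) (φ a2) (φ b1) (φ b2) (vm φ X1) (vm φ X2) (vm φ N3) (vm φ N4) ∧
    (∀ i, lapc Q1 Q2 (vm φ f) (φ a1 * φ b2 - φ a2 * φ b1) (vm φ f i) = 2 * φ h * vm φ N3 i) ∧
    (∀ i, lapc Q1 Q2 (vm φ f) (φ a1 * φ b2 - φ a2 * φ b1) (φ h * vm φ N3 i) =
      algebraMap ℝ B c * (φ h * vm φ N3 i)) ∧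
    (sf Q1 Q2 (φ a1) (φ a2) (vm φ X1) (vm φ N3) + φ h) *
      (sf Q1 Q2 (φ b1) (φ b2) (vm φ X2) (vm φ N3) + φ h) -
      sf Q1 Q2 (φ a1) (φ a2) (vm φ X2) (vm φ N3) ^ 2 = 0 := by
  have hd2 : φ (a1 * b2 - a2 * b1) = φ a1 * φ b2 - φ a2 * φ b1 := by
    rw [map_sub, map_mul, map_mul]
  refine ⟨F.map φ h1 h2 qc, ?_, ?_, ?_⟩
  · intro i
    have e := congrArg φ (hl1 i)
    rw [lapc_map φ h1 h2, hd2, map_mul, map_mul, map_ofNat] at e
    exact e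
  · intro i
    have e := congrArg φ (hl2 i)
    rw [lapc_map φ h1 h2, hd2, map_mul, map_mul, map_mul, AlgHom.commutes] at e
    exact e
  · rw [map_sub, map_mul, map_add, map_add, map_pow, sf_map φ h1 h2, sf_map φ h1 h2,
      sf_map φ h1 h2] at hE
    exact hE

end swap

section
variable {V W : TopologicalSpace.Opens (ℝ × ℝ)} {c : ℝ}

theorem GD.exchange {a1 a2 b1 b2 p q h w1 w2 a11 a12 a22 b11 b12 b22 : SF V}
    (G : GD V c a1 a2 b1 b2 p q h w1 w2 a11 a12 a22 b11 b12 b22) :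
    GD V c b1 b2 a1 a2 q p h w2 w1 a22 a12 a11 b22 b12 b11 := by
  refine ⟨?_, ?_, ?_, G.se.exchange, G.hpos, G.hne⟩
  · have h := G.du.neg
    have e : b1 * a2 - b2 * a1 = -(a1 * b2 - a2 * b1) := by ring
    rw [e]
    exact h
  · linear_combination -G.br1
  · linear_combination -G.br2

/-- the adapted frame of the second class -/
theorem adapted_data (hV : (V : Set (ℝ × ℝ)).Nonempty) {f X1 X2 N3 N4 : Fin 4 → SF V}
    {a1 a2 b1 b2 h : SF V}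
    (F : CF (Pu V) (Pv V) f a1 a2 b1 b2 X1 X2 N3 N4)
    (hl1 : ∀ i, lapc (Pu V) (Pv V) f (a1 * b2 - a2 * b1) (f i) = 2 * h * N3 i)
    (hl2 : ∀ i, lapc (Pu V) (Pv V) f (a1 * b2 - a2 * b1) (h * N3 i) =
      algebraMap ℝ (SF V) c * (h * N3 i))
    (hpos : ∀ x : V, 0 < h.1 x)
    (hne : ∀ x : V, ¬ ((Pu V h).1 x = 0 ∧ (Pv V h).1 x = 0))
    (hD : (sf (Pu V) (Pv V) a1 a2 X1 N3 + h) * (sf (Pu V) (Pv V) b1 b2 X2 N3 + h) -
      sf (Pu V) (Pv V) a1 a2 X2 N3 ^ 2 = 0) :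
    ∃ W : TopologicalSpace.Opens (ℝ × ℝ), (W : Set (ℝ × ℝ)).Nonempty ∧
      ∃ (a1' a2' b1' b2' p q h' w1 w2 b11 b12 : SF W),
      GD W c a1' a2' b1' b2' p q h' w1 w2 (-h') 0 (3 * h') b11 b12 (-b11) := by
  obtain ⟨W, hW, hWn, C, S, hCS, e3, -⟩ := principal hV
    (sf (Pu V) (Pv V) a1 a2 X1 N3 - sf (Pu V) (Pv V) b1 b2 X2 N3)
    (sf (Pu V) (Pv V) a1 a2 X2 N3) 0 0 (by ring)
  rw [map_sub] at e3
  obtain ⟨f', X1', X2', N3', N4', a1', a2', b1', b2', p, q, w1, w2, G⟩ :=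
    rotated_data F hl1 hl2 hpos hne hW C S hCS
  have G1 := G.gd
  have hD2 := congrArg (res hW) hD
  rw [map_sub, map_mul, map_add, map_add, map_pow, map_zero] at hD2
  have hD3 := det_rot hCS hD2
  have e4 : r12 C S (res hW (sf (Pu V) (Pv V) a1 a2 X1 N3))
      (res hW (sf (Pu V) (Pv V) a1 a2 X2 N3))
      (res hW (sf (Pu V) (Pv V) b1 b2 X2 N3)) = 0 := e3
  rw [e4] at G1 hD3
  generalize r11 C S (res hW (sf (Pu V) (Pv V) a1 a2 X1 N3))
      (res hW (sf (Pu V) (Pv V) a1 a2 X2 N3))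
      (res hW (sf (Pu V) (Pv V) b1 b2 X2 N3)) = A11 at G1 hD3
  generalize r22 C S (res hW (sf (Pu V) (Pv V) a1 a2 X1 N3))
      (res hW (sf (Pu V) (Pv V) a1 a2 X2 N3))
      (res hW (sf (Pu V) (Pv V) b1 b2 X2 N3)) = A22 at G1 hD3
  generalize r11 C S (res hW (sf (Pu V) (Pv V) a1 a2 X1 N4))
      (res hW (sf (Pu V) (Pv V) a1 a2 X2 N4))
      (res hW (sf (Pu V) (Pv V) b1 b2 X2 N4)) = B11 at G1
  generalize r12 C S (res hW (sf (Pu V) (Pv V) a1 a2 X1 N4))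
      (res hW (sf (Pu V) (Pv V) a1 a2 X2 N4))
      (res hW (sf (Pu V) (Pv V) b1 b2 X2 N4)) = B12 at G1
  generalize r22 C S (res hW (sf (Pu V) (Pv V) a1 a2 X1 N4))
      (res hW (sf (Pu V) (Pv V) a1 a2 X2 N4))
      (res hW (sf (Pu V) (Pv V) b1 b2 X2 N4)) = B22 at G1
  generalize res hW h = h' at G1 hD3
  have t3 := G1.se.tr3
  have t4 := G1.se.tr4
  by_cases ht : A11 + h' = 0
  · refine ⟨W, hWn, a1', a2', b1', b2', p, q, h', w1, w2, B11, B12, ?_⟩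
    have k1 : -h' = A11 := by linear_combination -ht
    have k2 : 3 * h' = A22 := by linear_combination ht - t3
    have k3 : -B11 = B22 := by linear_combination -t4
    rw [k2, k3, k1]
    exact G1
  · obtain ⟨Z, hZ, hZn, hu, -⟩ := zero_or_unit W _ ht
    have G2 := (G1.restrict hZ).exchange
    obtain ⟨ui, hui⟩ := hu.exists_right_inv
    have hD4 := congrArg (res hZ) hD3
    rw [map_sub, map_mul, map_add, map_add, map_pow, map_zero] at hD4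
    have t5 := congrArg (res hZ) t3
    rw [map_add, map_mul, map_ofNat] at t5
    have t6 := congrArg (res hZ) t4
    rw [map_add, map_zero] at t6
    rw [map_add] at hui
    have k0 : res hZ A22 + res hZ h' = 0 := by
      linear_combination ui * hD4 - (res hZ A22 + res hZ h') * hui
    refine ⟨Z, hZn, res hZ b1', res hZ b2', res hZ a1', res hZ a2', res hZ q, res hZ p,
      res hZ h', res hZ w2, res hZ w1, res hZ B22, res hZ B12, ?_⟩
    have k1 : -res hZ h' = res hZ A22 := by linear_combination -k0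
    have k2 : 3 * res hZ h' = res hZ A11 := by linear_combination k0 - t5
    have k3 : -res hZ B22 = res hZ B11 := by linear_combination -t6
    rw [map_zero] at G2
    rw [k2, k3, k1]
    exact G2

end

/-- the commutator of two shape operators in coordinates, up to a positive factor -/
noncomputable def shapeComm (f : ℝ × ℝ → EuclideanSpace ℝ (Fin 4)) (g11 g12 g22 : ℝ × ℝ → ℝ)
    (p : ℝ × ℝ) (ξ η : EuclideanSpace ℝ (Fin 4)) : ℝ :=
  g22 p *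
      (inner ℝ (fderiv ℝ (fun q => fderiv ℝ f q (1, 0)) p (1, 0)) ξ *
        inner ℝ (fderiv ℝ (fun q => fderiv ℝ f q (0, 1)) p (1, 0)) η -
       inner ℝ (fderiv ℝ (fun q => fderiv ℝ f q (1, 0)) p (1, 0)) η *
        inner ℝ (fderiv ℝ (fun q => fderiv ℝ f q (0, 1)) p (1, 0)) ξ) -
    g12 p *
      (inner ℝ (fderiv ℝ (fun q => fderiv ℝ f q (1, 0)) p (1, 0)) ξ *
        inner ℝ (fderiv ℝ (fun q => fderiv ℝ f q (0, 1)) p (0, 1)) η -
       inner ℝ (fderiv ℝ (fun q => fderiv ℝ f q (1, 0)) p (1, 0)) η *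
        inner ℝ (fderiv ℝ (fun q => fderiv ℝ f q (0, 1)) p (0, 1)) ξ) +
    g11 p *
      (inner ℝ (fderiv ℝ (fun q => fderiv ℝ f q (0, 1)) p (1, 0)) ξ *
        inner ℝ (fderiv ℝ (fun q => fderiv ℝ f q (0, 1)) p (0, 1)) η -
       inner ℝ (fderiv ℝ (fun q => fderiv ℝ f q (0, 1)) p (1, 0)) η *
        inner ℝ (fderiv ℝ (fun q => fderiv ℝ f q (0, 1)) p (0, 1)) ξ)

/-- the determinant of `A_H + |H|^2` in coordinates, up to a positive factor; `L = 2 H` -/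
noncomputable def shapeDet (f : ℝ × ℝ → EuclideanSpace ℝ (Fin 4)) (g11 g12 g22 : ℝ × ℝ → ℝ)
    (L : EuclideanSpace ℝ (Fin 4)) (p : ℝ × ℝ) : ℝ :=
  (2 * inner ℝ (fderiv ℝ (fun q => fderiv ℝ f q (1, 0)) p (1, 0)) L + inner ℝ L L * g11 p) *
    (2 * inner ℝ (fderiv ℝ (fun q => fderiv ℝ f q (0, 1)) p (0, 1)) L + inner ℝ L L * g22 p) -
  (2 * inner ℝ (fderiv ℝ (fun q => fderiv ℝ f q (0, 1)) p (1, 0)) L + inner ℝ L L * g12 p) ^ 2

section
variable {U : Set (ℝ × ℝ)} {f : ℝ × ℝ → EuclideanSpace ℝ (Fin 4)} {g11 g12 g22 dtf : ℝ × ℝ → ℝ}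
  {Lap : (ℝ × ℝ → EuclideanSpace ℝ (Fin 4)) → ℝ × ℝ → EuclideanSpace ℝ (Fin 4)}
  {V : TopologicalSpace.Opens (ℝ × ℝ)}

theorem Patch.vdd (P : Patch U f g11 g12 g22 dtf Lap) (hV : (V : Set (ℝ × ℝ)) ⊆ U)
    (v w : ℝ × ℝ) :
    vd (pd V w) (vd (pd V v) (vec V f (P.smf hV))) =
      vec V (fun q => fderiv ℝ (fun y => fderiv ℝ f y v) q w)
        (smooth_fderivE _ (smooth_fderivE f (P.smf hV) v) w) := by
  rw [vd_vec, vd_vec]

theorem inner_at4_zero {u N : Fin 4 → SF V} (h : dt u N = 0) (x : V) :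
    (dt u N).1 x = 0 := by rw [h, val_zero]

/-- the coordinate expression of the commutator -/
theorem Patch.shapeComm_val (P : Patch U f g11 g12 g22 dtf Lap) (hV : (V : Set (ℝ × ℝ)) ⊆ U)
    (N3 N4 : Fin 4 → SF V) (x : V) :
    (dt (vd (Pv V) (vec V f (P.smf hV))) (vd (Pv V) (vec V f (P.smf hV))) *
        (dt (vd (Pu V) (vd (Pu V) (vec V f (P.smf hV)))) N3 *
          dt (vd (Pu V) (vd (Pv V) (vec V f (P.smf hV)))) N4 -
          dt (vd (Pu V) (vd (Pu V) (vec V f (P.smf hV)))) N4 *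
          dt (vd (Pu V) (vd (Pv V) (vec V f (P.smf hV)))) N3) -
      dt (vd (Pu V) (vec V f (P.smf hV))) (vd (Pv V) (vec V f (P.smf hV))) *
        (dt (vd (Pu V) (vd (Pu V) (vec V f (P.smf hV)))) N3 *
          dt (vd (Pv V) (vd (Pv V) (vec V f (P.smf hV)))) N4 -
          dt (vd (Pu V) (vd (Pu V) (vec V f (P.smf hV)))) N4 *
          dt (vd (Pv V) (vd (Pv V) (vec V f (P.smf hV)))) N3) +
      dt (vd (Pu V) (vec V f (P.smf hV))) (vd (Pu V) (vec V f (P.smf hV))) *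
        (dt (vd (Pu V) (vd (Pv V) (vec V f (P.smf hV)))) N3 *
          dt (vd (Pv V) (vd (Pv V) (vec V f (P.smf hV)))) N4 -
          dt (vd (Pu V) (vd (Pv V) (vec V f (P.smf hV)))) N4 *
          dt (vd (Pv V) (vd (Pv V) (vec V f (P.smf hV)))) N3)).1 x =
      shapeComm f g11 g12 g22 x (at4 N3 x) (at4 N4 x) := by
  rw [← P.m11 hV, ← P.m12 hV, ← P.m22 hV]
  simp only [Pu, Pv, P.vdd hV]
  simp only [val_add, val_sub, val_mul, dt_at4, mk_val]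
  rfl

/-- the coordinate expression of the determinant -/
theorem Patch.shapeDet_val (P : Patch U f g11 g12 g22 dtf Lap) (hV : (V : Set (ℝ × ℝ)) ⊆ U)
    (h : SF V) (N3 : Fin 4 → SF V) (h33 : dt N3 N3 = 1)
    (hL : ∀ i, vec V (Lap f) (P.sm_lap hV f (P.smf hV)) i = 2 * h * N3 i) (x : V) :
    (16 * h ^ 2 * ((dt (vd (Pu V) (vd (Pu V) (vec V f (P.smf hV)))) N3 +
        h * dt (vd (Pu V) (vec V f (P.smf hV))) (vd (Pu V) (vec V f (P.smf hV)))) *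
      (dt (vd (Pv V) (vd (Pv V) (vec V f (P.smf hV)))) N3 +
        h * dt (vd (Pv V) (vec V f (P.smf hV))) (vd (Pv V) (vec V f (P.smf hV)))) -
      (dt (vd (Pu V) (vd (Pv V) (vec V f (P.smf hV)))) N3 +
        h * dt (vd (Pu V) (vec V f (P.smf hV))) (vd (Pv V) (vec V f (P.smf hV)))) ^ 2)).1 x =
      shapeDet f g11 g12 g22 (Lap f x) x := by
  have hLv : vec V (Lap f) (P.sm_lap hV f (P.smf hV)) = (2 * h) • N3 := by
    funext i
    exact hL i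
  have hLL : dt (vec V (Lap f) (P.sm_lap hV f (P.smf hV)))
      (vec V (Lap f) (P.sm_lap hV f (P.smf hV))) = 4 * h ^ 2 := by
    rw [hLv, dt_smul_left, dt_smul_right, h33]
    ring
  have hu : ∀ u : Fin 4 → SF V, dt u (vec V (Lap f) (P.sm_lap hV f (P.smf hV))) =
      2 * h * dt u N3 := by
    intro u
    rw [hLv, dt_smul_right]
  have e : 16 * h ^ 2 * ((dt (vd (Pu V) (vd (Pu V) (vec V f (P.smf hV)))) N3 +
        h * dt (vd (Pu V) (vec V f (P.smf hV))) (vd (Pu V) (vec V f (P.smf hV)))) *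
      (dt (vd (Pv V) (vd (Pv V) (vec V f (P.smf hV)))) N3 +
        h * dt (vd (Pv V) (vec V f (P.smf hV))) (vd (Pv V) (vec V f (P.smf hV)))) -
      (dt (vd (Pu V) (vd (Pv V) (vec V f (P.smf hV)))) N3 +
        h * dt (vd (Pu V) (vec V f (P.smf hV))) (vd (Pv V) (vec V f (P.smf hV)))) ^ 2) =
      (2 * dt (vd (Pu V) (vd (Pu V) (vec V f (P.smf hV))))
          (vec V (Lap f) (P.sm_lap hV f (P.smf hV))) +
        dt (vec V (Lap f) (P.sm_lap hV f (P.smf hV)))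
          (vec V (Lap f) (P.sm_lap hV f (P.smf hV))) * N4.mk V g11 (P.sm11 hV)) *
      (2 * dt (vd (Pv V) (vd (Pv V) (vec V f (P.smf hV))))
          (vec V (Lap f) (P.sm_lap hV f (P.smf hV))) +
        dt (vec V (Lap f) (P.sm_lap hV f (P.smf hV)))
          (vec V (Lap f) (P.sm_lap hV f (P.smf hV))) * N4.mk V g22 (P.sm22 hV)) -
      (2 * dt (vd (Pu V) (vd (Pv V) (vec V f (P.smf hV))))
          (vec V (Lap f) (P.sm_lap hV f (P.smf hV))) +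
        dt (vec V (Lap f) (P.sm_lap hV f (P.smf hV)))
          (vec V (Lap f) (P.sm_lap hV f (P.smf hV))) * N4.mk V g12 (P.sm12 hV)) ^ 2 := by
    rw [hLL, hu, hu, hu, P.m11 hV, P.m12 hV, P.m22 hV]
    ring
  rw [e]
  simp only [Pu, Pv, P.vdd hV]
  simp only [val_add, val_sub, val_mul, val_two, val_pow, dt_vec, mk_val]
  rfl

/-- the determinant in the frame -/
theorem CF.det_frame {A : Type*} [CommRing A] [Algebra ℝ A] {P1 P2 : Derivation ℝ A A}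
    {f : Fin 4 → A} {a1 a2 b1 b2 : A} {X1 X2 N3 N4 : Fin 4 → A}
    (F : CF P1 P2 f a1 a2 b1 b2 X1 X2 N3 N4) (h : A) :
    (sf P1 P2 a1 a2 X1 N3 + h) * (sf P1 P2 b1 b2 X2 N3 + h) - sf P1 P2 a1 a2 X2 N3 ^ 2 =
      (a1 * b2 - a2 * b1) ^ 2 *
      ((dt (vd P1 (vd P1 f)) N3 + h * dt (vd P1 f) (vd P1 f)) *
      (dt (vd P2 (vd P2 f)) N3 + h * dt (vd P2 f) (vd P2 f)) -
      (dt (vd P1 (vd P2 f)) N3 + h * dt (vd P1 f) (vd P2 f)) ^ 2) := by
  obtain ⟨s1, s2, s3⟩ := F.sff F.on.h02 F.on.h12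
  have g1 := F.e11
  have g2 := F.e22
  have g3 := F.e12
  unfold sf
  rw [s1, s2, s3]
  set g11 := dt (vd P1 f) (vd P1 f)
  set g12 := dt (vd P1 f) (vd P2 f)
  set g22 := dt (vd P2 f) (vd P2 f)
  set α11 := dt (vd P1 (vd P1 f)) N3
  set α12 := dt (vd P1 (vd P2 f)) N3
  set α22 := dt (vd P2 (vd P2 f)) N3
  have k1 : a1 ^ 2 * α11 + 2 * a1 * a2 * α12 + a2 ^ 2 * α22 + h =
      a1 ^ 2 * (α11 + h * g11) + 2 * a1 * a2 * (α12 + h * g12) + a2 ^ 2 * (α22 + h * g22) := by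
    linear_combination (-h) * g1
  have k2 : b1 ^ 2 * α11 + 2 * b1 * b2 * α12 + b2 ^ 2 * α22 + h =
      b1 ^ 2 * (α11 + h * g11) + 2 * b1 * b2 * (α12 + h * g12) + b2 ^ 2 * (α22 + h * g22) := by
    linear_combination (-h) * g2
  have k3 : a1 * b1 * α11 + (a1 * b2 + a2 * b1) * α12 + a2 * b2 * α22 =
      a1 * b1 * (α11 + h * g11) + (a1 * b2 + a2 * b1) * (α12 + h * g12) +
        a2 * b2 * (α22 + h * g22) := by
    linear_combination (-h) * g3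
  rw [k1, k2, k3]
  ring

/-- the commutator of the shape operators in the frame and in coordinates -/
theorem CF.comm_frame {A : Type*} [CommRing A] [Algebra ℝ A] {P1 P2 : Derivation ℝ A A}
    {f : Fin 4 → A} {a1 a2 b1 b2 : A} {X1 X2 N3 N4 : Fin 4 → A}
    (F : CF P1 P2 f a1 a2 b1 b2 X1 X2 N3 N4) :
    sf P1 P2 a1 a2 X2 N3 * (sf P1 P2 a1 a2 X1 N4 - sf P1 P2 b1 b2 X2 N4) -
      sf P1 P2 a1 a2 X2 N4 * (sf P1 P2 a1 a2 X1 N3 - sf P1 P2 b1 b2 X2 N3) =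
    -((a1 * b2 - a2 * b1) ^ 3 * (dt (vd P2 f) (vd P2 f) *
        (dt (vd P1 (vd P1 f)) N3 * dt (vd P1 (vd P2 f)) N4 -
          dt (vd P1 (vd P1 f)) N4 * dt (vd P1 (vd P2 f)) N3) -
      dt (vd P1 f) (vd P2 f) *
        (dt (vd P1 (vd P1 f)) N3 * dt (vd P2 (vd P2 f)) N4 -
          dt (vd P1 (vd P1 f)) N4 * dt (vd P2 (vd P2 f)) N3) +
      dt (vd P1 f) (vd P1 f) *
        (dt (vd P1 (vd P2 f)) N3 * dt (vd P2 (vd P2 f)) N4 -
          dt (vd P1 (vd P2 f)) N4 * dt (vd P2 (vd P2 f)) N3))) := by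
  obtain ⟨s1, s2, s3⟩ := F.sff F.on.h02 F.on.h12
  obtain ⟨t1, t2, t3⟩ := F.sff F.on.h03 F.on.h13
  unfold sf
  rw [s1, s2, s3, t1, t2, t3]
  have g1 := F.e11
  have g2 := F.e22
  have g3 := F.e12
  set g11 := dt (vd P1 f) (vd P1 f)
  set g12 := dt (vd P1 f) (vd P2 f)
  set g22 := dt (vd P2 f) (vd P2 f)
  set α11 := dt (vd P1 (vd P1 f)) N3
  set α12 := dt (vd P1 (vd P2 f)) N3
  set α22 := dt (vd P2 (vd P2 f)) N3
  set β11 := dt (vd P1 (vd P1 f)) N4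
  set β12 := dt (vd P1 (vd P2 f)) N4
  set β22 := dt (vd P2 (vd P2 f)) N4
  have i22 : g22 * (a1 * b2 - a2 * b1) ^ 2 = a1 ^ 2 + b1 ^ 2 := by
    linear_combination b1 ^ 2 * g1 - 2 * a1 * b1 * g3 + a1 ^ 2 * g2
  have i12 : g12 * (a1 * b2 - a2 * b1) ^ 2 = -(a1 * a2 + b1 * b2) := by
    linear_combination (-(b1 * b2)) * g1 + (a1 * b2 + a2 * b1) * g3 - a1 * a2 * g2
  have i11 : g11 * (a1 * b2 - a2 * b1) ^ 2 = a2 ^ 2 + b2 ^ 2 := by
    linear_combination b2 ^ 2 * g1 - 2 * a2 * b2 * g3 + a2 ^ 2 * g2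
  linear_combination (a1 * b2 - a2 * b1) * (α11 * β12 - β11 * α12) * i22 -
    (a1 * b2 - a2 * b1) * (α11 * β22 - β11 * α22) * i12 +
    (a1 * b2 - a2 * b1) * (α12 * β22 - β12 * α22) * i11

/-- the geometric part of the theorem: a patch with nonconstant mean curvature in one of the two
classes gives frame data on a nonempty open set -/
theorem Patch.two_classes (P : Patch U f g11 g12 g22 dtf Lap) {c : ℝ}
    (hc : ∀ p ∈ U, Lap (Lap f) p = c • Lap f p)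
    (hn : ¬ ∃ k : ℝ, ∀ p ∈ U, ‖Lap f p‖ = k)
    (hK : ∀ p ∈ U, (∀ ξ η : EuclideanSpace ℝ (Fin 4),
      inner ℝ (fderiv ℝ f p (1, 0)) ξ = 0 → inner ℝ (fderiv ℝ f p (0, 1)) ξ = 0 →
      inner ℝ (fderiv ℝ f p (1, 0)) η = 0 → inner ℝ (fderiv ℝ f p (0, 1)) η = 0 →
      shapeComm f g11 g12 g22 p ξ η = 0) ∨ shapeDet f g11 g12 g22 (Lap f p) p = 0) :
    (∃ W : TopologicalSpace.Opens (ℝ × ℝ), (W : Set (ℝ × ℝ)).Nonempty ∧
      ∃ (f' X1' X2' N3' N4' : Fin 4 → SF W) (a1' a2' b1' b2' p q h' w1 w2 x y : SF W),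
      FD W c f' X1' X2' N3' N4' a1' a2' b1' b2' p q h' w1 w2 (h' * (1 + x)) 0 (h' * (1 - x))
        (h' * y) 0 (-(h' * y))) ∨
    ((∃ x ∈ U, shapeDet f g11 g12 g22 (Lap f x) x = 0 ∧
        ∃ ξ η : EuclideanSpace ℝ (Fin 4), inner ℝ (fderiv ℝ f x (1, 0)) ξ = 0 ∧
          inner ℝ (fderiv ℝ f x (0, 1)) ξ = 0 ∧ inner ℝ (fderiv ℝ f x (1, 0)) η = 0 ∧
          inner ℝ (fderiv ℝ f x (0, 1)) η = 0 ∧ shapeComm f g11 g12 g22 x ξ η ≠ 0) ∧
      ∃ W : TopologicalSpace.Opens (ℝ × ℝ), (W : Set (ℝ × ℝ)).Nonempty ∧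
      ∃ (a1' a2' b1' b2' p q h' w1 w2 b11 b12 : SF W),
      GD W c a1' a2' b1' b2' p q h' w1 w2 (-h') 0 (3 * h') b11 b12 (-b11)) := by
  obtain ⟨V, hV, hVn, a1, a2, b1, b2, h, X1, X2, N3, N4, F, hl1, hl2, hpos, hne, hL⟩ :=
    P.local_frame hc hn
  have hcf := F.comm_frame
  have hdf := F.det_frame h
  obtain ⟨n31, n32⟩ := F.normal F.on.h02 F.on.h12
  obtain ⟨n41, n42⟩ := F.normal F.on.h03 F.on.h13
  have val1 : ∀ (N : Fin 4 → SF V) (x : V), dt (vd (Pu V) (vec V f (P.smf hV))) N = 0 →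
      inner ℝ (fderiv ℝ f x (1, 0)) (at4 N x) = 0 := by
    intro N x h0
    have h1 : (dt (vd (Pu V) (vec V f (P.smf hV))) N).1 x = 0 := by rw [h0, val_zero]
    rw [Pu, vd_vec, dt_at4] at h1
    exact h1
  have val2 : ∀ (N : Fin 4 → SF V) (x : V), dt (vd (Pv V) (vec V f (P.smf hV))) N = 0 →
      inner ℝ (fderiv ℝ f x (0, 1)) (at4 N x) = 0 := by
    intro N x h0
    have h1 : (dt (vd (Pv V) (vec V f (P.smf hV))) N).1 x = 0 := by rw [h0, val_zero]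
    rw [Pv, vd_vec, dt_at4] at h1
    exact h1
  set κ := sf (Pu V) (Pv V) a1 a2 X2 N3 *
        (sf (Pu V) (Pv V) a1 a2 X1 N4 - sf (Pu V) (Pv V) b1 b2 X2 N4) -
      sf (Pu V) (Pv V) a1 a2 X2 N4 *
        (sf (Pu V) (Pv V) a1 a2 X1 N3 - sf (Pu V) (Pv V) b1 b2 X2 N3) with hκ
  by_cases hk : κ = 0
  · left
    exact flat_data hVn F hl1 hl2 hpos hne hk
  · right
    obtain ⟨W, hW, hWn, -, hWne⟩ := zero_or_unit V _ hk
    -- the commutator does not vanish on W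
    have hcom : ∀ x : W, shapeComm f g11 g12 g22 x (at4 N3 ⟨x, hW x.2⟩)
        (at4 N4 ⟨x, hW x.2⟩) ≠ 0 := by
      intro x h0
      apply hWne x
      rw [res_val, hcf, val_neg, val_mul, P.shapeComm_val hV N3 N4 ⟨x, hW x.2⟩, h0]
      ring
    have hdet : ∀ x : W, shapeDet f g11 g12 g22 (Lap f x) x = 0 := by
      intro x
      rcases hK x (hV (hW x.2)) with h0 | h0
      · exfalso
        exact hcom x (h0 _ _ (val1 N3 _ n31) (val2 N3 _ n32) (val1 N4 _ n41) (val2 N4 _ n42))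
      · exact h0
    refine ⟨?_, ?_⟩
    · obtain ⟨x, hx⟩ := hWn
      exact ⟨x, hV (hW hx), hdet ⟨x, hx⟩, at4 N3 ⟨x, hW hx⟩, at4 N4 ⟨x, hW hx⟩,
        val1 N3 _ n31, val2 N3 _ n32, val1 N4 _ n41, val2 N4 _ n42, hcom ⟨x, hx⟩⟩
    · -- restrict the frame to W
      have hE : res hW ((sf (Pu V) (Pv V) a1 a2 X1 N3 + h) * (sf (Pu V) (Pv V) b1 b2 X2 N3 + h) -
          sf (Pu V) (Pv V) a1 a2 X2 N3 ^ 2) = 0 := by
        rw [hdf]
        apply sf_ext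
        intro x
        have h16 := P.shapeDet_val hV h N3 F.on.h22 hL ⟨x, hW x.2⟩
        rw [hdet x, val_mul] at h16
        have hh : (16 * h ^ 2 : SF V).1 ⟨x, hW x.2⟩ ≠ 0 := by
          have h16e : (16 : SF V) = algebraMap ℝ (SF V) 16 :=
            (map_ofNat (algebraMap ℝ (SF V)) 16).symm
          rw [h16e, val_mul, val_const, val_pow]
          have := hpos ⟨x, hW x.2⟩
          positivity
        rw [res_val, val_mul, (mul_eq_zero.mp h16).resolve_left hh, mul_zero, val_zero]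
      obtain ⟨F', hl1', hl2', hE'⟩ := restrict_abs (res hW) (res_Pu hW) (res_Pv hW) (P_comm W)
        F hl1 hl2 hE
      refine adapted_data hWn F' hl1' hl2' ?_ ?_ hE'
      · intro x
        rw [res_val]
        exact hpos _
      · intro x
        rw [← res_Pu, ← res_Pv, res_val, res_val]
        exact hne _

/-- the geometric part for commuting shape operators -/
theorem Patch.flat_geo (P : Patch U f g11 g12 g22 dtf Lap) {c : ℝ}
    (hc : ∀ p ∈ U, Lap (Lap f) p = c • Lap f p)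
    (hn : ¬ ∃ k : ℝ, ∀ p ∈ U, ‖Lap f p‖ = k)
    (hK : ∀ p ∈ U, ∀ ξ η : EuclideanSpace ℝ (Fin 4),
      inner ℝ (fderiv ℝ f p (1, 0)) ξ = 0 → inner ℝ (fderiv ℝ f p (0, 1)) ξ = 0 →
      inner ℝ (fderiv ℝ f p (1, 0)) η = 0 → inner ℝ (fderiv ℝ f p (0, 1)) η = 0 →
      shapeComm f g11 g12 g22 p ξ η = 0) :
    ∃ W : TopologicalSpace.Opens (ℝ × ℝ), (W : Set (ℝ × ℝ)).Nonempty ∧
      ∃ (f' X1' X2' N3' N4' : Fin 4 → SF W) (a1' a2' b1' b2' p q h' w1 w2 x y : SF W),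
      FD W c f' X1' X2' N3' N4' a1' a2' b1' b2' p q h' w1 w2 (h' * (1 + x)) 0 (h' * (1 - x))
        (h' * y) 0 (-(h' * y)) := by
  rcases P.two_classes hc hn (fun p hp => Or.inl (hK p hp)) with h | ⟨⟨x, hx, -, ξ, η, h1, h2, h3,
    h4, h5⟩, -⟩
  · exact h
  · exact absurd (hK x hx ξ η h1 h2 h3 h4) h5

end

end N4
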