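import Pool.Agent.Helper58.N4.Loc

set_option autoImplicit false

/-!
# The principal frame of a surface with flat normal bundle; frames adapted to `H`
-/

namespace N4

open scoped ContDiff Topology

/-- the formulas of Gauss and Weingarten for a moving frame -/
structure GW {A : Type*} [CommRing A] [Algebra ℝ A] (D1 D2 : Derivation ℝ A A)
    (f X1 X2 N3 N4 : Fin 4 → A) (p q w1 w2 a11 a12 a22 b11 b12 b22 : A) : Prop where
  fr : Fr D1 D2 f X1 X2 N3 N4 p q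
  s11 : vd D1 X1 = p • X2 + a11 • N3 + b11 • N4
  s12 : vd D1 X2 = (-p) • X1 + a12 • N3 + b12 • N4
  s21 : vd D2 X1 = (-q) • X2 + a12 • N3 + b12 • N4
  s22 : vd D2 X2 = q • X1 + a22 • N3 + b22 • N4
  t13 : vd D1 N3 = (-a11) • X1 + (-a12) • X2 + w1 • N4
  t23 : vd D2 N3 = (-a12) • X1 + (-a22) • X2 + w2 • N4
  t14 : vd D1 N4 = (-b11) • X1 + (-b12) • X2 + (-w1) • N3
  t24 : vd D2 N4 = (-b12) • X1 + (-b22) • X2 + (-w2) • N3

section abs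

variable {A B : Type*} [CommRing A] [CommRing B] [Algebra ℝ A] [Algebra ℝ B]

omit [Algebra ℝ A] in
theorem exp_aux {E0 E1 E2 E3 v : Fin 4 → A} (h : ON E0 E1 E2 E3) {a b c d : A}
    (h0 : dt v E0 = a) (h1 : dt v E1 = b) (h2 : dt v E2 = c) (h3 : dt v E3 = d) :
    v = a • E0 + b • E1 + c • E2 + d • E3 := by
  rw [← h0, ← h1, ← h2, ← h3]
  exact expand h v

theorem Fr.gw {D1 D2 : Derivation ℝ A A} {f X1 X2 N3 N4 : Fin 4 → A} {p q : A}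
    (F : Fr D1 D2 f X1 X2 N3 N4 p q) :
    GW D1 D2 f X1 X2 N3 N4 p q (dt (vd D1 N3) N4) (dt (vd D2 N3) N4)
      (dt (vd D1 X1) N3) (dt (vd D1 X2) N3) (dt (vd D2 X2) N3)
      (dt (vd D1 X1) N4) (dt (vd D1 X2) N4) (dt (vd D2 X2) N4) := by
  have o := F.on
  have x11 : dt (vd D1 X1) X1 = 0 := dt_self D1 o.h00
  have x12 : dt (vd D1 X1) X2 = p := F.coef_p
  have x21 : dt (vd D2 X1) X1 = 0 := dt_self D2 o.h00
  have y12 : dt (vd D2 X2) X2 = 0 := dt_self D2 o.h11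
  have y11 : dt (vd D2 X2) X1 = q := F.coef_q
  have x22 : dt (vd D2 X1) X2 = -q := by
    have h3 := dt_swap D2 (u := X2) (v := X1) (by rw [dt_comm, o.h01, map_zero])
    rw [h3, y11]
  have z11 : dt (vd D1 X2) X1 = -p := by
    have h3 := dt_swap D1 (u := X1) (v := X2) (by rw [o.h01, map_zero])
    rw [h3, x12]
  have z12 : dt (vd D1 X2) X2 = 0 := dt_self D1 o.h11
  have n311 : dt (vd D1 N3) X1 = -dt (vd D1 X1) N3 :=
    dt_swap D1 (u := X1) (v := N3) (by rw [o.h02, map_zero])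
  have n312 : dt (vd D1 N3) X2 = -dt (vd D1 X2) N3 :=
    dt_swap D1 (u := X2) (v := N3) (by rw [o.h12, map_zero])
  have n313 : dt (vd D1 N3) N3 = 0 := dt_self D1 o.h22
  have n321 : dt (vd D2 N3) X1 = -dt (vd D1 X2) N3 := by
    rw [dt_swap D2 (u := X1) (v := N3) (by rw [o.h02, map_zero]), F.mixed3]
  have n322 : dt (vd D2 N3) X2 = -dt (vd D2 X2) N3 :=
    dt_swap D2 (u := X2) (v := N3) (by rw [o.h12, map_zero])
  have n323 : dt (vd D2 N3) N3 = 0 := dt_self D2 o.h22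
  have n411 : dt (vd D1 N4) X1 = -dt (vd D1 X1) N4 :=
    dt_swap D1 (u := X1) (v := N4) (by rw [o.h03, map_zero])
  have n412 : dt (vd D1 N4) X2 = -dt (vd D1 X2) N4 :=
    dt_swap D1 (u := X2) (v := N4) (by rw [o.h13, map_zero])
  have n413 : dt (vd D1 N4) N3 = -dt (vd D1 N3) N4 :=
    dt_swap D1 (u := N3) (v := N4) (by rw [o.h23, map_zero])
  have n414 : dt (vd D1 N4) N4 = 0 := dt_self D1 o.h33
  have n421 : dt (vd D2 N4) X1 = -dt (vd D1 X2) N4 := by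
    rw [dt_swap D2 (u := X1) (v := N4) (by rw [o.h03, map_zero]), F.mixed4]
  have n422 : dt (vd D2 N4) X2 = -dt (vd D2 X2) N4 :=
    dt_swap D2 (u := X2) (v := N4) (by rw [o.h13, map_zero])
  have n423 : dt (vd D2 N4) N3 = -dt (vd D2 N3) N4 :=
    dt_swap D2 (u := N3) (v := N4) (by rw [o.h23, map_zero])
  have n424 : dt (vd D2 N4) N4 = 0 := dt_self D2 o.h33
  refine ⟨F, ?_, ?_, ?_, ?_, ?_, ?_, ?_, ?_⟩
  · have h := exp_aux o x11 x12 rfl rfl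
    rw [zero_smul, zero_add] at h
    exact h
  · have h := exp_aux o z11 z12 rfl rfl
    rw [zero_smul, add_zero] at h
    exact h
  · have h := exp_aux o x21 x22 F.mixed3 F.mixed4
    rw [zero_smul, zero_add] at h
    exact h
  · have h := exp_aux o y11 y12 rfl rfl
    rw [zero_smul, add_zero] at h
    exact h
  · have h := exp_aux o n311 n312 n313 rfl
    rw [zero_smul, add_zero] at h
    exact h
  · have h := exp_aux o n321 n322 n323 rfl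
    rw [zero_smul, add_zero] at h
    exact h
  · have h := exp_aux o n411 n412 n413 n414
    rw [zero_smul, add_zero] at h
    exact h
  · have h := exp_aux o n421 n422 n423 n424
    rw [zero_smul, add_zero] at h
    exact h

/-- structure equations with opaque connection coefficients -/
theorem CF.se_ex {P1 P2 : Derivation ℝ A A}
    {f : Fin 4 → A} {a1 a2 b1 b2 : A}
    {X1 X2 N3 N4 : Fin 4 → A} (F : CF P1 P2 f a1 a2 b1 b2 X1 X2 N3 N4) (h : A) (c : ℝ)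
    (hl1 : ∀ i, lapc P1 P2 f (a1 * b2 - a2 * b1) (f i) = 2 * h * N3 i)
    (hl2 : ∀ i, lapc P1 P2 f (a1 * b2 - a2 * b1) (h * N3 i) =
      algebraMap ℝ A c * (h * N3 i)) :
    ∃ p q w1 w2 : A,
      ((a1 • P1 + a2 • P2) b1 - (b1 • P1 + b2 • P2) a1 = -p * a1 + q * b1) ∧
      ((a1 • P1 + a2 • P2) b2 - (b1 • P1 + b2 • P2) a2 = -p * a2 + q * b2) ∧
      SE (a1 • P1 + a2 • P2) (b1 • P1 + b2 • P2) p q h w1 w2
      (dt (vd (a1 • P1 + a2 • P2) X1) N3) (dt (vd (a1 • P1 + a2 • P2) X2) N3)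
      (dt (vd (b1 • P1 + b2 • P2) X2) N3)
      (dt (vd (a1 • P1 + a2 • P2) X1) N4) (dt (vd (a1 • P1 + a2 • P2) X2) N4)
      (dt (vd (b1 • P1 + b2 • P2) X2) N4) c ∧
      GW (a1 • P1 + a2 • P2) (b1 • P1 + b2 • P2) f X1 X2 N3 N4 p q w1 w2
      (dt (vd (a1 • P1 + a2 • P2) X1) N3) (dt (vd (a1 • P1 + a2 • P2) X2) N3)
      (dt (vd (b1 • P1 + b2 • P2) X2) N3)
      (dt (vd (a1 • P1 + a2 • P2) X1) N4) (dt (vd (a1 • P1 + a2 • P2) X2) N4)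
      (dt (vd (b1 • P1 + b2 • P2) X2) N4) := by
  obtain ⟨k1, k2⟩ := F.bracket F.fr
  exact ⟨_, _, _, _, k1, k2, F.se h c hl1 hl2, F.fr.gw⟩

/-- second fundamental form entries -/
def sf (P1 P2 : Derivation ℝ A A) (a b : A) (X N : Fin 4 → A) : A :=
  dt (vd (a • P1 + b • P2) X) N

/-- rotation of the first diagonal entry -/
def r11 (C S x y z : A) : A := C ^ 2 * x + 2 * C * S * y + S ^ 2 * z

/-- rotation of the off-diagonal entry -/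
def r12 (C S x y z : A) : A := (C ^ 2 - S ^ 2) * y - C * S * (x - z)

/-- rotation of the second diagonal entry -/
def r22 (C S x y z : A) : A := C ^ 2 * z - 2 * C * S * y + S ^ 2 * x

/-- the structure equations of the rotated frame, abstract form -/
theorem rotated_abs (φ : A →ₐ[ℝ] B) {P1 P2 : Derivation ℝ A A} {Q1 Q2 : Derivation ℝ B B}
    (h1 : ∀ u, φ (P1 u) = Q1 (φ u)) (h2 : ∀ u, φ (P2 u) = Q2 (φ u))
    (qc : ∀ u, Q1 (Q2 u) = Q2 (Q1 u)) {f X1 X2 N3 N4 : Fin 4 → A} {a1 a2 b1 b2 h : A} {c : ℝ}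
    (F : CF P1 P2 f a1 a2 b1 b2 X1 X2 N3 N4)
    (hl1 : ∀ i, lapc P1 P2 f (a1 * b2 - a2 * b1) (f i) = 2 * h * N3 i)
    (hl2 : ∀ i, lapc P1 P2 f (a1 * b2 - a2 * b1) (h * N3 i) =
      algebraMap ℝ A c * (h * N3 i))
    (C S : B) (hCS : C ^ 2 + S ^ 2 = 1) :
    ∃ (X1' X2' : Fin 4 → B) (a1' a2' b1' b2' p q w1 w2 : B),
      IsUnit (a1' * b2' - a2' * b1') ∧
      ((a1' • Q1 + a2' • Q2) b1' - (b1' • Q1 + b2' • Q2) a1' = -p * a1' + q * b1') ∧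
      ((a1' • Q1 + a2' • Q2) b2' - (b1' • Q1 + b2' • Q2) a2' = -p * a2' + q * b2') ∧
      SE (a1' • Q1 + a2' • Q2) (b1' • Q1 + b2' • Q2) p q (φ h) w1 w2
        (r11 C S (φ (sf P1 P2 a1 a2 X1 N3)) (φ (sf P1 P2 a1 a2 X2 N3))
          (φ (sf P1 P2 b1 b2 X2 N3)))
        (r12 C S (φ (sf P1 P2 a1 a2 X1 N3)) (φ (sf P1 P2 a1 a2 X2 N3))
          (φ (sf P1 P2 b1 b2 X2 N3)))
        (r22 C S (φ (sf P1 P2 a1 a2 X1 N3)) (φ (sf P1 P2 a1 a2 X2 N3))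
          (φ (sf P1 P2 b1 b2 X2 N3)))
        (r11 C S (φ (sf P1 P2 a1 a2 X1 N4)) (φ (sf P1 P2 a1 a2 X2 N4))
          (φ (sf P1 P2 b1 b2 X2 N4)))
        (r12 C S (φ (sf P1 P2 a1 a2 X1 N4)) (φ (sf P1 P2 a1 a2 X2 N4))
          (φ (sf P1 P2 b1 b2 X2 N4)))
        (r22 C S (φ (sf P1 P2 a1 a2 X1 N4)) (φ (sf P1 P2 a1 a2 X2 N4))
          (φ (sf P1 P2 b1 b2 X2 N4))) c ∧
      GW (a1' • Q1 + a2' • Q2) (b1' • Q1 + b2' • Q2) (vm φ f) X1' X2' (vm φ N3) (vm φ N4)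
        p q w1 w2
        (r11 C S (φ (sf P1 P2 a1 a2 X1 N3)) (φ (sf P1 P2 a1 a2 X2 N3))
          (φ (sf P1 P2 b1 b2 X2 N3)))
        (r12 C S (φ (sf P1 P2 a1 a2 X1 N3)) (φ (sf P1 P2 a1 a2 X2 N3))
          (φ (sf P1 P2 b1 b2 X2 N3)))
        (r22 C S (φ (sf P1 P2 a1 a2 X1 N3)) (φ (sf P1 P2 a1 a2 X2 N3))
          (φ (sf P1 P2 b1 b2 X2 N3)))
        (r11 C S (φ (sf P1 P2 a1 a2 X1 N4)) (φ (sf P1 P2 a1 a2 X2 N4))
          (φ (sf P1 P2 b1 b2 X2 N4)))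
        (r12 C S (φ (sf P1 P2 a1 a2 X1 N4)) (φ (sf P1 P2 a1 a2 X2 N4))
          (φ (sf P1 P2 b1 b2 X2 N4)))
        (r22 C S (φ (sf P1 P2 a1 a2 X1 N4)) (φ (sf P1 P2 a1 a2 X2 N4))
          (φ (sf P1 P2 b1 b2 X2 N4))) := by
  have G := F.map φ h1 h2 qc
  have R := G.rot C S hCS
  -- restriction of the second fundamental form
  have e : ∀ (a b : A) (X N : Fin 4 → A), φ (sf P1 P2 a b X N) =
      dt (vd (φ a • Q1 + φ b • Q2) (vm φ X)) (vm φ N) := by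
    intro a b X N
    rw [sf, dt_map, vd_map φ (comb_map φ h1 h2 a b)]
  have hdet := rot_det (a1 := φ a1) (a2 := φ a2) (b1 := φ b1) (b2 := φ b2) C S hCS
  have hd2 : φ (a1 * b2 - a2 * b1) = φ a1 * φ b2 - φ a2 * φ b1 := by
    rw [map_sub, map_mul, map_mul]
  have L1 : ∀ i, lapc Q1 Q2 (vm φ f)
      ((C * φ a1 + S * φ b1) * (C * φ b2 - S * φ a2) -
        (C * φ a2 + S * φ b2) * (C * φ b1 - S * φ a1))
      (vm φ f i) = 2 * φ h * vm φ N3 i := by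
    intro i
    rw [hdet, ← hd2]
    show lapc Q1 Q2 (vm φ f) (φ (a1 * b2 - a2 * b1)) (φ (f i)) = 2 * φ h * φ (N3 i)
    rw [← lapc_map φ h1 h2, hl1, map_mul, map_mul, map_ofNat]
  have L2 : ∀ i, lapc Q1 Q2 (vm φ f)
      ((C * φ a1 + S * φ b1) * (C * φ b2 - S * φ a2) -
        (C * φ a2 + S * φ b2) * (C * φ b1 - S * φ a1))
      (φ h * vm φ N3 i) = algebraMap ℝ B c * (φ h * vm φ N3 i) := by
    intro i
    rw [hdet, ← hd2]
    show lapc Q1 Q2 (vm φ f) (φ (a1 * b2 - a2 * b1)) (φ h * φ (N3 i)) =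
      algebraMap ℝ B c * (φ h * φ (N3 i))
    rw [← map_mul, ← lapc_map φ h1 h2, hl2, map_mul, AlgHom.commutes]
  obtain ⟨p, q, w1, w2, k1, k2, SS, GG⟩ := R.se_ex (φ h) c L1 L2
  have o := G.on
  obtain ⟨s1, s2, s3⟩ := G.sff_rot C S hCS o.h02 o.h12
  obtain ⟨t1, t2, t3⟩ := G.sff_rot C S hCS o.h03 o.h13
  rw [s1, s2, s3, t1, t2, t3] at SS GG
  refine ⟨C • vm φ X1 + S • vm φ X2, C • vm φ X2 - S • vm φ X1,
    C * φ a1 + S * φ b1, C * φ a2 + S * φ b2,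
    C * φ b1 - S * φ a1, C * φ b2 - S * φ a2, p, q, w1, w2, ?_, k1, k2, ?_, ?_⟩
  · rw [hdet]
    have hg := G.gram
    refine IsUnit.of_mul_eq_one (((φ a1 * φ b2 - φ a2 * φ b1) *
      (dt (vd Q1 (vm φ f)) (vd Q1 (vm φ f)) * dt (vd Q2 (vm φ f)) (vd Q2 (vm φ f)) -
        dt (vd Q1 (vm φ f)) (vd Q2 (vm φ f)) ^ 2))) ?_
    linear_combination hg
  · simp only [e, r11, r12, r22]
    exact SS
  · simp only [e, r11, r12, r22]
    exact GG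

/-- normalisation of the principal second fundamental form, abstract form -/
theorem normalize_abs {c : ℝ} {D1 D2 : Derivation ℝ A A} {f X1 X2 N3 N4 : Fin 4 → A}
    {p q h w1 w2 A11 A12 A22 B11 B12 B22 hfi hi : A} (h2 : 2 * hfi = 1)
    (S : SE D1 D2 p q h w1 w2 A11 A12 A22 B11 B12 B22 c)
    (G : GW D1 D2 f X1 X2 N3 N4 p q w1 w2 A11 A12 A22 B11 B12 B22)
    (e3 : A12 = 0) (e4 : B12 = 0) (hhi : h * hi = 1) :
    ∃ x y : A, SE D1 D2 p q h w1 w2 (h * (1 + x)) 0 (h * (1 - x)) (h * y) 0 (-(h * y)) c ∧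
      GW D1 D2 f X1 X2 N3 N4 p q w1 w2 (h * (1 + x)) 0 (h * (1 - x)) (h * y) 0 (-(h * y)) := by
  have t3 := S.tr3
  have t4 := S.tr4
  refine ⟨hfi * hi * (A11 - A22), hi * B11, ?_⟩
  have q1 : h * (1 + hfi * hi * (A11 - A22)) = A11 := by
    linear_combination (hfi * (A11 - A22)) * hhi + (-hfi) * t3 + (A11 - h) * h2
  have q2 : h * (1 - hfi * hi * (A11 - A22)) = A22 := by
    linear_combination (-(hfi * (A11 - A22))) * hhi + (-hfi) * t3 + (A22 - h) * h2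
  have q3 : h * (hi * B11) = B11 := by
    linear_combination B11 * hhi
  have q4 : -B11 = B22 := by
    linear_combination -t4
  rw [q1, q2, q3, q4]
  rw [e3, e4] at S G
  exact ⟨S, G⟩

end abs

/-- complete geometric data on `V`: the numbers and the moving frame -/
structure FD (V : TopologicalSpace.Opens (ℝ × ℝ)) (c : ℝ) (f X1 X2 N3 N4 : Fin 4 → SF V)
    (a1 a2 b1 b2 p q h w1 w2 a11 a12 a22 b11 b12 b22 : SF V) : Prop where
  gd : GD V c a1 a2 b1 b2 p q h w1 w2 a11 a12 a22 b11 b12 b22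
  gw : GW (a1 • Pu V + a2 • Pv V) (b1 • Pu V + b2 • Pv V) f X1 X2 N3 N4 p q w1 w2
    a11 a12 a22 b11 b12 b22

section mapping

variable {A B : Type*} [CommRing A] [CommRing B] [Algebra ℝ A] [Algebra ℝ B]

theorem Fr.map (φ : A →ₐ[ℝ] B) {D1 D2 : Derivation ℝ A A} {E1 E2 : Derivation ℝ B B}
    (h1 : ∀ u, φ (D1 u) = E1 (φ u)) (h2 : ∀ u, φ (D2 u) = E2 (φ u))
    {f X1 X2 N3 N4 : Fin 4 → A} {p q : A} (F : Fr D1 D2 f X1 X2 N3 N4 p q)
    (ec : ∀ u, E1 (E2 u) - E2 (E1 u) = -φ p * E1 u + φ q * E2 u) :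
    Fr E1 E2 (vm φ f) (vm φ X1) (vm φ X2) (vm φ N3) (vm φ N4) (φ p) (φ q) := by
  refine ⟨F.on.map φ, ?_, ?_, ec⟩
  · rw [← F.x1, vd_map φ h1]
  · rw [← F.x2, vd_map φ h2]

theorem GW.map (φ : A →ₐ[ℝ] B) {D1 D2 : Derivation ℝ A A} {E1 E2 : Derivation ℝ B B}
    (h1 : ∀ u, φ (D1 u) = E1 (φ u)) (h2 : ∀ u, φ (D2 u) = E2 (φ u))
    {f X1 X2 N3 N4 : Fin 4 → A} {p q w1 w2 a11 a12 a22 b11 b12 b22 : A}
    (G : GW D1 D2 f X1 X2 N3 N4 p q w1 w2 a11 a12 a22 b11 b12 b22)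
    (ec : ∀ u, E1 (E2 u) - E2 (E1 u) = -φ p * E1 u + φ q * E2 u) :
    GW E1 E2 (vm φ f) (vm φ X1) (vm φ X2) (vm φ N3) (vm φ N4) (φ p) (φ q) (φ w1) (φ w2)
      (φ a11) (φ a12) (φ a22) (φ b11) (φ b12) (φ b22) := by
  refine ⟨G.fr.map φ h1 h2 ec, ?_, ?_, ?_, ?_, ?_, ?_, ?_, ?_⟩
  · rw [← vd_map φ h1, G.s11]
    simp only [vm_add, vm_smul]
  · rw [← vd_map φ h1, G.s12]
    simp only [vm_add, vm_smul, map_neg]
  · rw [← vd_map φ h2, G.s21]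
    simp only [vm_add, vm_smul, map_neg]
  · rw [← vd_map φ h2, G.s22]
    simp only [vm_add, vm_smul]
  · rw [← vd_map φ h1, G.t13]
    simp only [vm_add, vm_smul, map_neg]
  · rw [← vd_map φ h2, G.t23]
    simp only [vm_add, vm_smul, map_neg]
  · rw [← vd_map φ h1, G.t14]
    simp only [vm_add, vm_smul, map_neg]
  · rw [← vd_map φ h2, G.t24]
    simp only [vm_add, vm_smul, map_neg]

end mapping

section
variable {V W : TopologicalSpace.Opens (ℝ × ℝ)} {c : ℝ}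

/-- complete data can be restricted -/
theorem FD.restrict {f X1 X2 N3 N4 : Fin 4 → SF V}
    {a1 a2 b1 b2 p q h w1 w2 a11 a12 a22 b11 b12 b22 : SF V}
    (G : FD V c f X1 X2 N3 N4 a1 a2 b1 b2 p q h w1 w2 a11 a12 a22 b11 b12 b22) (hW : W ≤ V) :
    FD W c (vm (res hW) f) (vm (res hW) X1) (vm (res hW) X2) (vm (res hW) N3) (vm (res hW) N4)
      (res hW a1) (res hW a2) (res hW b1) (res hW b2) (res hW p) (res hW q) (res hW h)
      (res hW w1) (res hW w2) (res hW a11) (res hW a12) (res hW a22) (res hW b11) (res hW b12)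
      (res hW b22) := by
  have H := G.gd.restrict hW
  have cm := comb_map (res hW) (P1 := Pu V) (P2 := Pv V) (Q1 := Pu W) (Q2 := Pv W)
    (res_Pu hW) (res_Pv hW)
  exact ⟨H, G.gw.map (res hW) (fun u => cm a1 a2 u) (fun u => cm b1 b2 u) H.se.comm⟩

/-- the geometric data of a rotated frame on a smaller open set -/
theorem rotated_data {f X1 X2 N3 N4 : Fin 4 → SF V} {a1 a2 b1 b2 h : SF V}
    (F : CF (Pu V) (Pv V) f a1 a2 b1 b2 X1 X2 N3 N4)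
    (hl1 : ∀ i, lapc (Pu V) (Pv V) f (a1 * b2 - a2 * b1) (f i) = 2 * h * N3 i)
    (hl2 : ∀ i, lapc (Pu V) (Pv V) f (a1 * b2 - a2 * b1) (h * N3 i) =
      algebraMap ℝ (SF V) c * (h * N3 i))
    (hpos : ∀ x : V, 0 < h.1 x)
    (hne : ∀ x : V, ¬ ((Pu V h).1 x = 0 ∧ (Pv V h).1 x = 0))
    (hW : W ≤ V) (C S : SF W) (hCS : C ^ 2 + S ^ 2 = 1) :
    ∃ (f' X1' X2' N3' N4' : Fin 4 → SF W) (a1' a2' b1' b2' p q w1 w2 : SF W),
      FD W c f' X1' X2' N3' N4' a1' a2' b1' b2' p q (res hW h) w1 w2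
        (r11 C S (res hW (sf (Pu V) (Pv V) a1 a2 X1 N3)) (res hW (sf (Pu V) (Pv V) a1 a2 X2 N3))
          (res hW (sf (Pu V) (Pv V) b1 b2 X2 N3)))
        (r12 C S (res hW (sf (Pu V) (Pv V) a1 a2 X1 N3)) (res hW (sf (Pu V) (Pv V) a1 a2 X2 N3))
          (res hW (sf (Pu V) (Pv V) b1 b2 X2 N3)))
        (r22 C S (res hW (sf (Pu V) (Pv V) a1 a2 X1 N3)) (res hW (sf (Pu V) (Pv V) a1 a2 X2 N3))
          (res hW (sf (Pu V) (Pv V) b1 b2 X2 N3)))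
        (r11 C S (res hW (sf (Pu V) (Pv V) a1 a2 X1 N4)) (res hW (sf (Pu V) (Pv V) a1 a2 X2 N4))
          (res hW (sf (Pu V) (Pv V) b1 b2 X2 N4)))
        (r12 C S (res hW (sf (Pu V) (Pv V) a1 a2 X1 N4)) (res hW (sf (Pu V) (Pv V) a1 a2 X2 N4))
          (res hW (sf (Pu V) (Pv V) b1 b2 X2 N4)))
        (r22 C S (res hW (sf (Pu V) (Pv V) a1 a2 X1 N4)) (res hW (sf (Pu V) (Pv V) a1 a2 X2 N4))
          (res hW (sf (Pu V) (Pv V) b1 b2 X2 N4))) := by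
  obtain ⟨X1', X2', a1', a2', b1', b2', p, q, w1, w2, u, k1, k2, SS, GG⟩ :=
    rotated_abs (res hW) (res_Pu hW) (res_Pv hW) (P_comm W) F hl1 hl2 C S hCS
  refine ⟨_, X1', X2', _, _, a1', a2', b1', b2', p, q, w1, w2, ⟨u, k1, k2, SS, ?_, ?_⟩, GG⟩
  · intro x
    rw [res_val]
    exact hpos _
  · intro x
    rw [← res_Pu, ← res_Pv, res_val, res_val]
    exact hne _

/-- surfaces with commuting shape operators: principal frame -/
theorem flat_data (hV : (V : Set (ℝ × ℝ)).Nonempty) {f X1 X2 N3 N4 : Fin 4 → SF V}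
    {a1 a2 b1 b2 h : SF V}
    (F : CF (Pu V) (Pv V) f a1 a2 b1 b2 X1 X2 N3 N4)
    (hl1 : ∀ i, lapc (Pu V) (Pv V) f (a1 * b2 - a2 * b1) (f i) = 2 * h * N3 i)
    (hl2 : ∀ i, lapc (Pu V) (Pv V) f (a1 * b2 - a2 * b1) (h * N3 i) =
      algebraMap ℝ (SF V) c * (h * N3 i))
    (hpos : ∀ x : V, 0 < h.1 x)
    (hne : ∀ x : V, ¬ ((Pu V h).1 x = 0 ∧ (Pv V h).1 x = 0))
    (hK : sf (Pu V) (Pv V) a1 a2 X2 N3 *
        (sf (Pu V) (Pv V) a1 a2 X1 N4 - sf (Pu V) (Pv V) b1 b2 X2 N4) -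
      sf (Pu V) (Pv V) a1 a2 X2 N4 *
        (sf (Pu V) (Pv V) a1 a2 X1 N3 - sf (Pu V) (Pv V) b1 b2 X2 N3) = 0) :
    ∃ W : TopologicalSpace.Opens (ℝ × ℝ), (W : Set (ℝ × ℝ)).Nonempty ∧
      ∃ (f' X1' X2' N3' N4' : Fin 4 → SF W) (a1' a2' b1' b2' p q h' w1 w2 x y : SF W),
      FD W c f' X1' X2' N3' N4' a1' a2' b1' b2' p q h' w1 w2 (h' * (1 + x)) 0 (h' * (1 - x))
        (h' * y) 0 (-(h' * y)) := by
  obtain ⟨W, hW, hWn, C, S, hCS, e3, e4⟩ := principal hV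
    (sf (Pu V) (Pv V) a1 a2 X1 N3 - sf (Pu V) (Pv V) b1 b2 X2 N3)
    (sf (Pu V) (Pv V) a1 a2 X2 N3)
    (sf (Pu V) (Pv V) a1 a2 X1 N4 - sf (Pu V) (Pv V) b1 b2 X2 N4)
    (sf (Pu V) (Pv V) a1 a2 X2 N4) hK
  rw [map_sub] at e3 e4
  obtain ⟨f', X1', X2', N3', N4', a1', a2', b1', b2', p, q, w1, w2, G⟩ :=
    rotated_data F hl1 hl2 hpos hne hW C S hCS
  obtain ⟨hi, hhi⟩ := (unit_of_pos G.gd.hpos).exists_right_inv
  obtain ⟨x, y, SS, GG⟩ := normalize_abs (hf_two (V := W)) G.gd.se G.gw e3 e4 hhi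
  exact ⟨W, hWn, f', X1', X2', N3', N4', a1', a2', b1', b2', p, q, res hW h, w1, w2, x, y,
    ⟨G.gd.du, G.gd.br1, G.gd.br2, SS, G.gd.hpos, G.gd.hne⟩, GG⟩

end

end N4
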