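import Pool.Agent.Helper58.N4.Patch

set_option autoImplicit false

/-!
# From a patch with nonconstant mean curvature to an orthonormal frame on an open set
-/

namespace N4

open scoped ContDiff Topology

section ring
variable {A : Type*} [CommRing A] [Algebra ℝ A]

theorem lapc_const (P1 P2 : Derivation ℝ A A) (f : Fin 4 → A) (si u : A) (r : ℝ) :
    lapc P1 P2 f si (algebraMap ℝ A r * u) = algebraMap ℝ A r * lapc P1 P2 f si u := by
  have h : ∀ (P : Derivation ℝ A A) (v : A), P (algebraMap ℝ A r * v) =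
      algebraMap ℝ A r * P v := by
    intro P v
    rw [Derivation.leibniz, Derivation.map_algebraMap]
    simp
  unfold lapc
  rw [h P1 u, h P2 u]
  have e1 : si * (dt (vd P2 f) (vd P2 f) * (algebraMap ℝ A r * P1 u) -
      dt (vd P1 f) (vd P2 f) * (algebraMap ℝ A r * P2 u)) = algebraMap ℝ A r *
      (si * (dt (vd P2 f) (vd P2 f) * P1 u - dt (vd P1 f) (vd P2 f) * P2 u)) := by ring
  have e2 : si * (dt (vd P1 f) (vd P1 f) * (algebraMap ℝ A r * P2 u) -
      dt (vd P1 f) (vd P2 f) * (algebraMap ℝ A r * P1 u)) = algebraMap ℝ A r *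
      (si * (dt (vd P1 f) (vd P1 f) * P2 u - dt (vd P1 f) (vd P2 f) * P1 u)) := by ring
  rw [e1, e2, h, h]
  ring

end ring

section
variable {U : Set (ℝ × ℝ)} {f : ℝ × ℝ → EuclideanSpace ℝ (Fin 4)} {g11 g12 g22 dtf : ℝ × ℝ → ℝ}
  {Lap : (ℝ × ℝ → EuclideanSpace ℝ (Fin 4)) → ℝ × ℝ → EuclideanSpace ℝ (Fin 4)}
  {V : TopologicalSpace.Opens (ℝ × ℝ)}

/-- the root of the determinant -/
noncomputable def Patch.ss (P : Patch U f g11 g12 g22 dtf Lap) (hV : (V : Set (ℝ × ℝ)) ⊆ U) :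
    SF V := N4.mk V (fun q => Real.sqrt (dtf q))
      ((P.smdt hV).sqrt (fun q hq => (P.pos q (hV hq)).ne'))

theorem Patch.ss_si (P : Patch U f g11 g12 g22 dtf Lap) (hV : (V : Set (ℝ × ℝ)) ⊆ U) :
    P.ss hV * P.si hV = 1 := by
  apply sf_ext
  intro x
  show Real.sqrt (dtf x) * (Real.sqrt (dtf x))⁻¹ = 1
  exact mul_inv_cancel₀ (Real.sqrt_pos.mpr (P.pos x (hV x.2))).ne'

theorem Patch.ss_sq (P : Patch U f g11 g12 g22 dtf Lap) (hV : (V : Set (ℝ × ℝ)) ⊆ U) :
    P.ss hV * P.ss hV = dt (vd (Pu V) (vec V f (P.smf hV))) (vd (Pu V) (vec V f (P.smf hV))) *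
      dt (vd (Pv V) (vec V f (P.smf hV))) (vd (Pv V) (vec V f (P.smf hV))) -
      dt (vd (Pu V) (vec V f (P.smf hV))) (vd (Pv V) (vec V f (P.smf hV))) ^ 2 := by
  rw [← P.m11 hV, ← P.m12 hV, ← P.m22 hV]
  apply sf_ext
  intro x
  show Real.sqrt (dtf x) * Real.sqrt (dtf x) = g11 x * g22 x - g12 x ^ 2
  rw [Real.mul_self_sqrt (P.pos x (hV x.2)).le, P.hdt]

theorem Patch.pos11 (P : Patch U f g11 g12 g22 dtf Lap) {p : ℝ × ℝ} (hp : p ∈ U) :
    0 < g11 p := by
  have h0 := P.pos p hp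
  rw [P.hdt] at h0
  have h1 : 0 ≤ g11 p := by
    rw [P.h11]
    exact real_inner_self_nonneg
  rcases h1.lt_or_eq with h2 | h2
  · exact h2
  · exfalso
    rw [← h2] at h0
    nlinarith [sq_nonneg (g12 p)]

/-- the Laplacian of the position vector is normal -/
theorem Patch.lap_normal (P : Patch U f g11 g12 g22 dtf Lap) (hV : (V : Set (ℝ × ℝ)) ⊆ U) :
    dt (vec V (Lap f) (P.sm_lap hV f (P.smf hV))) (vd (Pu V) (vec V f (P.smf hV))) = 0 ∧
    dt (vec V (Lap f) (P.sm_lap hV f (P.smf hV))) (vd (Pv V) (vec V f (P.smf hV))) = 0 := by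
  have e : vec V (Lap f) (P.sm_lap hV f (P.smf hV)) =
      fun i => lapc (Pu V) (Pv V) (vec V f (P.smf hV)) (P.si hV) (vec V f (P.smf hV) i) := by
    funext i
    exact P.vec_lap hV f (P.smf hV) i
  rw [e]
  exact ⟨lapc_normal_one (P_comm V) _ _ _ (P.ss_sq hV) (P.ss_si hV),
    lapc_normal_two (P_comm V) _ _ _ (P.ss_sq hV) (P.ss_si hV)⟩

/-- nonconstant mean curvature gives an open set with nonvanishing mean curvature and gradient -/
theorem Patch.exists_open (P : Patch U f g11 g12 g22 dtf Lap)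
    (hn : ¬ ∃ k : ℝ, ∀ p ∈ U, ‖Lap f p‖ = k) :
    ∃ (V : TopologicalSpace.Opens (ℝ × ℝ)) (hV : (V : Set (ℝ × ℝ)) ⊆ U),
      (V : Set (ℝ × ℝ)).Nonempty ∧
      (∀ x : V, 0 < (dt (vec V (Lap f) (P.sm_lap hV f (P.smf hV)))
        (vec V (Lap f) (P.sm_lap hV f (P.smf hV)))).1 x) ∧
      (∀ x : V, ¬ ((Pu V (dt (vec V (Lap f) (P.sm_lap hV f (P.smf hV)))
        (vec V (Lap f) (P.sm_lap hV f (P.smf hV))))).1 x = 0 ∧
        (Pv V (dt (vec V (Lap f) (P.sm_lap hV f (P.smf hV)))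
        (vec V (Lap f) (P.sm_lap hV f (P.smf hV))))).1 x = 0)) := by
  set U0 : TopologicalSpace.Opens (ℝ × ℝ) := ⟨U, P.op⟩ with hU0
  have hUU : (U0 : Set (ℝ × ℝ)) ⊆ U := fun x hx => hx
  set n2 : ℝ × ℝ → ℝ := fun p => inner ℝ (Lap f p) (Lap f p) with hn2
  have sm : ∀ V : TopologicalSpace.Opens (ℝ × ℝ), (V : Set (ℝ × ℝ)) ⊆ U →
      ContDiffOn ℝ ∞ n2 V := by
    intro V hV
    have hL := P.sm_lap hV f (P.smf hV)
    exact hL.inner ℝ hL
  have dtn : ∀ (V : TopologicalSpace.Opens (ℝ × ℝ)) (hV : (V : Set (ℝ × ℝ)) ⊆ U),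
      dt (vec V (Lap f) (P.sm_lap hV f (P.smf hV))) (vec V (Lap f) (P.sm_lap hV f (P.smf hV))) =
      N4.mk V n2 (sm V hV) := by
    intro V hV
    apply sf_ext
    intro x
    rw [dt_vec, mk_val]
  -- the gradient does not vanish identically
  have hgrad : ¬ (Pu U0 (N4.mk U0 n2 (sm U0 hUU)) = 0 ∧ Pv U0 (N4.mk U0 n2 (sm U0 hUU)) = 0) := by
    rintro ⟨h1, h2⟩
    apply hn
    have hz : ∀ q ∈ U, fderiv ℝ n2 q = 0 := by
      intro q hq
      have e1 : fderiv ℝ n2 q (1, 0) = 0 := by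
        have := congrArg (fun t : SF U0 => t.1 ⟨q, hq⟩) h1
        rw [Pu, pd_mk] at this
        exact this
      have e2 : fderiv ℝ n2 q (0, 1) = 0 := by
        have := congrArg (fun t : SF U0 => t.1 ⟨q, hq⟩) h2
        rw [Pv, pd_mk] at this
        exact this
      apply ContinuousLinearMap.ext
      intro v
      have h3 : v = v.1 • ((1, 0) : ℝ × ℝ) + v.2 • ((0, 1) : ℝ × ℝ) := by
        ext <;> simp
      rw [h3, map_add, map_smul, map_smul, e1, e2]
      simp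
    have hd : DifferentiableOn ℝ n2 U := (sm U0 hUU).differentiableOn (by simp)
    obtain ⟨q0, hq0⟩ := P.conn.nonempty
    refine ⟨‖Lap f q0‖, ?_⟩
    intro p hp
    have hc : n2 p = n2 q0 :=
      P.op.is_const_of_fderiv_eq_zero P.conn.isPreconnected hd
        (fun q hq => hz q hq) hp hq0
    have e1 : ‖Lap f p‖ ^ 2 = ‖Lap f q0‖ ^ 2 := by
      rw [← real_inner_self_eq_norm_sq, ← real_inner_self_eq_norm_sq]
      exact hc
    exact (sq_eq_sq₀ (norm_nonneg _) (norm_nonneg _)).mp e1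
  -- a smaller open set on which the gradient has no zeros
  have hW1 : ∃ W : TopologicalSpace.Opens (ℝ × ℝ), W ≤ U0 ∧ (W : Set (ℝ × ℝ)).Nonempty ∧
      ∀ x : W, ¬ (fderiv ℝ n2 x (1, 0) = 0 ∧ fderiv ℝ n2 x (0, 1) = 0) := by
    rcases not_and_or.mp hgrad with h | h
    · obtain ⟨W, hW, hWn, -, hne⟩ := zero_or_unit U0 _ h
      refine ⟨W, hW, hWn, ?_⟩
      rintro x ⟨h1, -⟩
      apply hne x
      rw [res_val, Pu, pd_mk]
      exact h1
    · obtain ⟨W, hW, hWn, -, hne⟩ := zero_or_unit U0 _ h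
      refine ⟨W, hW, hWn, ?_⟩
      rintro x ⟨-, h1⟩
      apply hne x
      rw [res_val, Pv, pd_mk]
      exact h1
  obtain ⟨W, hW, hWn, hWx⟩ := hW1
  have hWU : (W : Set (ℝ × ℝ)) ⊆ U := fun x hx => hW hx
  have hnz : N4.mk W n2 (sm W hWU) ≠ 0 := by
    intro h0
    obtain ⟨x, hx⟩ := hWn
    apply hWx ⟨x, hx⟩
    constructor
    · have := congrArg (fun t : SF W => (Pu W t).1 ⟨x, hx⟩) h0
      simp only [map_zero] at this
      rw [Pu, pd_mk] at this
      exact this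
    · have := congrArg (fun t : SF W => (Pv W t).1 ⟨x, hx⟩) h0
      simp only [map_zero] at this
      rw [Pv, pd_mk] at this
      exact this
  obtain ⟨V, hVW, hVn, -, hVne⟩ := zero_or_unit W _ hnz
  have hVU : (V : Set (ℝ × ℝ)) ⊆ U := fun x hx => hWU (hVW hx)
  refine ⟨V, hVU, hVn, ?_, ?_⟩
  · intro x
    rw [dtn V hVU, mk_val]
    have h1 := hVne x
    rw [res_mk, mk_val] at h1
    have h2 : 0 ≤ n2 x := real_inner_self_nonneg
    exact lt_of_le_of_ne h2 (Ne.symm h1)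
  · intro x
    rw [dtn V hVU, Pu, Pv, pd_mk, pd_mk, mk_val, mk_val]
    exact hWx ⟨x, hVW x.2⟩

/-- the local frame -/
theorem Patch.local_frame (P : Patch U f g11 g12 g22 dtf Lap) {c : ℝ}
    (hc : ∀ p ∈ U, Lap (Lap f) p = c • Lap f p)
    (hn : ¬ ∃ k : ℝ, ∀ p ∈ U, ‖Lap f p‖ = k) :
    ∃ (V : TopologicalSpace.Opens (ℝ × ℝ)) (hV : (V : Set (ℝ × ℝ)) ⊆ U),
      (V : Set (ℝ × ℝ)).Nonempty ∧
      ∃ (a1 a2 b1 b2 h : SF V) (X1 X2 N3 N4 : Fin 4 → SF V),
        CF (Pu V) (Pv V) (vec V f (P.smf hV)) a1 a2 b1 b2 X1 X2 N3 N4 ∧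
        (∀ i, lapc (Pu V) (Pv V) (vec V f (P.smf hV)) (a1 * b2 - a2 * b1)
          (vec V f (P.smf hV) i) = 2 * h * N3 i) ∧
        (∀ i, lapc (Pu V) (Pv V) (vec V f (P.smf hV)) (a1 * b2 - a2 * b1) (h * N3 i) =
          algebraMap ℝ (SF V) c * (h * N3 i)) ∧
        (∀ x : V, 0 < h.1 x) ∧
        (∀ x : V, ¬ ((Pu V h).1 x = 0 ∧ (Pv V h).1 x = 0)) ∧
        (∀ i, vec V (Lap f) (P.sm_lap hV f (P.smf hV)) i = 2 * h * N3 i) := by
  obtain ⟨V, hV, hVn, hpos, hgr⟩ := P.exists_open hn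
  refine ⟨V, hV, hVn, ?_⟩
  set F := vec V f (P.smf hV) with hF
  set L := vec V (Lap f) (P.sm_lap hV f (P.smf hV)) with hL
  set n2 := dt L L with hn2
  obtain ⟨m, hm, hmp⟩ := exists_sqrt V n2 hpos
  obtain ⟨mi, hmi⟩ := (unit_of_pos hmp).exists_right_inv
  obtain ⟨l1, l2⟩ := P.lap_normal hV
  rw [← hF, ← hL] at l1 l2
  have hg11 : ∀ x : V, 0 < (dt (vd (Pu V) F) (vd (Pu V) F)).1 x := by
    intro x
    rw [hF, ← P.m11 hV, mk_val]
    exact P.pos11 (hV x.2)
  obtain ⟨r, hr, hrp⟩ := exists_sqrt V _ hg11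
  obtain ⟨ri, hri⟩ := (unit_of_pos hrp).exists_right_inv
  set N3 : Fin 4 → SF V := mi • L with hN3
  have h33 : dt N3 N3 = 1 := by
    rw [hN3, dt_smul_left, dt_smul_right, ← hn2, ← hm]
    linear_combination (m * mi + 1) * hmi
  have h31 : dt (vd (Pu V) F) N3 = 0 := by
    rw [hN3, dt_smul_right, dt_comm, l1, mul_zero]
  have h32 : dt (vd (Pv V) F) N3 = 0 := by
    rw [hN3, dt_smul_right, dt_comm, l2, mul_zero]
  obtain ⟨b1, X1, X2, N4, CFF⟩ := gram_schmidt (Pu V) (Pv V) (P_comm V) F N3 r (P.ss hV) ri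
    (P.si hV) hr hri (P.ss_sq hV) (P.ss_si hV) h33 h31 h32
  have hdet : ri * (r * P.si hV) - 0 * b1 = P.si hV := by
    linear_combination (P.si hV) * hri
  have h2 := hf_two (V := V)
  have hLN : ∀ i, L i = 2 * (hf V * m) * N3 i := by
    intro i
    show L i = 2 * (hf V * m) * (mi * L i)
    linear_combination (-(2 * hf V * L i)) * hmi - (L i) * h2
  refine ⟨ri, 0, b1, r * P.si hV, hf V * m, X1, X2, N3, N4, CFF, ?_, ?_, ?_, ?_, hLN⟩
  · intro i
    rw [hdet, ← P.vec_lap hV f (P.smf hV) i]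
    exact hLN i
  · intro i
    have e1 : hf V * m * N3 i = algebraMap ℝ (SF V) (1 / 2) * L i := by
      show hf V * m * (mi * L i) = hf V * L i
      linear_combination (hf V * L i) * hmi
    have e2 : lapc (Pu V) (Pv V) F (P.si hV) (L i) = algebraMap ℝ (SF V) c * L i := by
      rw [hL, ← P.vec_lap hV (Lap f) (P.sm_lap hV f (P.smf hV)) i]
      apply sf_ext
      intro x
      have h := congrArg (fun t : EuclideanSpace ℝ (Fin 4) => t i) (hc x (hV x.2))
      exact h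
    rw [hdet, e1, lapc_const, e2]
    ring
  · intro x
    rw [val_mul, hf, val_const]
    have := hmp x
    positivity
  · rintro x ⟨h1, h3⟩
    apply hgr x
    have ePu : Pu V (hf V * m) = hf V * Pu V m := by
      rw [Derivation.leibniz, hf, Derivation.map_algebraMap]
      simp
    have ePv : Pv V (hf V * m) = hf V * Pv V m := by
      rw [Derivation.leibniz, hf, Derivation.map_algebraMap]
      simp
    rw [ePu, val_mul, hf, val_const] at h1
    rw [ePv, val_mul, hf, val_const] at h3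
    have k1 : (Pu V m).1 x = 0 := by linarith
    have k2 : (Pv V m).1 x = 0 := by linarith
    have eu : Pu V n2 = m * Pu V m + m * Pu V m := by
      rw [← hm, Derivation.leibniz]
      rfl
    have ev : Pv V n2 = m * Pv V m + m * Pv V m := by
      rw [← hm, Derivation.leibniz]
      rfl
    constructor
    · show (Pu V n2).1 x = 0
      rw [eu, val_add, val_mul, k1]
      ring
    · show (Pv V n2).1 x = 0
      rw [ev, val_add, val_mul, k2]
      ring

end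

end N4
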