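import Mathlib

set_option autoImplicit false

/-!
# Surface patches in Euclidean four-space: definitions used in the statements
-/

namespace NullTwo

/-- derivative in the first coordinate direction -/
noncomputable def du (f : ℝ × ℝ → EuclideanSpace ℝ (Fin 4)) (p : ℝ × ℝ) :
    EuclideanSpace ℝ (Fin 4) := fderiv ℝ f p (1, 0)

/-- derivative in the second coordinate direction -/
noncomputable def dv (f : ℝ × ℝ → EuclideanSpace ℝ (Fin 4)) (p : ℝ × ℝ) :
    EuclideanSpace ℝ (Fin 4) := fderiv ℝ f p (0, 1)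

/-- first coefficient of the first fundamental form -/
noncomputable def gE (f : ℝ × ℝ → EuclideanSpace ℝ (Fin 4)) (p : ℝ × ℝ) : ℝ :=
  inner ℝ (du f p) (du f p)

/-- mixed coefficient of the first fundamental form -/
noncomputable def gF (f : ℝ × ℝ → EuclideanSpace ℝ (Fin 4)) (p : ℝ × ℝ) : ℝ :=
  inner ℝ (du f p) (dv f p)

/-- last coefficient of the first fundamental form -/
noncomputable def gG (f : ℝ × ℝ → EuclideanSpace ℝ (Fin 4)) (p : ℝ × ℝ) : ℝ :=
  inner ℝ (dv f p) (dv f p)

/-- determinant of the first fundamental form -/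
noncomputable def gD (f : ℝ × ℝ → EuclideanSpace ℝ (Fin 4)) (p : ℝ × ℝ) : ℝ :=
  gE f p * gG f p - gF f p ^ 2

/-- the Laplace-Beltrami operator of the induced metric of `f`, applied to a vector valued
function `u` -/
noncomputable def lap (f u : ℝ × ℝ → EuclideanSpace ℝ (Fin 4)) (p : ℝ × ℝ) :
    EuclideanSpace ℝ (Fin 4) :=
  (Real.sqrt (gD f p))⁻¹ •
    (du (fun q => (Real.sqrt (gD f q))⁻¹ • (gG f q • du u q - gF f q • dv u q)) p +
     dv (fun q => (Real.sqrt (gD f q))⁻¹ • (gE f q • dv u q - gF f q • du u q)) p)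

/-- normal vectors of the patch at a point -/
def IsNormal (f : ℝ × ℝ → EuclideanSpace ℝ (Fin 4)) (p : ℝ × ℝ)
    (ξ : EuclideanSpace ℝ (Fin 4)) : Prop :=
  inner ℝ (du f p) ξ = 0 ∧ inner ℝ (dv f p) ξ = 0

/-- the coordinate expression which vanishes exactly if the shape operators in the normal
directions `ξ` and `η` commute -/
noncomputable def shapeComm (f : ℝ × ℝ → EuclideanSpace ℝ (Fin 4)) (p : ℝ × ℝ)
    (ξ η : EuclideanSpace ℝ (Fin 4)) : ℝ :=
  gG f p * (inner ℝ (du (du f) p) ξ * inner ℝ (du (dv f) p) η -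
      inner ℝ (du (du f) p) η * inner ℝ (du (dv f) p) ξ) -
    gF f p * (inner ℝ (du (du f) p) ξ * inner ℝ (dv (dv f) p) η -
      inner ℝ (du (du f) p) η * inner ℝ (dv (dv f) p) ξ) +
    gE f p * (inner ℝ (du (dv f) p) ξ * inner ℝ (dv (dv f) p) η -
      inner ℝ (du (dv f) p) η * inner ℝ (dv (dv f) p) ξ)

end NullTwo
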