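import Pool.Agent.Helper58.N4.Flat

set_option autoImplicit false

/-!
# From a coordinate patch to the ring of smooth functions
-/

namespace N4

open scoped ContDiff Topology

section
variable {V : TopologicalSpace.Opens (ℝ × ℝ)}

/-- components of a vector valued function -/
noncomputable def vec (V : TopologicalSpace.Opens (ℝ × ℝ)) (F : ℝ × ℝ → EuclideanSpace ℝ (Fin 4))
    (hF : ContDiffOn ℝ ∞ F V) : Fin 4 → SF V :=
  fun i => mk V (fun q => F q i) ((contDiffOn_euclidean.mp hF) i)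

theorem vec_val (F : ℝ × ℝ → EuclideanSpace ℝ (Fin 4)) (hF : ContDiffOn ℝ ∞ F V) (i : Fin 4)
    (q : V) : (vec V F hF i).1 q = F q i := rfl

theorem smooth_fderivE (F : ℝ × ℝ → EuclideanSpace ℝ (Fin 4)) (hF : ContDiffOn ℝ ∞ F V)
    (v : ℝ × ℝ) : ContDiffOn ℝ ∞ (fun q => fderiv ℝ F q v) V := by
  have h1 : ContDiffOn ℝ ∞ (fderiv ℝ F) V :=
    hF.fderiv_of_isOpen V.isOpen (by exact le_rfl)
  exact h1.clm_apply contDiffOn_const

theorem diff_atE (F : ℝ × ℝ → EuclideanSpace ℝ (Fin 4)) (hF : ContDiffOn ℝ ∞ F V) (q : ℝ × ℝ)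
    (hq : q ∈ V) : DifferentiableAt ℝ F q :=
  (hF.contDiffAt (V.isOpen.mem_nhds hq)).differentiableAt (by simp)

theorem fderiv_comp_coord (F : ℝ × ℝ → EuclideanSpace ℝ (Fin 4)) (q v : ℝ × ℝ)
    (h : DifferentiableAt ℝ F q) (i : Fin 4) :
    fderiv ℝ (fun x => F x i) q v = (fderiv ℝ F q v) i := by
  have h2 := (EuclideanSpace.proj i : EuclideanSpace ℝ (Fin 4) →L[ℝ] ℝ).hasFDerivAt.comp q
    h.hasFDerivAt
  have h3 := h2.fderiv
  have h4 : fderiv ℝ (fun x => F x i) q =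
      (EuclideanSpace.proj i : EuclideanSpace ℝ (Fin 4) →L[ℝ] ℝ).comp (fderiv ℝ F q) := h3
  rw [h4]
  rfl

theorem vec_fderiv (F : ℝ × ℝ → EuclideanSpace ℝ (Fin 4)) (hF : ContDiffOn ℝ ∞ F V)
    (v : ℝ × ℝ) (i : Fin 4) :
    pd V v (vec V F hF i) = vec V (fun q => fderiv ℝ F q v) (smooth_fderivE F hF v) i := by
  unfold vec
  rw [pd_mk, mk_eq_iff]
  intro q hq
  exact fderiv_comp_coord F q v (diff_atE F hF q hq) i

theorem vd_vec (F : ℝ × ℝ → EuclideanSpace ℝ (Fin 4)) (hF : ContDiffOn ℝ ∞ F V)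
    (v : ℝ × ℝ) :
    vd (pd V v) (vec V F hF) = vec V (fun q => fderiv ℝ F q v) (smooth_fderivE F hF v) := by
  funext i
  exact vec_fderiv F hF v i

theorem inner_four (x y : EuclideanSpace ℝ (Fin 4)) :
    inner ℝ x y = x 0 * y 0 + x 1 * y 1 + x 2 * y 2 + x 3 * y 3 := by
  rw [PiLp.inner_apply, Fin.sum_univ_four]
  simp only [RCLike.inner_apply, conj_trivial]
  ring

theorem dt_val (u v : Fin 4 → SF V) (q : V) :
    (dt u v).1 q = (u 0).1 q * (v 0).1 q + (u 1).1 q * (v 1).1 q + (u 2).1 q * (v 2).1 q +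
      (u 3).1 q * (v 3).1 q := rfl

theorem dt_vec (F G : ℝ × ℝ → EuclideanSpace ℝ (Fin 4)) (hF : ContDiffOn ℝ ∞ F V)
    (hG : ContDiffOn ℝ ∞ G V) (q : V) :
    (dt (vec V F hF) (vec V G hG)).1 q = inner ℝ (F q) (G q) := by
  rw [dt_val, inner_four]
  rfl

/-- the vector of values at a point -/
noncomputable def at4 (u : Fin 4 → SF V) (q : V) : EuclideanSpace ℝ (Fin 4) :=
  WithLp.toLp 2 (fun i => (u i).1 q)

theorem at4_apply (u : Fin 4 → SF V) (q : V) (i : Fin 4) : at4 u q i = (u i).1 q := rfl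

theorem dt_at4 (F : ℝ × ℝ → EuclideanSpace ℝ (Fin 4)) (hF : ContDiffOn ℝ ∞ F V)
    (u : Fin 4 → SF V) (q : V) : (dt (vec V F hF) u).1 q = inner ℝ (F q) (at4 u q) := by
  rw [dt_val, inner_four]
  rfl

end

/-- the data of a coordinate patch as in the statement -/
structure Patch (U : Set (ℝ × ℝ)) (f : ℝ × ℝ → EuclideanSpace ℝ (Fin 4))
    (g11 g12 g22 dtf : ℝ × ℝ → ℝ)
    (Lap : (ℝ × ℝ → EuclideanSpace ℝ (Fin 4)) → ℝ × ℝ → EuclideanSpace ℝ (Fin 4)) : Prop where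
  op : IsOpen U
  conn : IsConnected U
  sm : ContDiffOn ℝ ∞ f U
  h11 : ∀ p, g11 p = inner ℝ (fderiv ℝ f p (1, 0)) (fderiv ℝ f p (1, 0))
  h12 : ∀ p, g12 p = inner ℝ (fderiv ℝ f p (1, 0)) (fderiv ℝ f p (0, 1))
  h22 : ∀ p, g22 p = inner ℝ (fderiv ℝ f p (0, 1)) (fderiv ℝ f p (0, 1))
  hdt : ∀ p, dtf p = g11 p * g22 p - g12 p ^ 2
  pos : ∀ p ∈ U, 0 < dtf p
  lap : ∀ (u : ℝ × ℝ → EuclideanSpace ℝ (Fin 4)) (p : ℝ × ℝ),
      Lap u p = (Real.sqrt (dtf p))⁻¹ •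
        (fderiv ℝ (fun q => (Real.sqrt (dtf q))⁻¹ •
            (g22 q • fderiv ℝ u q (1, 0) - g12 q • fderiv ℝ u q (0, 1))) p (1, 0) +
         fderiv ℝ (fun q => (Real.sqrt (dtf q))⁻¹ •
            (g11 q • fderiv ℝ u q (0, 1) - g12 q • fderiv ℝ u q (1, 0))) p (0, 1))

section
variable {U : Set (ℝ × ℝ)} {f : ℝ × ℝ → EuclideanSpace ℝ (Fin 4)} {g11 g12 g22 dtf : ℝ × ℝ → ℝ}
  {Lap : (ℝ × ℝ → EuclideanSpace ℝ (Fin 4)) → ℝ × ℝ → EuclideanSpace ℝ (Fin 4)}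
  {V : TopologicalSpace.Opens (ℝ × ℝ)}

theorem Patch.smf (P : Patch U f g11 g12 g22 dtf Lap) (hV : (V : Set (ℝ × ℝ)) ⊆ U) :
    ContDiffOn ℝ ∞ f V := P.sm.mono hV

theorem Patch.sm11 (P : Patch U f g11 g12 g22 dtf Lap) (hV : (V : Set (ℝ × ℝ)) ⊆ U) :
    ContDiffOn ℝ ∞ g11 V := by
  have h := ContDiffOn.inner ℝ (smooth_fderivE f (P.smf hV) (1, 0))
    (smooth_fderivE f (P.smf hV) (1, 0))
  exact h.congr (fun q _ => P.h11 q)

theorem Patch.sm12 (P : Patch U f g11 g12 g22 dtf Lap) (hV : (V : Set (ℝ × ℝ)) ⊆ U) :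
    ContDiffOn ℝ ∞ g12 V := by
  have h := ContDiffOn.inner ℝ (smooth_fderivE f (P.smf hV) (1, 0))
    (smooth_fderivE f (P.smf hV) (0, 1))
  exact h.congr (fun q _ => P.h12 q)

theorem Patch.sm22 (P : Patch U f g11 g12 g22 dtf Lap) (hV : (V : Set (ℝ × ℝ)) ⊆ U) :
    ContDiffOn ℝ ∞ g22 V := by
  have h := ContDiffOn.inner ℝ (smooth_fderivE f (P.smf hV) (0, 1))
    (smooth_fderivE f (P.smf hV) (0, 1))
  exact h.congr (fun q _ => P.h22 q)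

theorem Patch.smdt (P : Patch U f g11 g12 g22 dtf Lap) (hV : (V : Set (ℝ × ℝ)) ⊆ U) :
    ContDiffOn ℝ ∞ dtf V := by
  have h := ((P.sm11 hV).mul (P.sm22 hV)).sub ((P.sm12 hV).pow 2)
  exact h.congr (fun q _ => P.hdt q)

theorem Patch.smsi (P : Patch U f g11 g12 g22 dtf Lap) (hV : (V : Set (ℝ × ℝ)) ⊆ U) :
    ContDiffOn ℝ ∞ (fun q => (Real.sqrt (dtf q))⁻¹) V := by
  have h : ContDiffOn ℝ ∞ (fun q => Real.sqrt (dtf q)) V :=
    (P.smdt hV).sqrt (fun q hq => (P.pos q (hV hq)).ne')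
  exact h.inv (fun q hq => (Real.sqrt_pos.mpr (P.pos q (hV hq))).ne')

/-- the inverse root of the determinant as an element of `SF V` -/
noncomputable def Patch.si (P : Patch U f g11 g12 g22 dtf Lap) (hV : (V : Set (ℝ × ℝ)) ⊆ U) :
    SF V := N4.mk V (fun q => (Real.sqrt (dtf q))⁻¹) (P.smsi hV)

theorem Patch.m11 (P : Patch U f g11 g12 g22 dtf Lap) (hV : (V : Set (ℝ × ℝ)) ⊆ U) :
    N4.mk V g11 (P.sm11 hV) = dt (vd (Pu V) (vec V f (P.smf hV))) (vd (Pu V) (vec V f (P.smf hV))) := by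
  apply sf_ext
  intro q
  rw [Pu, vd_vec, dt_vec, mk_val]
  exact P.h11 q

theorem Patch.m12 (P : Patch U f g11 g12 g22 dtf Lap) (hV : (V : Set (ℝ × ℝ)) ⊆ U) :
    N4.mk V g12 (P.sm12 hV) = dt (vd (Pu V) (vec V f (P.smf hV))) (vd (Pv V) (vec V f (P.smf hV))) := by
  apply sf_ext
  intro q
  rw [Pu, Pv, vd_vec, vd_vec, dt_vec, mk_val]
  exact P.h12 q

theorem Patch.m22 (P : Patch U f g11 g12 g22 dtf Lap) (hV : (V : Set (ℝ × ℝ)) ⊆ U) :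
    N4.mk V g22 (P.sm22 hV) = dt (vd (Pv V) (vec V f (P.smf hV))) (vd (Pv V) (vec V f (P.smf hV))) := by
  apply sf_ext
  intro q
  rw [Pv, vd_vec, dt_vec, mk_val]
  exact P.h22 q

theorem Patch.sm_g1 (P : Patch U f g11 g12 g22 dtf Lap) (hV : (V : Set (ℝ × ℝ)) ⊆ U)
    (u : ℝ × ℝ → EuclideanSpace ℝ (Fin 4)) (hu : ContDiffOn ℝ ∞ u V) :
    ContDiffOn ℝ ∞ (fun q => (Real.sqrt (dtf q))⁻¹ •
            (g22 q • fderiv ℝ u q (1, 0) - g12 q • fderiv ℝ u q (0, 1))) V :=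
  (P.smsi hV).smul (((P.sm22 hV).smul (smooth_fderivE u hu (1, 0))).sub
    ((P.sm12 hV).smul (smooth_fderivE u hu (0, 1))))

theorem Patch.sm_g2 (P : Patch U f g11 g12 g22 dtf Lap) (hV : (V : Set (ℝ × ℝ)) ⊆ U)
    (u : ℝ × ℝ → EuclideanSpace ℝ (Fin 4)) (hu : ContDiffOn ℝ ∞ u V) :
    ContDiffOn ℝ ∞ (fun q => (Real.sqrt (dtf q))⁻¹ •
            (g11 q • fderiv ℝ u q (0, 1) - g12 q • fderiv ℝ u q (1, 0))) V :=
  (P.smsi hV).smul (((P.sm11 hV).smul (smooth_fderivE u hu (0, 1))).sub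
    ((P.sm12 hV).smul (smooth_fderivE u hu (1, 0))))

theorem Patch.sm_lap (P : Patch U f g11 g12 g22 dtf Lap) (hV : (V : Set (ℝ × ℝ)) ⊆ U)
    (u : ℝ × ℝ → EuclideanSpace ℝ (Fin 4)) (hu : ContDiffOn ℝ ∞ u V) :
    ContDiffOn ℝ ∞ (Lap u) V := by
  have h := (P.smsi hV).smul ((smooth_fderivE _ (P.sm_g1 hV u hu) (1, 0)).add
    (smooth_fderivE _ (P.sm_g2 hV u hu) (0, 1)))
  exact h.congr (fun q _ => P.lap u q)

/-- the Laplacian of the statement is the coordinate Laplacian of the ring -/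
theorem Patch.vec_lap (P : Patch U f g11 g12 g22 dtf Lap) (hV : (V : Set (ℝ × ℝ)) ⊆ U)
    (u : ℝ × ℝ → EuclideanSpace ℝ (Fin 4)) (hu : ContDiffOn ℝ ∞ u V) (i : Fin 4) :
    vec V (Lap u) (P.sm_lap hV u hu) i =
      lapc (Pu V) (Pv V) (vec V f (P.smf hV)) (P.si hV) (vec V u hu i) := by
  have e1 : P.si hV * (dt (vd (Pv V) (vec V f (P.smf hV))) (vd (Pv V) (vec V f (P.smf hV))) *
      Pu V (vec V u hu i) - dt (vd (Pu V) (vec V f (P.smf hV))) (vd (Pv V) (vec V f (P.smf hV))) *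
      Pv V (vec V u hu i)) = vec V _ (P.sm_g1 hV u hu) i := by
    rw [← P.m12 hV, ← P.m22 hV, Pu, Pv, vec_fderiv, vec_fderiv]
    apply sf_ext
    intro q
    rfl
  have e2 : P.si hV * (dt (vd (Pu V) (vec V f (P.smf hV))) (vd (Pu V) (vec V f (P.smf hV))) *
      Pv V (vec V u hu i) - dt (vd (Pu V) (vec V f (P.smf hV))) (vd (Pv V) (vec V f (P.smf hV))) *
      Pu V (vec V u hu i)) = vec V _ (P.sm_g2 hV u hu) i := by
    rw [← P.m12 hV, ← P.m11 hV, Pu, Pv, vec_fderiv, vec_fderiv]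
    apply sf_ext
    intro q
    rfl
  unfold lapc
  rw [e1, e2, Pu, Pv, vec_fderiv, vec_fderiv]
  apply sf_ext
  intro q
  have h := congrArg (fun t : EuclideanSpace ℝ (Fin 4) => t i) (P.lap u q)
  exact h

end

end N4
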