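import Mathlib

set_option autoImplicit false

/-!
# The ring of smooth functions on an open subset of the plane, with its derivations
-/

namespace N4

open scoped ContDiff Topology

theorem two_le_inf : (2 : WithTop ℕ∞) ≤ ∞ := by
  have h : ((2 : ℕ∞) : WithTop ℕ∞) ≤ ((⊤ : ℕ∞) : WithTop ℕ∞) := WithTop.coe_le_coe.mpr le_top
  exact h

/-- extension by zero of a function on an open set -/
noncomputable def ext (V : TopologicalSpace.Opens (ℝ × ℝ)) (φ : V → ℝ) : ℝ × ℝ → ℝ := by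
  classical
  exact fun q => if h : q ∈ V then φ ⟨q, h⟩ else 0

theorem ext_of_mem (V : TopologicalSpace.Opens (ℝ × ℝ)) (φ : V → ℝ) (q : ℝ × ℝ) (h : q ∈ V) :
    ext V φ q = φ ⟨q, h⟩ := by
  unfold ext
  exact dif_pos h

/-- the ring of smooth functions on an open set of the plane -/
noncomputable def SF (V : TopologicalSpace.Opens (ℝ × ℝ)) : Subalgebra ℝ (V → ℝ) where
  carrier := {φ | ContDiffOn ℝ ∞ (ext V φ) V}
  mul_mem' := by
    intro a b ha hb
    have h := ContDiffOn.mul ha hb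
    refine h.congr ?_
    intro q hq
    rw [ext_of_mem V _ q hq, ext_of_mem V _ q hq, ext_of_mem V _ q hq]
    rfl
  add_mem' := by
    intro a b ha hb
    have h := ContDiffOn.add ha hb
    refine h.congr ?_
    intro q hq
    rw [ext_of_mem V _ q hq]
    show _ = ext V a q + ext V b q
    rw [ext_of_mem V _ q hq, ext_of_mem V _ q hq]
    rfl
  algebraMap_mem' := by
    intro r
    have h : ContDiffOn ℝ ∞ (fun _ : ℝ × ℝ => r) (V : Set (ℝ × ℝ)) := contDiffOn_const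
    refine h.congr ?_
    intro q hq
    rw [ext_of_mem V _ q hq]
    rfl

/-- the element of `SF V` given by a function smooth on `V` -/
noncomputable def mk (V : TopologicalSpace.Opens (ℝ × ℝ)) (f : ℝ × ℝ → ℝ)
    (hf : ContDiffOn ℝ ∞ f V) : SF V :=
  ⟨fun q => f q, by
    refine hf.congr ?_
    intro q hq
    rw [ext_of_mem V _ q hq]⟩

theorem mk_val (V : TopologicalSpace.Opens (ℝ × ℝ)) (f : ℝ × ℝ → ℝ)
    (hf : ContDiffOn ℝ ∞ f V) (q : V) : (mk V f hf).1 q = f q := rfl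

theorem mk_eq_iff (V : TopologicalSpace.Opens (ℝ × ℝ)) (f g : ℝ × ℝ → ℝ)
    (hf : ContDiffOn ℝ ∞ f V) (hg : ContDiffOn ℝ ∞ g V) :
    mk V f hf = mk V g hg ↔ ∀ q ∈ V, f q = g q := by
  constructor
  · intro h q hq
    have := congrArg (fun t : SF V => t.1 ⟨q, hq⟩) h
    exact this
  · intro h
    apply Subtype.ext
    funext q
    exact h q q.2

theorem sf_ext {V : TopologicalSpace.Opens (ℝ × ℝ)} {a b : SF V}
    (h : ∀ q : V, a.1 q = b.1 q) : a = b := by
  apply Subtype.ext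
  funext q
  exact h q

theorem sf_smooth {V : TopologicalSpace.Opens (ℝ × ℝ)} (a : SF V) :
    ContDiffOn ℝ ∞ (ext V a.1) V := a.2

theorem mk_ext {V : TopologicalSpace.Opens (ℝ × ℝ)} (a : SF V) :
    mk V (ext V a.1) (sf_smooth a) = a := by
  apply sf_ext
  intro q
  rw [mk_val, ext_of_mem V _ q q.2]

theorem mk_add (V : TopologicalSpace.Opens (ℝ × ℝ)) (f g : ℝ × ℝ → ℝ)
    (hf : ContDiffOn ℝ ∞ f V) (hg : ContDiffOn ℝ ∞ g V)
    (h : ContDiffOn ℝ ∞ (fun q => f q + g q) V) :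
    mk V (fun q => f q + g q) h = mk V f hf + mk V g hg := rfl

theorem mk_mul (V : TopologicalSpace.Opens (ℝ × ℝ)) (f g : ℝ × ℝ → ℝ)
    (hf : ContDiffOn ℝ ∞ f V) (hg : ContDiffOn ℝ ∞ g V)
    (h : ContDiffOn ℝ ∞ (fun q => f q * g q) V) :
    mk V (fun q => f q * g q) h = mk V f hf * mk V g hg := rfl

theorem mk_sub (V : TopologicalSpace.Opens (ℝ × ℝ)) (f g : ℝ × ℝ → ℝ)
    (hf : ContDiffOn ℝ ∞ f V) (hg : ContDiffOn ℝ ∞ g V)
    (h : ContDiffOn ℝ ∞ (fun q => f q - g q) V) :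
    mk V (fun q => f q - g q) h = mk V f hf - mk V g hg := rfl

theorem smooth_fderiv (V : TopologicalSpace.Opens (ℝ × ℝ)) (f : ℝ × ℝ → ℝ)
    (hf : ContDiffOn ℝ ∞ f V) (v : ℝ × ℝ) :
    ContDiffOn ℝ ∞ (fun q => fderiv ℝ f q v) V := by
  have h1 : ContDiffOn ℝ ∞ (fderiv ℝ f) V :=
    hf.fderiv_of_isOpen V.isOpen (by exact le_rfl)
  exact h1.clm_apply contDiffOn_const

theorem diff_at (V : TopologicalSpace.Opens (ℝ × ℝ)) (f : ℝ × ℝ → ℝ)
    (hf : ContDiffOn ℝ ∞ f V) (q : ℝ × ℝ) (hq : q ∈ V) : DifferentiableAt ℝ f q := by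
  have h := (hf.contDiffAt (V.isOpen.mem_nhds hq))
  exact h.differentiableAt (by simp)

theorem fderiv_ext_mk (V : TopologicalSpace.Opens (ℝ × ℝ)) (f : ℝ × ℝ → ℝ)
    (hf : ContDiffOn ℝ ∞ f V) (q : ℝ × ℝ) (hq : q ∈ V) :
    fderiv ℝ (ext V (mk V f hf).1) q = fderiv ℝ f q := by
  apply Filter.EventuallyEq.fderiv_eq
  filter_upwards [V.isOpen.mem_nhds hq] with x hx
  rw [ext_of_mem V _ x hx, mk_val]

/-- the directional derivative as a map of `SF V` -/
noncomputable def pdf (V : TopologicalSpace.Opens (ℝ × ℝ)) (v : ℝ × ℝ) (a : SF V) : SF V :=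
  mk V (fun q => fderiv ℝ (ext V a.1) q v) (smooth_fderiv V _ (sf_smooth a) v)

theorem pdf_mk (V : TopologicalSpace.Opens (ℝ × ℝ)) (v : ℝ × ℝ) (f : ℝ × ℝ → ℝ)
    (hf : ContDiffOn ℝ ∞ f V) :
    pdf V v (mk V f hf) = mk V (fun q => fderiv ℝ f q v) (smooth_fderiv V f hf v) := by
  unfold pdf
  rw [mk_eq_iff]
  intro q hq
  rw [fderiv_ext_mk V f hf q hq]

theorem pdf_add (V : TopologicalSpace.Opens (ℝ × ℝ)) (v : ℝ × ℝ) (a b : SF V) :
    pdf V v (a + b) = pdf V v a + pdf V v b := by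
  have h : a + b = mk V (fun q => ext V a.1 q + ext V b.1 q)
      ((sf_smooth a).add (sf_smooth b)) := by
    rw [mk_add V _ _ (sf_smooth a) (sf_smooth b), mk_ext, mk_ext]
  rw [h, pdf_mk]
  unfold pdf
  apply sf_ext
  intro q
  show fderiv ℝ (fun x => ext V a.1 x + ext V b.1 x) q v =
    fderiv ℝ (ext V a.1) q v + fderiv ℝ (ext V b.1) q v
  rw [fderiv_fun_add (diff_at V _ (sf_smooth a) q q.2) (diff_at V _ (sf_smooth b) q q.2)]
  rfl

theorem pdf_mul (V : TopologicalSpace.Opens (ℝ × ℝ)) (v : ℝ × ℝ) (a b : SF V) :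
    pdf V v (a * b) = a * pdf V v b + b * pdf V v a := by
  have h : a * b = mk V (fun q => ext V a.1 q * ext V b.1 q)
      ((sf_smooth a).mul (sf_smooth b)) := by
    rw [mk_mul V _ _ (sf_smooth a) (sf_smooth b), mk_ext, mk_ext]
  rw [h, pdf_mk]
  unfold pdf
  apply sf_ext
  intro q
  show fderiv ℝ (fun x => ext V a.1 x * ext V b.1 x) q v =
    a.1 q * fderiv ℝ (ext V b.1) q v + b.1 q * fderiv ℝ (ext V a.1) q v
  rw [fderiv_fun_mul (diff_at V _ (sf_smooth a) q q.2) (diff_at V _ (sf_smooth b) q q.2)]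
  rw [ext_of_mem V _ q q.2, ext_of_mem V _ q q.2]
  rfl

theorem pdf_const (V : TopologicalSpace.Opens (ℝ × ℝ)) (v : ℝ × ℝ) (r : ℝ) :
    pdf V v (algebraMap ℝ (SF V) r) = 0 := by
  have h : algebraMap ℝ (SF V) r = mk V (fun _ => r) contDiffOn_const := rfl
  rw [h, pdf_mk]
  apply sf_ext
  intro q
  show fderiv ℝ (fun _ : ℝ × ℝ => r) q v = 0
  rw [fderiv_fun_const]
  rfl

/-- the directional derivative as a derivation of `SF V` -/
noncomputable def pd (V : TopologicalSpace.Opens (ℝ × ℝ)) (v : ℝ × ℝ) :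
    Derivation ℝ (SF V) (SF V) where
  toFun := pdf V v
  map_add' := pdf_add V v
  map_smul' := by
    intro r a
    rw [Algebra.smul_def, pdf_mul, pdf_const]
    simp [Algebra.smul_def]
  map_one_eq_zero' := by
    show pdf V v 1 = 0
    have h : (1 : SF V) = algebraMap ℝ (SF V) 1 := by simp
    rw [h, pdf_const]
  leibniz' := by
    intro a b
    show pdf V v (a * b) = a • pdf V v b + b • pdf V v a
    rw [pdf_mul]
    rfl

theorem pd_mk (V : TopologicalSpace.Opens (ℝ × ℝ)) (v : ℝ × ℝ) (f : ℝ × ℝ → ℝ)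
    (hf : ContDiffOn ℝ ∞ f V) :
    pd V v (mk V f hf) = mk V (fun q => fderiv ℝ f q v) (smooth_fderiv V f hf v) :=
  pdf_mk V v f hf

theorem pd_comm (V : TopologicalSpace.Opens (ℝ × ℝ)) (v w : ℝ × ℝ) (a : SF V) :
    pd V v (pd V w a) = pd V w (pd V v a) := by
  rw [← mk_ext a, pd_mk, pd_mk, pd_mk, pd_mk, mk_eq_iff]
  intro q hq
  set f := ext V a.1 with hf
  have hs : ContDiffAt ℝ ∞ f q := (sf_smooth a).contDiffAt (V.isOpen.mem_nhds hq)
  have hd : DifferentiableAt ℝ (fderiv ℝ f) q := by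
    have h2 : ContDiffAt ℝ 1 (fderiv ℝ f) q :=
      (hs.of_le two_le_inf).fderiv_right
        (by norm_num : (1 : WithTop ℕ∞) + 1 ≤ 2)
    exact h2.differentiableAt (by norm_num)
  have e1 : ∀ w' : ℝ × ℝ, fderiv ℝ (fun x => fderiv ℝ f x w') q =
      (fderiv ℝ (fderiv ℝ f) q).flip w' := by
    intro w'
    rw [fderiv_clm_apply hd (differentiableAt_const w')]
    ext <;> simp
  rw [e1 w, e1 v]
  show fderiv ℝ (fderiv ℝ f) q v w = fderiv ℝ (fderiv ℝ f) q w v
  have hsym : IsSymmSndFDerivAt ℝ f q :=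
    ContDiffAt.isSymmSndFDerivAt (n := 2) (hs.of_le two_le_inf)
      (by simp)
  exact hsym v w

theorem isUnit_of_ne (V : TopologicalSpace.Opens (ℝ × ℝ)) (a : SF V)
    (h : ∀ q : V, a.1 q ≠ 0) : IsUnit a := by
  have hs : ContDiffOn ℝ ∞ (fun q => (ext V a.1 q)⁻¹) V := by
    apply (sf_smooth a).inv
    intro q hq
    rw [ext_of_mem V _ q hq]
    exact h ⟨q, hq⟩
  refine IsUnit.of_mul_eq_one (mk V _ hs) ?_
  apply sf_ext
  intro q
  show a.1 q * (ext V a.1 q)⁻¹ = 1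
  rw [ext_of_mem V _ q q.2]
  exact mul_inv_cancel₀ (h q)

/-- positive functions have a smooth positive square root -/
theorem exists_sqrt (V : TopologicalSpace.Opens (ℝ × ℝ)) (a : SF V)
    (h : ∀ q : V, 0 < a.1 q) : ∃ b : SF V, b * b = a ∧ ∀ q : V, 0 < b.1 q := by
  have hs : ContDiffOn ℝ ∞ (fun q => Real.sqrt (ext V a.1 q)) V := by
    apply (sf_smooth a).sqrt
    intro q hq
    rw [ext_of_mem V _ q hq]
    exact (h ⟨q, hq⟩).ne'
  refine ⟨mk V _ hs, ?_, ?_⟩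
  · apply sf_ext
    intro q
    show Real.sqrt (ext V a.1 q) * Real.sqrt (ext V a.1 q) = a.1 q
    rw [ext_of_mem V _ q q.2]
    exact Real.mul_self_sqrt (h q).le
  · intro q
    show 0 < Real.sqrt (ext V a.1 q)
    rw [ext_of_mem V _ q q.2]
    exact Real.sqrt_pos.mpr (h q)

/-- restriction to a smaller open set -/
noncomputable def res {V W : TopologicalSpace.Opens (ℝ × ℝ)} (hVW : W ≤ V) :
    SF V →ₐ[ℝ] SF W where
  toFun a := mk W (ext V a.1) ((sf_smooth a).mono hVW)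
  map_one' := by
    apply sf_ext
    intro q
    show ext V (1 : SF V).1 q = 1
    rw [ext_of_mem V _ q (hVW q.2)]
    rfl
  map_mul' := by
    intro a b
    apply sf_ext
    intro q
    show ext V (a * b : SF V).1 q = ext V a.1 q * ext V b.1 q
    rw [ext_of_mem V _ q (hVW q.2), ext_of_mem V _ q (hVW q.2), ext_of_mem V _ q (hVW q.2)]
    rfl
  map_zero' := by
    apply sf_ext
    intro q
    show ext V (0 : SF V).1 q = 0
    rw [ext_of_mem V _ q (hVW q.2)]
    rfl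
  map_add' := by
    intro a b
    apply sf_ext
    intro q
    show ext V (a + b : SF V).1 q = ext V a.1 q + ext V b.1 q
    rw [ext_of_mem V _ q (hVW q.2), ext_of_mem V _ q (hVW q.2), ext_of_mem V _ q (hVW q.2)]
    rfl
  commutes' := by
    intro r
    apply sf_ext
    intro q
    show ext V (algebraMap ℝ (SF V) r).1 q = r
    rw [ext_of_mem V _ q (hVW q.2)]
    rfl

theorem res_val {V W : TopologicalSpace.Opens (ℝ × ℝ)} (hVW : W ≤ V) (a : SF V) (q : W) :
    (res hVW a).1 q = a.1 ⟨q, hVW q.2⟩ := by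
  show ext V a.1 q = _
  rw [ext_of_mem V _ q (hVW q.2)]

theorem res_mk {V W : TopologicalSpace.Opens (ℝ × ℝ)} (hVW : W ≤ V) (f : ℝ × ℝ → ℝ)
    (hf : ContDiffOn ℝ ∞ f V) : res hVW (mk V f hf) = mk W f (hf.mono hVW) := by
  apply sf_ext
  intro q
  rw [res_val]
  rfl

theorem res_pd {V W : TopologicalSpace.Opens (ℝ × ℝ)} (hVW : W ≤ V) (v : ℝ × ℝ) (a : SF V) :
    res hVW (pd V v a) = pd W v (res hVW a) := by
  rw [← mk_ext a, pd_mk, res_mk, res_mk, pd_mk]

/-- an element which does not vanish identically is a unit on a smaller open set -/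
theorem zero_or_unit (V : TopologicalSpace.Opens (ℝ × ℝ)) (a : SF V) (h : a ≠ 0) :
    ∃ (W : TopologicalSpace.Opens (ℝ × ℝ)) (hW : W ≤ V), (W : Set (ℝ × ℝ)).Nonempty ∧
      IsUnit (res hW a) ∧ (∀ q : W, (res hW a).1 q ≠ 0) := by
  have h1 : ∃ q : V, a.1 q ≠ 0 := by
    by_contra hcon
    push Not at hcon
    exact h (sf_ext hcon)
  obtain ⟨q, hq⟩ := h1
  have hc : ContinuousOn (ext V a.1) V := (sf_smooth a).continuousOn
  have hopen : IsOpen ((V : Set (ℝ × ℝ)) ∩ (ext V a.1) ⁻¹' {0}ᶜ) :=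
    hc.isOpen_inter_preimage V.isOpen isOpen_compl_singleton
  refine ⟨⟨_, hopen⟩, fun x hx => hx.1, ⟨q, q.2, ?_⟩, ?_, ?_⟩
  · show ext V a.1 q ≠ 0
    rw [ext_of_mem V _ q q.2]
    exact hq
  · apply isUnit_of_ne
    intro x
    exact x.2.2
  · intro x
    exact x.2.2

end N4
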