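import Pool.Agent.Helper58.N4.Coord
import Pool.Agent.Helper58.N4.Ring

set_option autoImplicit false

/-!
# Gram-Schmidt, rotations and the second fundamental form
-/

namespace N4

section
variable {A : Type*} [CommRing A] [Algebra ℝ A]

/-- Gram-Schmidt -/
theorem gram_schmidt (P1 P2 : Derivation ℝ A A) (pc : ∀ u, P1 (P2 u) = P2 (P1 u))
    (f N3 : Fin 4 → A) (r s ri si : A)
    (hr : r * r = dt (vd P1 f) (vd P1 f)) (hri : r * ri = 1)
    (hs : s * s = dt (vd P1 f) (vd P1 f) * dt (vd P2 f) (vd P2 f) - dt (vd P1 f) (vd P2 f) ^ 2)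
    (hsi : s * si = 1) (h33 : dt N3 N3 = 1) (h31 : dt (vd P1 f) N3 = 0)
    (h32 : dt (vd P2 f) N3 = 0) :
    ∃ (b1 : A) (X1 X2 N4 : Fin 4 → A), CF P1 P2 f ri 0 b1 (r * si) X1 X2 N3 N4 := by
  set g11 := dt (vd P1 f) (vd P1 f) with hg11
  set g12 := dt (vd P1 f) (vd P2 f) with hg12
  set g22 := dt (vd P2 f) (vd P2 f) with hg22
  set b1 := -(g12 * ri * si) with hb1
  set X1 := ri • vd P1 f + (0 : A) • vd P2 f with hX1
  set X2 := b1 • vd P1 f + (r * si) • vd P2 f with hX2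
  have e11 : dt X1 X1 = 1 := by
    rw [hX1, dt_add_left, dt_add_right, dt_add_right, dt_smul_left, dt_smul_left, dt_smul_left,
      dt_smul_left, dt_smul_right, dt_smul_right, dt_smul_right, dt_smul_right, ← hg11, ← hg12,
      ← hg22, ← hr]
    linear_combination (r * ri + 1) * hri
  have e12 : dt X1 X2 = 0 := by
    rw [hX1, hX2, dt_add_left, dt_add_right, dt_add_right, dt_smul_left, dt_smul_left,
      dt_smul_left, dt_smul_left, dt_smul_right, dt_smul_right, dt_smul_right, dt_smul_right,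
      ← hg11, ← hg12, ← hg22, hb1, ← hr]
    linear_combination (-(ri * g12 * si * r)) * hri
  have e22 : dt X2 X2 = 1 := by
    rw [hX2, dt_add_left, dt_add_right, dt_add_right, dt_smul_left, dt_smul_left,
      dt_smul_left, dt_smul_left, dt_smul_right, dt_smul_right, dt_smul_right, dt_smul_right,
      dt_comm (vd P2 f) (vd P1 f), ← hg11, ← hg12, ← hg22, hb1]
    linear_combination (-(g12 ^ 2 * ri ^ 2 * si ^ 2)) * hr +
      (g12 ^ 2 * si ^ 2 * (r * ri - 1)) * hri + si ^ 2 * g22 * hr - si ^ 2 * hs +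
      (s * si + 1) * hsi
  have e13 : dt X1 N3 = 0 := by
    rw [hX1, dt_add_left, dt_smul_left, dt_smul_left, h31, h32]
    ring
  have e23 : dt X2 N3 = 0 := by
    rw [hX2, dt_add_left, dt_smul_left, dt_smul_left, h31, h32]
    ring
  exact ⟨b1, X1, X2, cr X1 X2 N3, pc, rfl, rfl,
    cr_on X1 X2 N3 e11 e22 h33 e12 e13 e23⟩

variable {P1 P2 : Derivation ℝ A A} {f : Fin 4 → A} {a1 a2 b1 b2 : A}
  {X1 X2 N3 N4 : Fin 4 → A}

/-- rotation of the tangent frame -/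
theorem CF.rot (F : CF P1 P2 f a1 a2 b1 b2 X1 X2 N3 N4) (C S : A) (h : C ^ 2 + S ^ 2 = 1) :
    CF P1 P2 f (C * a1 + S * b1) (C * a2 + S * b2) (C * b1 - S * a1) (C * b2 - S * a2)
      (C • X1 + S • X2) (C • X2 - S • X1) N3 N4 := by
  have o := F.on
  refine ⟨F.pc, ?_, ?_, ?_⟩
  · rw [F.x1, F.x2]
    funext i
    simp only [Pi.add_apply, Pi.smul_apply, smul_eq_mul]
    ring
  · rw [F.x1, F.x2]
    funext i
    simp only [Pi.add_apply, Pi.smul_apply, Pi.sub_apply, smul_eq_mul]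
    ring
  · refine ⟨?_, ?_, o.h22, o.h33, ?_, ?_, ?_, ?_, ?_, o.h23⟩
    · rw [dt_add_left, dt_add_right, dt_add_right]
      simp only [dt_smul_left, dt_smul_right, o.h00, o.h11, o.h01, dt_comm X2 X1]
      linear_combination h
    · rw [dt_sub_left, dt_sub_right, dt_sub_right]
      simp only [dt_smul_left, dt_smul_right, o.h00, o.h11, o.h01, dt_comm X2 X1]
      linear_combination h
    · rw [dt_add_left, dt_sub_right, dt_sub_right]
      simp only [dt_smul_left, dt_smul_right, o.h00, o.h11, o.h01, dt_comm X2 X1]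
      ring
    · rw [dt_add_left]
      simp only [dt_smul_left, o.h02, o.h12]
      ring
    · rw [dt_add_left]
      simp only [dt_smul_left, o.h03, o.h13]
      ring
    · rw [dt_sub_left]
      simp only [dt_smul_left, o.h02, o.h12]
      ring
    · rw [dt_sub_left]
      simp only [dt_smul_left, o.h03, o.h13]
      ring

omit [Algebra ℝ A] in
theorem rot_det (C S : A) (h : C ^ 2 + S ^ 2 = 1) :
    (C * a1 + S * b1) * (C * b2 - S * a2) - (C * a2 + S * b2) * (C * b1 - S * a1) =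
      a1 * b2 - a2 * b1 := by
  linear_combination (a1 * b2 - a2 * b1) * h

/-- a vector normal to the frame is normal to the coordinate vectors -/
theorem CF.normal (F : CF P1 P2 f a1 a2 b1 b2 X1 X2 N3 N4) {N : Fin 4 → A}
    (h1 : dt X1 N = 0) (h2 : dt X2 N = 0) : dt (vd P1 f) N = 0 ∧ dt (vd P2 f) N = 0 := by
  have hg := F.gram
  set Δ := dt (vd P1 f) (vd P1 f) * dt (vd P2 f) (vd P2 f) - dt (vd P1 f) (vd P2 f) ^ 2 with hΔ
  rw [F.x1, dt_add_left, dt_smul_left, dt_smul_left] at h1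
  rw [F.x2, dt_add_left, dt_smul_left, dt_smul_left] at h2
  constructor
  · linear_combination ((a1 * b2 - a2 * b1) * Δ) * (b2 * h1 - a2 * h2) -
      dt (vd P1 f) N * hg
  · linear_combination ((a1 * b2 - a2 * b1) * Δ) * (a1 * h2 - b1 * h1) -
      dt (vd P2 f) N * hg

theorem sff_aux (P : Derivation ℝ A A) {u v N : Fin 4 → A} (a b : A)
    (hu : dt u N = 0) (hv : dt v N = 0) :
    dt (vd P (a • u + b • v)) N = a * dt (vd P u) N + b * dt (vd P v) N := by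
  rw [vd_add, vd_smul, vd_smul, dt_add_left, dt_add_left, dt_add_left, dt_smul_left,
    dt_smul_left, dt_smul_left, dt_smul_left, hu, hv]
  ring

theorem vd_comm_coord (pc : ∀ u, P1 (P2 u) = P2 (P1 u)) (f : Fin 4 → A) :
    vd P2 (vd P1 f) = vd P1 (vd P2 f) := by
  funext i
  exact (pc (f i)).symm

/-- second fundamental form of the frame from the one of the coordinates -/
theorem CF.sff (F : CF P1 P2 f a1 a2 b1 b2 X1 X2 N3 N4) {N : Fin 4 → A}
    (h1 : dt X1 N = 0) (h2 : dt X2 N = 0) :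
    dt (vd (a1 • P1 + a2 • P2) X1) N = a1 ^ 2 * dt (vd P1 (vd P1 f)) N +
      2 * a1 * a2 * dt (vd P1 (vd P2 f)) N + a2 ^ 2 * dt (vd P2 (vd P2 f)) N ∧
    dt (vd (a1 • P1 + a2 • P2) X2) N = a1 * b1 * dt (vd P1 (vd P1 f)) N +
      (a1 * b2 + a2 * b1) * dt (vd P1 (vd P2 f)) N + a2 * b2 * dt (vd P2 (vd P2 f)) N ∧
    dt (vd (b1 • P1 + b2 • P2) X2) N = b1 ^ 2 * dt (vd P1 (vd P1 f)) N +
      2 * b1 * b2 * dt (vd P1 (vd P2 f)) N + b2 ^ 2 * dt (vd P2 (vd P2 f)) N := by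
  obtain ⟨n1, n2⟩ := F.normal h1 h2
  have hc := vd_comm_coord F.pc f
  refine ⟨?_, ?_, ?_⟩
  · rw [vd_comb, dt_add_left, dt_smul_left, dt_smul_left, F.x1, sff_aux P1 _ _ n1 n2,
      sff_aux P2 _ _ n1 n2, hc]
    ring
  · rw [vd_comb, dt_add_left, dt_smul_left, dt_smul_left, F.x2, sff_aux P1 _ _ n1 n2,
      sff_aux P2 _ _ n1 n2, hc]
    ring
  · rw [vd_comb, dt_add_left, dt_smul_left, dt_smul_left, F.x2, sff_aux P1 _ _ n1 n2,
      sff_aux P2 _ _ n1 n2, hc]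
    ring

/-- second fundamental form of the rotated frame -/
theorem CF.sff_rot (F : CF P1 P2 f a1 a2 b1 b2 X1 X2 N3 N4) {N : Fin 4 → A} (C S : A)
    (h : C ^ 2 + S ^ 2 = 1) (h1 : dt X1 N = 0) (h2 : dt X2 N = 0) :
    dt (vd ((C * a1 + S * b1) • P1 + (C * a2 + S * b2) • P2) (C • X1 + S • X2)) N =
      C ^ 2 * dt (vd (a1 • P1 + a2 • P2) X1) N + 2 * C * S * dt (vd (a1 • P1 + a2 • P2) X2) N +
      S ^ 2 * dt (vd (b1 • P1 + b2 • P2) X2) N ∧
    dt (vd ((C * a1 + S * b1) • P1 + (C * a2 + S * b2) • P2) (C • X2 - S • X1)) N =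
      (C ^ 2 - S ^ 2) * dt (vd (a1 • P1 + a2 • P2) X2) N - C * S *
      (dt (vd (a1 • P1 + a2 • P2) X1) N - dt (vd (b1 • P1 + b2 • P2) X2) N) ∧
    dt (vd ((C * b1 - S * a1) • P1 + (C * b2 - S * a2) • P2) (C • X2 - S • X1)) N =
      C ^ 2 * dt (vd (b1 • P1 + b2 • P2) X2) N - 2 * C * S * dt (vd (a1 • P1 + a2 • P2) X2) N +
      S ^ 2 * dt (vd (a1 • P1 + a2 • P2) X1) N := by
  obtain ⟨s1, s2, s3⟩ := F.sff h1 h2
  have G := F.rot C S h
  obtain ⟨t1, t2, t3⟩ := G.sff (N := N)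
    (by rw [dt_add_left, dt_smul_left, dt_smul_left, h1, h2]; ring)
    (by rw [dt_sub_left, dt_smul_left, dt_smul_left, h1, h2]; ring)
  refine ⟨?_, ?_, ?_⟩
  · rw [t1, s1, s2, s3]
    ring
  · rw [t2, s1, s2, s3]
    ring
  · rw [t3, s1, s2, s3]
    ring

/-- the commutator of the shape operators in the frame and in coordinates -/
theorem CF.shape_comm (F : CF P1 P2 f a1 a2 b1 b2 X1 X2 N3 N4)
    (hK : dt (vd P2 f) (vd P2 f) *
        (dt (vd P1 (vd P1 f)) N3 * dt (vd P1 (vd P2 f)) N4 -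
          dt (vd P1 (vd P1 f)) N4 * dt (vd P1 (vd P2 f)) N3) -
      dt (vd P1 f) (vd P2 f) *
        (dt (vd P1 (vd P1 f)) N3 * dt (vd P2 (vd P2 f)) N4 -
          dt (vd P1 (vd P1 f)) N4 * dt (vd P2 (vd P2 f)) N3) +
      dt (vd P1 f) (vd P1 f) *
        (dt (vd P1 (vd P2 f)) N3 * dt (vd P2 (vd P2 f)) N4 -
          dt (vd P1 (vd P2 f)) N4 * dt (vd P2 (vd P2 f)) N3) = 0) :
    dt (vd (a1 • P1 + a2 • P2) X2) N3 *
      (dt (vd (a1 • P1 + a2 • P2) X1) N4 - dt (vd (b1 • P1 + b2 • P2) X2) N4) -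
    dt (vd (a1 • P1 + a2 • P2) X2) N4 *
      (dt (vd (a1 • P1 + a2 • P2) X1) N3 - dt (vd (b1 • P1 + b2 • P2) X2) N3) = 0 := by
  obtain ⟨s1, s2, s3⟩ := F.sff F.on.h02 F.on.h12
  obtain ⟨t1, t2, t3⟩ := F.sff F.on.h03 F.on.h13
  rw [s1, s2, s3, t1, t2, t3]
  have g1 := F.e11
  have g2 := F.e22
  have g3 := F.e12
  set g11 := dt (vd P1 f) (vd P1 f)
  set g12 := dt (vd P1 f) (vd P2 f)
  set g22 := dt (vd P2 f) (vd P2 f)
  set α11 := dt (vd P1 (vd P1 f)) N3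
  set α12 := dt (vd P1 (vd P2 f)) N3
  set α22 := dt (vd P2 (vd P2 f)) N3
  set β11 := dt (vd P1 (vd P1 f)) N4
  set β12 := dt (vd P1 (vd P2 f)) N4
  set β22 := dt (vd P2 (vd P2 f)) N4
  set δ := a1 * b2 - a2 * b1 with hδ
  have i22 : g22 * δ ^ 2 = a1 ^ 2 + b1 ^ 2 := by
    rw [hδ]
    linear_combination b1 ^ 2 * g1 - 2 * a1 * b1 * g3 + a1 ^ 2 * g2
  have i12 : g12 * δ ^ 2 = -(a1 * a2 + b1 * b2) := by
    rw [hδ]
    linear_combination (-(b1 * b2)) * g1 + (a1 * b2 + a2 * b1) * g3 - a1 * a2 * g2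
  have i11 : g11 * δ ^ 2 = a2 ^ 2 + b2 ^ 2 := by
    rw [hδ]
    linear_combination b2 ^ 2 * g1 - 2 * a2 * b2 * g3 + a2 ^ 2 * g2
  have key : δ * ((a1 ^ 2 + b1 ^ 2) * (α11 * β12 - β11 * α12) +
      (a1 * a2 + b1 * b2) * (α11 * β22 - β11 * α22) +
      (a2 ^ 2 + b2 ^ 2) * (α12 * β22 - β12 * α22)) = 0 := by
    rw [← i22, ← i11]
    linear_combination δ ^ 3 * hK + δ * (α11 * β22 - β11 * α22) * i12
  rw [hδ] at key
  linear_combination (-1 : A) * key

end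

end N4
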