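import Pool.Agent.Helper58.N4.Fin
import Pool.Agent.Helper58.N4.NTDefs

set_option autoImplicit false

/-!
# The final statement for surfaces with flat normal bundle, from the frame theorem
-/

namespace N4

open scoped ContDiff Topology

/-- a patch in the sense of `NullTwo` is a patch -/
theorem patch_of {U : Set (ℝ × ℝ)} {f : ℝ × ℝ → EuclideanSpace ℝ (Fin 4)}
    (hU : IsOpen U) (hUc : IsConnected U) (hf : ContDiffOn ℝ ((⊤ : ℕ∞) : WithTop ℕ∞) f U)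
    (hpos : ∀ p ∈ U, 0 < NullTwo.gD f p) :
    Patch U f (NullTwo.gE f) (NullTwo.gF f) (NullTwo.gG f) (NullTwo.gD f) (NullTwo.lap f) :=
  ⟨hU, hUc, hf, fun _ => rfl, fun _ => rfl, fun _ => rfl, fun _ => rfl, hpos, fun _ _ => rfl⟩

/-- the theorem for surfaces with commuting shape operators, given that there is no frame data -/
theorem flat_statement
    (noflat : ∀ (W : TopologicalSpace.Opens (ℝ × ℝ)), (W : Set (ℝ × ℝ)).Nonempty →
      ∀ (c : ℝ), c ≠ 0 → ∀ (f' X1' X2' N3' N4' : Fin 4 → SF W)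
        (a1' a2' b1' b2' p q h' w1 w2 x y : SF W),
      FD W c f' X1' X2' N3' N4' a1' a2' b1' b2' p q h' w1 w2 (h' * (1 + x)) 0 (h' * (1 - x))
        (h' * y) 0 (-(h' * y)) → False) :
    ∀ (U : Set (ℝ × ℝ)) (f : ℝ × ℝ → EuclideanSpace ℝ (Fin 4)),
      IsOpen U → IsConnected U →
      ContDiffOn ℝ ((⊤ : ℕ∞) : WithTop ℕ∞) f U →
      (∀ p ∈ U, 0 < NullTwo.gD f p) →
      (∀ p ∈ U, ∀ ξ η : EuclideanSpace ℝ (Fin 4), NullTwo.IsNormal f p ξ →
        NullTwo.IsNormal f p η → NullTwo.shapeComm f p ξ η = 0) →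
      (∃ c : ℝ, c ≠ 0 ∧ ∀ p ∈ U, NullTwo.lap f (NullTwo.lap f f) p = c • NullTwo.lap f f p) →
      ∃ k : ℝ, ∀ p ∈ U, ‖NullTwo.lap f f p‖ = k := by
  intro U f hU hUc hf hpos hK ⟨c, hc, hcL⟩
  by_contra hn
  have P := patch_of hU hUc hf hpos
  obtain ⟨W, hW, f', X1', X2', N3', N4', a1', a2', b1', b2', p, q, h', w1, w2, x, y, G⟩ :=
    P.flat_geo hcL hn (by
      intro p hp ξ η e1 e2 e3 e4
      exact hK p hp ξ η ⟨e1, e2⟩ ⟨e3, e4⟩)
  exact noflat W hW c hc _ _ _ _ _ _ _ _ _ _ _ _ _ _ _ _ G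

end N4
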