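import Mathlib

set_option autoImplicit false

/-!
# Vectors of length four over a commutative ring with derivations
-/

namespace N4

variable {A : Type*} [CommRing A] [Algebra ℝ A]

/-- inner product on `A ^ 4` -/
def dt (u v : Fin 4 → A) : A := u 0 * v 0 + u 1 * v 1 + u 2 * v 2 + u 3 * v 3

/-- componentwise derivation -/
def vd (D : Derivation ℝ A A) (u : Fin 4 → A) : Fin 4 → A := fun i => D (u i)

omit [Algebra ℝ A] in
theorem dt_comm (u v : Fin 4 → A) : dt u v = dt v u := by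
  unfold dt
  ring

omit [Algebra ℝ A] in
theorem dt_add_left (u v w : Fin 4 → A) : dt (u + v) w = dt u w + dt v w := by
  simp only [dt, Pi.add_apply]
  ring

omit [Algebra ℝ A] in
theorem dt_add_right (u v w : Fin 4 → A) : dt u (v + w) = dt u v + dt u w := by
  simp only [dt, Pi.add_apply]
  ring

omit [Algebra ℝ A] in
theorem dt_sub_left (u v w : Fin 4 → A) : dt (u - v) w = dt u w - dt v w := by
  simp only [dt, Pi.sub_apply]
  ring

omit [Algebra ℝ A] in
theorem dt_sub_right (u v w : Fin 4 → A) : dt u (v - w) = dt u v - dt u w := by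
  simp only [dt, Pi.sub_apply]
  ring

omit [Algebra ℝ A] in
theorem dt_neg_left (u v : Fin 4 → A) : dt (-u) v = -dt u v := by
  simp only [dt, Pi.neg_apply]
  ring

omit [Algebra ℝ A] in
theorem dt_neg_right (u v : Fin 4 → A) : dt u (-v) = -dt u v := by
  simp only [dt, Pi.neg_apply]
  ring

omit [Algebra ℝ A] in
theorem dt_smul_left (a : A) (u v : Fin 4 → A) : dt (a • u) v = a * dt u v := by
  simp only [dt, Pi.smul_apply, smul_eq_mul]
  ring

omit [Algebra ℝ A] in
theorem dt_smul_right (a : A) (u v : Fin 4 → A) : dt u (a • v) = a * dt u v := by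
  simp only [dt, Pi.smul_apply, smul_eq_mul]
  ring

theorem D_dt (D : Derivation ℝ A A) (u v : Fin 4 → A) :
    D (dt u v) = dt (vd D u) v + dt u (vd D v) := by
  simp only [dt, vd, map_add, Derivation.leibniz, smul_eq_mul]
  ring

theorem vd_add (D : Derivation ℝ A A) (u v : Fin 4 → A) :
    vd D (u + v) = vd D u + vd D v := by
  funext i
  simp only [vd, Pi.add_apply, map_add]

theorem vd_smul (D : Derivation ℝ A A) (a : A) (u : Fin 4 → A) :
    vd D (a • u) = a • vd D u + D a • u := by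
  funext i
  simp only [vd, Pi.add_apply, Pi.smul_apply, smul_eq_mul, Derivation.leibniz]
  ring

theorem vd_comb (P1 P2 : Derivation ℝ A A) (a b : A) (u : Fin 4 → A) :
    vd (a • P1 + b • P2) u = a • vd P1 u + b • vd P2 u := by
  funext i
  simp [vd]

/-- an `ℝ`-algebra has no 2-torsion -/
theorem two_cancel {u : A} (h : u + u = 0) : u = 0 := by
  have h1 : (2 : ℝ) • u = 0 := by
    rw [two_smul]
    exact h
  have h2 : (2 : ℝ)⁻¹ • ((2 : ℝ) • u) = u := by
    rw [smul_smul]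
    norm_num
  rw [← h2, h1, smul_zero]

/-- an orthonormal frame of four vectors -/
structure ON (E0 E1 E2 E3 : Fin 4 → A) : Prop where
  h00 : dt E0 E0 = 1
  h11 : dt E1 E1 = 1
  h22 : dt E2 E2 = 1
  h33 : dt E3 E3 = 1
  h01 : dt E0 E1 = 0
  h02 : dt E0 E2 = 0
  h03 : dt E0 E3 = 0
  h12 : dt E1 E2 = 0
  h13 : dt E1 E3 = 0
  h23 : dt E2 E3 = 0

omit [Algebra ℝ A] in
theorem expand {E0 E1 E2 E3 : Fin 4 → A} (h : ON E0 E1 E2 E3) (v : Fin 4 → A) :
    v = dt v E0 • E0 + dt v E1 • E1 + dt v E2 • E2 + dt v E3 • E3 := by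
  obtain ⟨h00, h11, h22, h33, h01, h02, h03, h12, h13, h23⟩ := h
  let Q : Matrix (Fin 4) (Fin 4) A := Matrix.of ![E0, E1, E2, E3]
  have hQ : Q * Q.transpose = 1 := by
    ext i j
    rw [Matrix.mul_apply, Fin.sum_univ_four]
    have key : ∀ i j : Fin 4, Q i 0 * Q.transpose 0 j + Q i 1 * Q.transpose 1 j +
        Q i 2 * Q.transpose 2 j + Q i 3 * Q.transpose 3 j = dt (Q i) (Q j) := by
      intro i j
      rfl
    rw [key i j]
    fin_cases i <;> fin_cases j
    · exact h00
    · exact h01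
    · exact h02
    · exact h03
    · exact (dt_comm _ _).trans h01
    · exact h11
    · exact h12
    · exact h13
    · exact (dt_comm _ _).trans h02
    · exact (dt_comm _ _).trans h12
    · exact h22
    · exact h23
    · exact (dt_comm _ _).trans h03
    · exact (dt_comm _ _).trans h13
    · exact (dt_comm _ _).trans h23
    · exact h33
  have hQ2 : Q.transpose * Q = 1 := mul_eq_one_comm.mp hQ
  have hent : ∀ i j : Fin 4, E0 i * E0 j + E1 i * E1 j + E2 i * E2 j + E3 i * E3 j =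
      if i = j then 1 else 0 := by
    intro i j
    rw [← Matrix.one_apply, ← hQ2, Matrix.mul_apply, Fin.sum_univ_four]
    rfl
  have hmain : ∀ i : Fin 4, v i = dt v E0 * E0 i + dt v E1 * E1 i + dt v E2 * E2 i +
      dt v E3 * E3 i := by
    intro i
    have e0 := hent i 0
    have e1 := hent i 1
    have e2 := hent i 2
    have e3 := hent i 3
    have hs : v i = v 0 * (if i = 0 then 1 else 0) + v 1 * (if i = 1 then 1 else 0) +
        v 2 * (if i = 2 then 1 else 0) + v 3 * (if i = 3 then 1 else 0) := by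
      fin_cases i <;> simp
    rw [hs, ← e0, ← e1, ← e2, ← e3]
    unfold dt
    ring
  funext i
  exact hmain i

omit [Algebra ℝ A] in
theorem parseval {E0 E1 E2 E3 : Fin 4 → A} (h : ON E0 E1 E2 E3) (u v : Fin 4 → A) :
    dt u v = dt u E0 * dt v E0 + dt u E1 * dt v E1 + dt u E2 * dt v E2 +
      dt u E3 * dt v E3 := by
  conv_lhs => rw [expand h v]
  rw [dt_add_right, dt_add_right, dt_add_right, dt_smul_right, dt_smul_right, dt_smul_right,
    dt_smul_right]
  ring

/-- the vector product of three vectors -/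
def cr (u v w : Fin 4 → A) : Fin 4 → A :=
  ![u 1 * (v 2 * w 3 - v 3 * w 2) - u 2 * (v 1 * w 3 - v 3 * w 1) +
      u 3 * (v 1 * w 2 - v 2 * w 1),
    -(u 0 * (v 2 * w 3 - v 3 * w 2) - u 2 * (v 0 * w 3 - v 3 * w 0) +
      u 3 * (v 0 * w 2 - v 2 * w 0)),
    u 0 * (v 1 * w 3 - v 3 * w 1) - u 1 * (v 0 * w 3 - v 3 * w 0) +
      u 3 * (v 0 * w 1 - v 1 * w 0),
    -(u 0 * (v 1 * w 2 - v 2 * w 1) - u 1 * (v 0 * w 2 - v 2 * w 0) +
      u 2 * (v 0 * w 1 - v 1 * w 0))]

omit [Algebra ℝ A] in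
theorem cr_dt (u v w x : Fin 4 → A) : dt (cr u v w) x =
    (u 1 * (v 2 * w 3 - v 3 * w 2) - u 2 * (v 1 * w 3 - v 3 * w 1) +
      u 3 * (v 1 * w 2 - v 2 * w 1)) * x 0 +
    (-(u 0 * (v 2 * w 3 - v 3 * w 2) - u 2 * (v 0 * w 3 - v 3 * w 0) +
      u 3 * (v 0 * w 2 - v 2 * w 0))) * x 1 +
    (u 0 * (v 1 * w 3 - v 3 * w 1) - u 1 * (v 0 * w 3 - v 3 * w 0) +
      u 3 * (v 0 * w 1 - v 1 * w 0)) * x 2 +
    (-(u 0 * (v 1 * w 2 - v 2 * w 1) - u 1 * (v 0 * w 2 - v 2 * w 0) +
      u 2 * (v 0 * w 1 - v 1 * w 0))) * x 3 := rfl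

omit [Algebra ℝ A] in
theorem cr_on (u v w : Fin 4 → A) (huu : dt u u = 1) (hvv : dt v v = 1) (hww : dt w w = 1)
    (huv : dt u v = 0) (huw : dt u w = 0) (hvw : dt v w = 0) :
    ON u v w (cr u v w) := by
  refine ⟨huu, hvv, hww, ?_, huv, huw, ?_, hvw, ?_, ?_⟩
  · have h : dt (cr u v w) (cr u v w) =
        dt u u * (dt v v * dt w w - dt v w * dt v w) -
        dt u v * (dt u v * dt w w - dt v w * dt u w) +
        dt u w * (dt u v * dt v w - dt v v * dt u w) := by
      rw [cr_dt]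
      simp only [cr, dt, Matrix.cons_val]
      ring
    rw [h, huu, hvv, hww, huv, huw, hvw]
    ring
  · rw [dt_comm, cr_dt]
    ring
  · rw [dt_comm, cr_dt]
    ring
  · rw [dt_comm, cr_dt]
    ring

end N4
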